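import Pool.Agent.W5h35.IC.Vf

/-!
# The values as iterated integrals over segments in the complex plane
-/

set_option autoImplicit false

open PowerSeries Pool.Agent.Y113 Pool.Agent.Y120.GF Pool.Agent.Y120.GH Filter Topology MeasureTheory

namespace Pool.Agent.W5h35.IC

section
variable {ρ : ℝ}

lemma inn_mul' {f g : PowerSeries ℂ} (hf : f ∈ Cw ρ) (hg : g ∈ Cw ρ) {u : ℂ} (hu : ‖u‖ * ρ < 1) :
    inn (f * g) u = inn f u * inn g u := by
  unfold inn
  rw [tsum_mul_tsum_eq_tsum_sum_antidiagonal_of_summable_norm (summable_at (hf ‖u‖ (norm_nonneg u) hu) le_rfl)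
    (summable_at (hg ‖u‖ (norm_nonneg u) hu) le_rfl)]
  refine tsum_congr fun m => ?_
  rw [PowerSeries.coeff_mul, Finset.sum_mul]
  refine Finset.sum_congr rfl fun kl hkl => ?_
  rw [← Finset.HasAntidiagonal.mem_antidiagonal.1 hkl, pow_add]
  ring

lemma inn_zero' (f : PowerSeries ℂ) : inn f 0 = constantCoeff f := by
  unfold inn
  rw [tsum_eq_single 0]
  · simp
  · intro m hm
    rw [zero_pow hm, mul_zero]

lemma inn_X' (u : ℂ) : inn (X : PowerSeries ℂ) u = u := by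
  unfold inn
  rw [tsum_eq_single 1]
  · simp
  · intro m hm
    rw [PowerSeries.coeff_X, if_neg hm, zero_mul]

lemma exists_rad (hρ : 0 ≤ ρ) {x : ℂ} (hx : ‖x‖ * ρ < 1) : ∃ r : ℝ, ‖x‖ < r ∧ r * ρ < 1 := by
  rcases hρ.eq_or_lt with h0 | h0
  · exact ⟨‖x‖ + 1, by linarith, by rw [← h0]; simp⟩
  · have h1 : ‖x‖ < 1 / ρ := by rwa [lt_div_iff₀ h0]
    have h2 : 1 / ρ * ρ = 1 := by field_simp
    exact ⟨(‖x‖ + 1 / ρ) / 2, by linarith, by nlinarith⟩

/-- the derivative along a segment -/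
lemma seg_deriv (hρ : 0 ≤ ρ) {f : PowerSeries ℂ} (hf : f ∈ Cw ρ) {x : ℂ} (hx : ‖x‖ * ρ < 1) {s : ℝ} (hs : s ∈ Set.uIcc (0 : ℝ) 1) :
    HasDerivAt (fun s : ℝ => inn f (s * x)) (inn (PowerSeries.derivative ℂ f) (s * x) * x) s := by
  obtain ⟨r, hr, hrρ⟩ := exists_rad hρ hx
  rw [Set.uIcc_of_le zero_le_one] at hs
  have hr0 : 0 ≤ r := (norm_nonneg x).trans hr.le
  have hn : ‖(s : ℂ) * x‖ < r := by
    rw [norm_mul, Complex.norm_real, Real.norm_of_nonneg hs.1]
    exact lt_of_le_of_lt (mul_le_of_le_one_left (norm_nonneg x) hs.2) hr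
  have h1 : Summable fun m => ‖coeff m f‖ * r ^ m := hf r hr0 hrρ
  have h2 : HasDerivAt (inn f) (inn (PowerSeries.derivative ℂ f) ((s : ℂ) * x)) ((s : ℂ) * x) := by
    have h3 := (inn_deriv h1 hn).tsum_eq
    have h4 : inn (PowerSeries.derivative ℂ f) ((s : ℂ) * x) = deriv (inn f) ((s : ℂ) * x) := h3
    rw [h4]
    exact ((inn_an h1 _ (by rwa [Metric.mem_ball, dist_zero_right])).differentiableAt).hasDerivAt
  have h5 : HasDerivAt (fun z : ℂ => z * x) x (s : ℂ) := by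
    have := (hasDerivAt_id (s : ℂ)).mul_const x
    rw [one_mul] at this
    exact this
  have h6 := HasDerivAt.comp (s : ℂ) (h₂ := inn f) (h := fun z : ℂ => z * x) h2 h5
  exact h6.comp_ofReal

lemma seg_cont (hρ : 0 ≤ ρ) {f : PowerSeries ℂ} (hf : f ∈ Cw ρ) {x : ℂ} (hx : ‖x‖ * ρ < 1) :
    ContinuousOn (fun s : ℝ => inn f (s * x)) (Set.uIcc (0 : ℝ) 1) := fun _ hs =>
  (seg_deriv hρ hf hx hs).continuousAt.continuousWithinAt

/-- the fundamental theorem of calculus along a segment -/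
lemma seg_int (hρ : 0 ≤ ρ) {f : PowerSeries ℂ} (hf : f ∈ Cw ρ) {x : ℂ} (hx : ‖x‖ * ρ < 1) :
    (∫ s in (0 : ℝ)..1, inn (PowerSeries.derivative ℂ f) (s * x) * x) = inn f x - constantCoeff f := by
  rw [intervalIntegral.integral_eq_sub_of_hasDerivAt (fun s hs => seg_deriv hρ hf hx hs)]
  · rw [Complex.ofReal_one, one_mul, Complex.ofReal_zero, zero_mul, inn_zero']
  · refine ContinuousOn.intervalIntegrable ?_
    exact (seg_cont hρ (deriv_mem_Cw hρ hf) hx).mul continuousOn_const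

end

section
variable {σ : Type} {ω : σ → ℚ⟦X⟧}

/-- the value of a series at a complex number -/
noncomputable def valc (f : ℚ⟦X⟧) (x : ℂ) : ℂ := ∑' m : ℕ, ((coeff m f : ℚ) : ℂ) * x ^ m

lemma valc_inn (f : ℚ⟦X⟧) (x : ℂ) : valc f x = inn (cx f) x := by
  unfold valc inn
  refine tsum_congr fun m => ?_
  rw [coeff_cx]

/-- the iterated integrals -/
noncomputable def JT (ω : σ → ℚ⟦X⟧) : List (Option σ) → ℂ → ℂ
  | [] => fun _ => 1
  | none :: w => fun x => ∫ s in (0 : ℝ)..1, JT ω w (s * x) / s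
  | some j :: w => fun x => ∫ s in (0 : ℝ)..1, valc (ω j) (s * x) * JT ω w (s * x) * x

lemma norm_seg {ρ : ℝ} (hρ : 0 ≤ ρ) {x : ℂ} (hx : ‖x‖ * ρ < 1) {s : ℝ} (h0 : 0 ≤ s) (h1 : s ≤ 1) : ‖(s : ℂ) * x‖ * ρ < 1 := by
  rw [norm_mul, Complex.norm_real, Real.norm_of_nonneg h0]
  refine lt_of_le_of_lt (mul_le_mul_of_nonneg_right (mul_le_of_le_one_left (norm_nonneg x) h1) hρ) hx

theorem JT_eq {ρ : ℝ} (hρ : 0 ≤ ρ) (hω : ∀ j, ω j ∈ Kr ρ) (w : List (Option σ)) (ha : adm w) (x : ℂ) (hx : ‖x‖ * ρ < 1) :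
    JT ω w x = inn (cx (I2 ω w)) x := by
  induction w generalizing x with
  | nil =>
    show (1 : ℂ) = inn (cx 1) x
    rw [map_one]
    unfold inn
    rw [tsum_eq_single 0]
    · simp
    · intro m hm
      rw [coeff_one, if_neg hm, zero_mul]
  | cons a w ih =>
    have ha' := adm_tail ha
    have hF : cx (I2 ω (a :: w)) ∈ Cw ρ := I2_Kr hω _
    have hc : constantCoeff (cx (I2 ω (a :: w))) = 0 := by
      rw [← coeff_zero_eq_constantCoeff_apply, coeff_cx, coeff_zero_eq_constantCoeff_apply, const_I2 (by simp)]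
      simp
    have hint := seg_int hρ hF hx
    rw [hc, sub_zero] at hint
    rw [← hint]
    rcases a with _ | j
    · show (∫ s in (0 : ℝ)..1, JT ω w (s * x) / s) = _
      rw [intervalIntegral.integral_of_le zero_le_one, intervalIntegral.integral_of_le zero_le_one]
      refine setIntegral_congr_fun measurableSet_Ioc fun s hs => ?_
      have hs0 : (s : ℂ) ≠ 0 := by
        have : s ≠ 0 := hs.1.ne'
        exact_mod_cast this
      have hu := norm_seg hρ hx hs.1.le hs.2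
      show JT ω w (s * x) / s = inn (PowerSeries.derivative ℂ (cx (I2 ω (none :: w)))) (s * x) * x
      rw [ih ha' (s * x) hu, div_eq_iff hs0]
      have h1 : cx (I2 ω w) = X * PowerSeries.derivative ℂ (cx (I2 ω (none :: w))) := by
        have h2 := congrArg cx (eul_I2 (ω := ω) ha)
        rw [map_mul, cx_der] at h2
        have h3 : cx (X : ℚ⟦X⟧) = X := by rw [cx, PowerSeries.map_X]
        rw [h3] at h2
        rw [h2]
        show _ = cx (1 * I2 ω w)
        rw [one_mul]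
      rw [h1, inn_mul' X_mem (deriv_mem_Cw hρ hF) hu, inn_X']
      ring
    · show (∫ s in (0 : ℝ)..1, valc (ω j) (s * x) * JT ω w (s * x) * x) = _
      refine intervalIntegral.integral_congr fun s hs => ?_
      rw [Set.uIcc_of_le zero_le_one] at hs
      have hu := norm_seg hρ hx hs.1 hs.2
      show valc (ω j) (s * x) * JT ω w (s * x) * x = inn (PowerSeries.derivative ℂ (cx (I2 ω (some j :: w)))) (s * x) * x
      rw [ih ha' (s * x) hu, valc_inn, ← cx_der]
      have h2 : d⁄dX ℚ (I2 ω (some j :: w)) = ω j * I2 ω w := deriv_prim _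
      rw [h2, map_mul, inn_mul' (hω j) (I2_Kr hω w) hu]

end

end Pool.Agent.W5h35.IC
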