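import Pool.Agent.W5h35.IC.Wint
import Pool.Agent.Y916.Af.Ind

/-!
# Almost all tuples of algebraic integers
-/

set_option autoImplicit false

open PowerSeries Module Pool.Agent.Y113 Pool.Agent.Y120.GF Pool.Agent.Y120.GH Filter Topology

namespace Pool.Agent.W5h35.IC

open Pool.Agent.Y916
open Pool.Agent.Y916.Al (evc)
open Pool.Agent.Y916.Af (Vc GFs ptc ExcT tupT2s nrh_of_gfs prod_irrD opt_irrD small_tuples coeff_sub deg_sub eval_sub)
open Pool.Agent.Y118.UL (Irr)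

attribute [-instance] HahnSeries.powerSeriesAlgebra

section
variable {σ : Type} {y : ℚ⟦X⟧} {g Δ : Polynomial ℤ} {ω : σ → ℚ⟦X⟧} {P : Polynomial (Polynomial ℤ)}

/-- there is a relation which is not a consequence of the shuffle relations -/
def Exc (ω : σ → ℚ⟦X⟧) (L δ d : ℕ) {q k : ℕ} (w : Fin q → ℂ) (α : Fin k → ℂ) : Prop :=
  ∃ ℓ : Fin k → ℂ, (∀ j, Complex.exp (ℓ j) = α j) ∧
    ∃ K : IntermediateField ℚ ℂ, FiniteDimensional ℚ K ∧ finrank ℚ K ≤ d ∧
    ∃ Q : MvPolynomial (Fin q ⊕ Fin k × Option (Wt σ L)) K, Q.totalDegree ≤ δ ∧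
      MvPolynomial.aeval (Sum.elim w (pnt ω L α ℓ)) Q = 0 ∧
      ∃ (γ : Fin k → List (Option σ) → ℂ) (t : Fin k → ℂ), (∀ j, AChar (γ j)) ∧
        MvPolynomial.aeval (Sum.elim w fun a : Fin k × Option (Wt σ L) => a.2.elim (t a.1) fun v => γ a.1 v.1) Q ≠ 0

lemma coeff_rename_mem {ι κ : Type} {K : IntermediateField ℚ ℂ} (M : Submodule K ℂ) {f : ι → κ} (hf : Function.Injective f)
    {Q : MvPolynomial ι ℂ} (hQ : ∀ s, Q.coeff s ∈ M) (s : κ →₀ ℕ) : (MvPolynomial.rename f Q).coeff s ∈ M := by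
  by_cases h : ∃ u : ι →₀ ℕ, u.mapDomain f = s
  · obtain ⟨u, rfl⟩ := h
    rw [MvPolynomial.coeff_rename_mapDomain f hf]
    exact hQ u
  · push Not at h
    rw [MvPolynomial.coeff_rename_eq_zero f Q s fun u hu => absurd hu (h u)]
    exact Submodule.zero_mem _

/-- **almost all tuples** -/
theorem Full.tuples [Fintype σ] [DecidableEq σ] (h : Full P y g Δ ω) (B₁ L q k m d δ : ℕ) (hm : 1 ≤ m) :
    ∃ c : ℝ, 0 < c ∧ ∃ C : ℝ, 0 ≤ C ∧ ∀ (w : Fin q → ℂ) (T : ℕ), 1 ≤ T → {ξ : ℂ | Sl.SInt m T ξ}.Finite ∧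
    ∀ Y : Set (Fin k → ℂ), (∀ β ∈ Y, (∀ i, Sl.SInt m T (β i)) ∧ ((∀ i, (B₁ : ℝ) < ‖β i‖) → Exc ω L δ d w β)) →
    (Y.ncard : ℝ) ≤ C * (T : ℝ) ^ (-c) * ({ξ : ℂ | Sl.SInt m T ξ}.ncard : ℝ) ^ k := by
  classical
  obtain ⟨ρ, hρ, hy, hω⟩ := h.conv
  obtain ⟨B₀, hB₀⟩ := exists_nat_ge (max ρ B₁)
  obtain ⟨r, e⟩ : ∃ r : ℕ, Nonempty (Fin r ≃ Fin P.natDegree × Wt σ L) := ⟨_, ⟨(Fintype.equivFin _).symm⟩⟩
  obtain ⟨e⟩ := e
  have hn : 0 < P.natDegree := by
    rcases Nat.eq_zero_or_pos P.natDegree with h0 | h0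
    · exfalso
      have h1 := Polynomial.eq_one_of_monic_natDegree_zero h.monic h0
      have h2 := h.root
      rw [h1, map_one] at h2
      exact one_ne_zero h2
    · exact h0
  obtain ⟨T₀, A₀, hG⟩ := h.dat.gfs h.monic h.root h.hT L (indT_YX h.dat h.Δne h.gne h.monic h.root h.pow h.ex L) e
  set hs : Fin r → ℚ⟦X⟧ := fun i => YX P.natDegree y ω L (e i) with hhs
  obtain ⟨c₁, hc₁, C₁, hC₁, h₁⟩ := tupT2s (nrh_of_gfs hG) hG.hsize k m δ d ((q + 1) ^ δ)
  obtain ⟨C₂, hC₂, h₂⟩ := small_tuples m k (B₀ + 1) (by omega)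
  obtain ⟨c₃, hc₃, hmany⟩ := Sl.many m hm
  refine ⟨min c₁ 1, lt_min hc₁ one_pos, (C₁ + C₂) / c₃ ^ k, by positivity, fun w T hT => ⟨Sl.sint_fin m T, fun Y hY => ?_⟩⟩
  set W : Submodule ℚ ℂ := Submodule.span ℚ (Set.range fun o : Option (Fin q) => o.elim 1 w) with hW
  have hWf : Module.Finite ℚ W := Module.Finite.span_of_finite ℚ (Set.finite_range _)
  have hWd : finrank ℚ W ≤ q + 1 := by
    refine (finrank_range_le_card _).trans ?_
    simp
  have hW1 : (1 : ℂ) ∈ W := Submodule.subset_span ⟨none, rfl⟩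
  have hWw : ∀ j, w j ∈ W := fun j => Submodule.subset_span ⟨some j, rfl⟩
  obtain ⟨hb1, hb2⟩ := Om.finrank_pow_le W δ
  obtain ⟨hf, hnn⟩ := h₁ (W ^ δ) hb1 (hb2.trans (Nat.pow_le_pow_left hWd _)) T hT
  have h₂ := h₂ T hT
  set S₂ := (Fintype.piFinset fun _ : Fin k => Sl.NF m T).filter fun α => ∃ i, ‖α i‖ ≤ ((B₀ + 1 : ℕ) : ℝ) with hS₂
  set S₁ := {α : Fin k → ℂ | (∀ i, Sl.AInt m T (α i)) ∧ ExcT hs δ d (W ^ δ) α} with hS₁
  have hsub : Y ⊆ S₁ ∪ (S₂ : Set (Fin k → ℂ)) := by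
    intro α hα
    obtain ⟨ha, hex⟩ := hY α hα
    have ha' : ∀ i, Sl.AInt m T (α i) := fun i => (ha i).aint
    by_cases hsm : ∃ i, ‖α i‖ ≤ ((B₀ + 1 : ℕ) : ℝ)
    · right
      rw [hS₂, Finset.mem_coe, Finset.mem_filter, Fintype.mem_piFinset]
      exact ⟨fun i => Sl.mem_NF.2 (ha' i), hsm⟩
    · left
      push Not at hsm
      have hαρ : ∀ j, ρ < ‖α j‖ := by
        intro j
        have h1 := hsm j
        have h2 := (le_max_left ρ (B₁ : ℝ)).trans hB₀
        push_cast at h1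
        linarith
      obtain ⟨ℓ, hℓ, K, hK, hKd, Q, hQ, hQ0, γ, t, hγ, hne⟩ := hex fun j => by
        have h1 := hsm j
        have h2 := (le_max_right ρ (B₁ : ℝ)).trans hB₀
        push_cast at h1
        linarith
      refine ⟨ha', ℓ, hℓ, {y' | ∀ j, (fun s => y' (j, s)) ∈ {v : Option (Fin r) → ℂ | (fun s => v (some s)) ∈ Zv e (ou (cx y) (α j))}},
        irr_of_irrD fun d => prod_irrD _ fun j => opt_irrD _ (h.irrZ hρ hω e _ d), ?_, ?_, K, hK, hKd, ?_⟩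
      · intro j
        show (fun i => evc (1 / α j) (YX P.natDegree y ω L (e i))) ∈ Zv e (ou (cx y) (α j))
        exact memZ hρ hy hω e (hαρ j)
      · intro y' hy' j
        have h3 : (fun i => y' (j, some i)) ∈ Zv e (ou (cx y) (α j)) := hy' j
        exact h.subV hρ hy e (hαρ j) h3
      · set ix : Wt σ L → Fin r := fun v => e.symm (⟨0, hn⟩, v) with hix
        have hex : ∀ v, e (ix v) = (⟨0, hn⟩, v) := fun v => e.apply_symm_apply _
        have hixi : Function.Injective ix := by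
          intro v v' hvv
          have h1 := congrArg (fun i => (e i).2) hvv
          simp only [hex] at h1
          exact h1
        have hinj : Function.Injective fun a : Fin k × Option (Wt σ L) => (a.1, a.2.map ix) := by
          rintro ⟨a, v⟩ ⟨a', v'⟩ hvv
          have h1 := congrArg Prod.fst hvv
          have h2 := congrArg Prod.snd hvv
          exact Prod.ext h1 (Option.map_injective hixi h2)
        set Q1 : MvPolynomial (Fin k × Option (Wt σ L)) ℂ :=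
          MvPolynomial.aeval (Sum.elim (fun i => MvPolynomial.C (w i)) MvPolynomial.X) Q with hQ1
        have hval : ∀ (z : Fin k × Option (Fin r) → ℂ) (z' : Fin k × Option (Wt σ L) → ℂ),
            (∀ a : Fin k × Option (Wt σ L), z (a.1, a.2.map ix) = z' a) →
            MvPolynomial.aeval z (MvPolynomial.rename (fun a : Fin k × Option (Wt σ L) => (a.1, a.2.map ix)) Q1) =
              MvPolynomial.aeval (Sum.elim w z') Q := by
          intro z z' hz
          have hfun : (z ∘ fun a : Fin k × Option (Wt σ L) => (a.1, a.2.map ix)) = z' := funext hz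
          rw [MvPolynomial.aeval_rename, hfun, hQ1, eval_sub]
        refine ⟨MvPolynomial.rename (fun a : Fin k × Option (Wt σ L) => (a.1, a.2.map ix)) Q1,
          (MvPolynomial.totalDegree_rename_le _ _).trans (deg_sub K w Q hQ), ?_, ?_, ?_⟩
        · exact coeff_rename_mem _ hinj fun s => coeff_sub K w W hW1 hWw Q hQ s
        · rw [hval _ (pnt ω L α ℓ)]
          · exact hQ0
          · rintro ⟨j, v⟩
            rcases v with _ | v
            · rfl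
            · show evc (1 / α j) (YX P.natDegree y ω L (e (ix v))) = ou (cx (I2 ω v.1)) (α j)
              rw [hex, evc_ou, YX]
              show ou (cx (y ^ 0 * I2 ω v.1)) (α j) = _
              rw [pow_zero, one_mul]
        · refine ⟨fun a => a.2.elim (t a.1) fun i => (ou (cx y) (α a.1)) ^ ((e i).1 : ℕ) * γ a.1 (e i).2.1,
            fun j => ⟨γ j, hγ j, fun i => rfl⟩, ?_⟩
          rw [hval _ (fun a : Fin k × Option (Wt σ L) => a.2.elim (t a.1) fun v => γ a.1 v.1)]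
          · exact hne
          · rintro ⟨j, v⟩
            rcases v with _ | v
            · rfl
            · show (ou (cx y) (α j)) ^ ((e (ix v)).1 : ℕ) * γ j (e (ix v)).2.1 = γ j v.1
              rw [hex]
              show (ou (cx y) (α j)) ^ 0 * γ j v.1 = γ j v.1
              rw [pow_zero, one_mul]
  have hfin : (S₁ ∪ (S₂ : Set (Fin k → ℂ))).Finite := hf.union S₂.finite_toSet
  have hT1 : (1 : ℝ) ≤ T := by exact_mod_cast hT
  have e1 : (T : ℝ) ^ (((k * Sl.Mm m : ℕ) : ℝ) - c₁) ≤ (T : ℝ) ^ (((k * Sl.Mm m : ℕ) : ℝ) - min c₁ 1) :=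
    Real.rpow_le_rpow_of_exponent_le hT1 (by linarith [min_le_left c₁ 1])
  have e2 : (T : ℝ) ^ (((k * Sl.Mm m : ℕ) : ℝ) - 1) ≤ (T : ℝ) ^ (((k * Sl.Mm m : ℕ) : ℝ) - min c₁ 1) :=
    Real.rpow_le_rpow_of_exponent_le hT1 (by linarith [min_le_right c₁ 1])
  have hmain : (Y.ncard : ℝ) ≤
      (C₁ + C₂) * (T : ℝ) ^ (((k * Sl.Mm m : ℕ) : ℝ) - min c₁ 1) :=
    calc (Y.ncard : ℝ)
        ≤ ((S₁ ∪ (S₂ : Set (Fin k → ℂ))).ncard : ℝ) := by exact_mod_cast Set.ncard_le_ncard hsub hfin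
      _ ≤ (S₁.ncard : ℝ) + (S₂.card : ℝ) := by
          have h3 := Set.ncard_union_le S₁ (S₂ : Set (Fin k → ℂ))
          rw [Set.ncard_coe_finset] at h3
          exact_mod_cast h3
      _ ≤ C₁ * (T : ℝ) ^ (((k * Sl.Mm m : ℕ) : ℝ) - c₁) + C₂ * (T : ℝ) ^ (((k * Sl.Mm m : ℕ) : ℝ) - 1) := add_le_add hnn h₂
      _ ≤ C₁ * (T : ℝ) ^ (((k * Sl.Mm m : ℕ) : ℝ) - min c₁ 1) + C₂ * (T : ℝ) ^ (((k * Sl.Mm m : ℕ) : ℝ) - min c₁ 1) :=
          add_le_add (mul_le_mul_of_nonneg_left e1 hC₁) (mul_le_mul_of_nonneg_left e2 hC₂)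
      _ = _ := by ring
  exact hmain.trans (Sl.prop_bound hc₃ (by positivity) hT (hmany T hT))

end

end Pool.Agent.W5h35.IC
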