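import Pool.Agent.Y113.G.Hd

/-!
# Divided derivatives of algebraic power series: integrality
-/

set_option autoImplicit false

open PowerSeries Pool.Agent.Y113 Finset.HasAntidiagonal

namespace Pool.Agent.W5h35.IC

/-- integer polynomials as power series -/
noncomputable def psH : Polynomial ℤ →+* ℚ⟦X⟧ :=
  (Polynomial.coeToPowerSeries.ringHom (R := ℚ)).comp (Polynomial.mapRingHom (Int.castRingHom ℚ))

lemma psH_apply (P : Polynomial ℤ) : psH P = ps P := rfl

/-- evaluation of the bivariate polynomials -/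
noncomputable def evy (y : ℚ⟦X⟧) : Polynomial (Polynomial ℤ) →+* ℚ⟦X⟧ := Polynomial.eval₂RingHom psH y

lemma evy_apply (y : ℚ⟦X⟧) (F : Polynomial (Polynomial ℤ)) : evy y F = F.eval₂ psH y := rfl

/-- the ring `ℤ[x, y]` -/
noncomputable def RR (y : ℚ⟦X⟧) : Subring ℚ⟦X⟧ := (evy y).range

lemma y_mem (y : ℚ⟦X⟧) : y ∈ RR y := ⟨Polynomial.X, by rw [evy_apply, Polynomial.eval₂_X]⟩

lemma ps_mem (y : ℚ⟦X⟧) (p : Polynomial ℤ) : ps p ∈ RR y :=
  ⟨Polynomial.C p, by rw [evy_apply, Polynomial.eval₂_C, psH_apply]⟩

/-- the elements of the ring as polynomials of small degree -/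
theorem RR_expand {y : ℚ⟦X⟧} {P : Polynomial (Polynomial ℤ)} (hP : P.Monic) (hy : evy y P = 0) {z : ℚ⟦X⟧} (hz : z ∈ RR y) :
    ∃ F : Fin P.natDegree → Polynomial ℤ, z = ∑ c, ps (F c) * y ^ (c : ℕ) := by
  obtain ⟨F, rfl⟩ := hz
  have h1 : evy y F = evy y (F %ₘ P) := by
    conv_lhs => rw [← Polynomial.modByMonic_add_div F P]
    rw [map_add, map_mul, hy, zero_mul, add_zero]
  have hP1 : P ≠ 1 := by
    rintro rfl
    rw [map_one] at hy
    exact one_ne_zero hy
  have hdeg : (F %ₘ P).natDegree < P.natDegree := Polynomial.natDegree_modByMonic_lt F hP hP1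
  refine ⟨fun c => (F %ₘ P).coeff c, ?_⟩
  rw [h1, evy_apply, Polynomial.eval₂_eq_sum_range' psH hdeg, Finset.sum_range]
  rfl

section hensel
variable {S : Type} [CommRing S]

lemma pow_coeff (R : Subring S) {V : PowerSeries S} (h0 : coeff 0 V = 0) {s : ℕ} (h : ∀ a < s, coeff a V ∈ R) :
    (∀ j b, b < s → coeff b (V ^ j) ∈ R) ∧ ∀ j, 2 ≤ j → ∀ b ≤ s, coeff b (V ^ j) ∈ R := by
  have h1 : ∀ j b, b < s → coeff b (V ^ j) ∈ R := by
    intro j
    induction j with
    | zero =>
      intro b _
      rw [pow_zero, coeff_one]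
      split_ifs
      · exact R.one_mem
      · exact R.zero_mem
    | succ j ih =>
      intro b hb
      rw [pow_succ, coeff_mul]
      refine R.sum_mem fun p hp => ?_
      rw [Finset.HasAntidiagonal.mem_antidiagonal] at hp
      exact R.mul_mem (ih _ (by omega)) (h _ (by omega))
  refine ⟨h1, fun j hj b hb => ?_⟩
  obtain ⟨j, rfl⟩ : ∃ i, j = i + 2 := ⟨j - 2, by omega⟩
  rw [pow_succ, coeff_mul]
  refine R.sum_mem fun p hp => ?_
  rw [Finset.HasAntidiagonal.mem_antidiagonal] at hp
  rcases Nat.eq_zero_or_pos p.2 with h2 | h2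
  · rw [h2, h0, mul_zero]
    exact R.zero_mem
  rcases Nat.eq_zero_or_pos p.1 with h3 | h3
  · have : coeff 0 (V ^ (j + 1)) = 0 := by
      rw [coeff_zero_eq_constantCoeff_apply, map_pow, ← coeff_zero_eq_constantCoeff_apply, h0, zero_pow (by omega)]
    rw [h3, this, zero_mul]
    exact R.zero_mem
  exact R.mul_mem (h1 _ _ (by omega)) (h _ (by omega))

/-- integrality in the construction of Hensel -/
theorem hensel_int [IsDomain S] (R : Subring S) (Q : Polynomial (PowerSeries S))
    (hQ : ∀ j i, coeff i (Q.coeff j) ∈ R) (W : PowerSeries S) (hW : coeff 0 W = 0) (hev : Q.eval W = 0)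
    {δ U : S} (hδ : δ ≠ 0) (hδR : δ ∈ R) (hUR : U ∈ R) (hU : U * coeff 0 (Q.coeff 1) = δ) (s : ℕ) :
    δ ^ (2 * s) * coeff s W ∈ R := by
  set V : PowerSeries S := PowerSeries.mk fun s => if s = 0 then 0 else δ ^ (2 * s - 1) * coeff s W with hVd
  have hVs : ∀ s, 1 ≤ s → coeff s V = δ ^ (2 * s - 1) * coeff s W := by
    intro s hs
    rw [hVd, coeff_mk, if_neg (by omega)]
  have hV0 : coeff 0 V = 0 := by rw [hVd, coeff_mk, if_pos rfl]
  have hV : rescale (δ ^ 2) W = C δ * V := by
    ext s
    rw [coeff_rescale, coeff_C_mul]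
    rcases Nat.eq_zero_or_pos s with rfl | hs
    · rw [hW, hV0, mul_zero, mul_zero]
    · rw [hVs s hs, ← mul_assoc, ← pow_succ', ← pow_mul]
      congr 2
      omega
  have hsum : ∑ j ∈ Finset.range (Q.natDegree + 2), rescale (δ ^ 2) (Q.coeff j) * (C δ * V) ^ j = 0 := by
    have h1 := congrArg (rescale (δ ^ 2)) hev
    rw [Polynomial.eval_eq_sum_range' (n := Q.natDegree + 2) (by omega), map_sum, map_zero] at h1
    rw [← h1]
    refine Finset.sum_congr rfl fun j _ => ?_
    rw [map_mul, map_pow, hV]
  have key : ∀ s, coeff s V ∈ R := by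
    intro s
    induction s using Nat.strong_induction_on with
    | _ s ih =>
      rcases Nat.eq_zero_or_pos s with rfl | hs
      · rw [hV0]
        exact R.zero_mem
      obtain ⟨hp1, hp2⟩ := pow_coeff R hV0 ih
      have hterm : ∀ j, ∃ r ∈ R, coeff s (rescale (δ ^ 2) (Q.coeff j) * (C δ * V) ^ j) =
          (if j = 1 then δ * coeff 0 (Q.coeff 1) * coeff s V else 0) + δ ^ 2 * r := by
        intro j
        have e1 : coeff s (rescale (δ ^ 2) (Q.coeff j) * (C δ * V) ^ j) =
            ∑ p ∈ antidiagonal s, δ ^ j * ((δ ^ 2) ^ p.1 * coeff p.1 (Q.coeff j) * coeff p.2 (V ^ j)) := by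
          rw [coeff_mul]
          refine Finset.sum_congr rfl fun p _ => ?_
          rw [mul_pow, ← map_pow, coeff_C_mul, coeff_rescale]
          ring
        rw [e1]
        rcases Nat.lt_or_ge j 2 with hj | hj
        · rcases Nat.lt_or_ge j 1 with hj0 | hj1
          · obtain rfl : j = 0 := by omega
            rw [if_neg (by omega)]
            refine ⟨(δ ^ 2) ^ (s - 1) * coeff s (Q.coeff 0), R.mul_mem (R.pow_mem (R.pow_mem hδR _) _) (hQ _ _), ?_⟩
            rw [Finset.sum_eq_single (s, 0)]
            · rw [pow_zero, pow_zero, one_mul, zero_add, coeff_one, if_pos rfl, mul_one, ← mul_assoc, ← pow_succ']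
              congr 2
              omega
            · intro p hp hne
              rw [Finset.HasAntidiagonal.mem_antidiagonal] at hp
              have : p.2 ≠ 0 := by
                intro h2
                apply hne
                refine Prod.ext ?_ h2
                show p.1 = s
                omega
              rw [pow_zero, pow_zero, coeff_one, if_neg this]
              ring
            · intro h
              exfalso
              apply h
              simp
          · obtain rfl : j = 1 := by omega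
            rw [if_pos rfl]
            have h0s : ((0, s) : ℕ × ℕ) ∈ antidiagonal s := by simp
            rw [← Finset.add_sum_erase _ _ h0s]
            refine ⟨∑ p ∈ (antidiagonal s).erase (0, s), δ * (δ ^ 2) ^ (p.1 - 1) * coeff p.1 (Q.coeff 1) * coeff p.2 V, ?_, ?_⟩
            · refine R.sum_mem fun p hp => ?_
              have hp' := Finset.mem_of_mem_erase hp
              have hne := Finset.ne_of_mem_erase hp
              rw [Finset.HasAntidiagonal.mem_antidiagonal] at hp'
              have hp1 : p.1 ≠ 0 := by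
                intro h0
                apply hne
                refine Prod.ext h0 ?_
                show p.2 = s
                omega
              exact R.mul_mem (R.mul_mem (R.mul_mem hδR (R.pow_mem (R.pow_mem hδR _) _)) (hQ _ _)) (ih _ (by omega))
            · rw [Finset.mul_sum]
              congr 1
              · simp only [pow_zero, pow_one, one_mul]
                ring
              · refine Finset.sum_congr rfl fun p hp => ?_
                have hp' := Finset.mem_of_mem_erase hp
                have hne := Finset.ne_of_mem_erase hp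
                rw [Finset.HasAntidiagonal.mem_antidiagonal] at hp'
                have hp1 : p.1 ≠ 0 := by
                  intro h0
                  apply hne
                  refine Prod.ext h0 ?_
                  show p.2 = s
                  omega
                obtain ⟨a, ha⟩ : ∃ a, p.1 = a + 1 := ⟨p.1 - 1, by omega⟩
                rw [ha, Nat.add_sub_cancel, pow_one, pow_one]
                ring
        · rw [if_neg (by omega)]
          refine ⟨∑ p ∈ antidiagonal s, δ ^ (j - 2) * ((δ ^ 2) ^ p.1 * coeff p.1 (Q.coeff j) * coeff p.2 (V ^ j)), ?_, ?_⟩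
          · refine R.sum_mem fun p hp => ?_
            rw [Finset.HasAntidiagonal.mem_antidiagonal] at hp
            exact R.mul_mem (R.pow_mem hδR _) (R.mul_mem (R.mul_mem (R.pow_mem (R.pow_mem hδR _) _) (hQ _ _))
              (hp2 j hj _ (by omega)))
          · rw [zero_add, Finset.mul_sum]
            refine Finset.sum_congr rfl fun p _ => ?_
            obtain ⟨a, ha⟩ : ∃ a, j = a + 2 := ⟨j - 2, by omega⟩
            rw [ha, Nat.add_sub_cancel]
            ring
      choose r hrR hr using hterm
      have h2 := congrArg (coeff s) hsum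
      rw [map_sum, map_zero] at h2
      simp only [hr] at h2
      rw [Finset.sum_add_distrib, Finset.sum_ite_eq' (Finset.range (Q.natDegree + 2)) 1, if_pos (Finset.mem_range.2 (by omega)),
        ← Finset.mul_sum] at h2
      have h3 : δ ^ 2 * (coeff s V + U * ∑ j ∈ Finset.range (Q.natDegree + 2), r j) = 0 := by
        linear_combination U * h2 - δ * coeff s V * hU
      have h4 := (mul_eq_zero.1 h3).resolve_left (pow_ne_zero 2 hδ)
      rw [eq_neg_of_add_eq_zero_left h4]
      exact R.neg_mem (R.mul_mem hUR (R.sum_mem fun j _ => hrR j))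
  rcases Nat.eq_zero_or_pos s with rfl | hs
  · rw [hW, mul_zero]
    exact R.zero_mem
  · have h1 : δ ^ (2 * s) * coeff s W = δ * coeff s V := by
      rw [hVs s hs, ← mul_assoc, ← pow_succ']
      congr 2
      omega
    rw [h1]
    exact R.mul_mem hδR (key s)

end hensel

lemma hd_one (s : ℕ) : hd s (1 : ℚ⟦X⟧) = if s = 0 then 1 else 0 := by
  rcases Nat.eq_zero_or_pos s with rfl | hs
  · rw [hd_zero, if_pos rfl]
  · rw [if_neg (by omega)]
    ext m
    rw [coeff_hd, coeff_one, if_neg (by omega), mul_zero, map_zero]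

/-- the Taylor expansion -/
noncomputable def tay : ℚ⟦X⟧ →+* PowerSeries ℚ⟦X⟧ where
  toFun f := PowerSeries.mk fun s => hd s f
  map_one' := by
    ext s : 1
    rw [coeff_mk, hd_one, coeff_one]
  map_mul' f g := by
    ext s : 1
    rw [coeff_mk, hd_mul, coeff_mul]
    refine Finset.sum_congr rfl fun p _ => ?_
    rw [coeff_mk, coeff_mk]
  map_zero' := by
    ext s : 1
    rw [coeff_mk, hd_map_zero, map_zero]
  map_add' f g := by
    ext s : 1
    rw [coeff_mk, hd_add, map_add, coeff_mk, coeff_mk]

lemma coeff_tay (s : ℕ) (f : ℚ⟦X⟧) : coeff s (tay f) = hd s f := by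
  show coeff s (PowerSeries.mk fun s => hd s f) = _
  rw [coeff_mk]

lemma hd_ps (s : ℕ) (p : Polynomial ℤ) : hd s (ps p) = ps (Polynomial.hasseDeriv s p) := by
  unfold ps
  rw [hd_coe]
  congr 1
  ext m
  simp [Polynomial.hasseDeriv_coeff]

/-- the divided derivatives of `y` -/
theorem hd_y {y : ℚ⟦X⟧} {P : Polynomial (Polynomial ℤ)} (hy : evy y P = 0) {δ U : ℚ⟦X⟧} (hδ : δ ≠ 0) (hδR : δ ∈ RR y)
    (hUR : U ∈ RR y) (hU : U * evy y (Polynomial.derivative P) = δ) (s : ℕ) : δ ^ (2 * s) * hd s y ∈ RR y := by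
  rcases Nat.eq_zero_or_pos s with rfl | hs
  · rw [mul_zero, pow_zero, one_mul, hd_zero]
    exact y_mem y
  set τ : Polynomial ℤ →+* PowerSeries ℚ⟦X⟧ := tay.comp psH with hτ
  have hτc : (constantCoeff (R := ℚ⟦X⟧)).comp τ = psH := by
    refine RingHom.ext fun p => ?_
    rw [RingHom.comp_apply, hτ, RingHom.comp_apply, ← coeff_zero_eq_constantCoeff_apply, coeff_tay, hd_zero]
  have hco : ∀ (F : Polynomial (Polynomial ℤ)) (i : ℕ), coeff i (F.eval₂ τ (C y)) ∈ RR y := by
    intro F i
    rw [Polynomial.eval₂_eq_sum_range, map_sum]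
    refine Subring.sum_mem _ fun k _ => ?_
    rw [← map_pow, coeff_mul_C, hτ, RingHom.comp_apply, coeff_tay, psH_apply, hd_ps]
    exact Subring.mul_mem _ (ps_mem y _) (Subring.pow_mem _ (y_mem y) _)
  have hc0 : ∀ (F : Polynomial (Polynomial ℤ)), coeff 0 (F.eval₂ τ (C y)) = evy y F := by
    intro F
    rw [coeff_zero_eq_constantCoeff_apply, Polynomial.hom_eval₂, hτc, constantCoeff_C, evy_apply]
  have hQc : ∀ j, (Polynomial.taylor (C y) (P.map τ)).coeff j = (Polynomial.hasseDeriv j P).eval₂ τ (C y) := by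
    intro j
    rw [Polynomial.taylor_coeff, ← Polynomial.eval_map]
    congr 1
    ext m : 1
    rw [Polynomial.hasseDeriv_coeff, Polynomial.coeff_map, Polynomial.coeff_map, Polynomial.hasseDeriv_coeff, map_mul,
      map_natCast]
  have h1 := hensel_int (RR y) (Polynomial.taylor (C y) (P.map τ)) (fun j i => by
    rw [hQc]
    exact hco _ _) (tay y - C y) (by
    rw [map_sub, coeff_tay, hd_zero, coeff_zero_C, sub_self]) (by
    rw [Polynomial.taylor_eval, sub_add_cancel, Polynomial.eval_map]
    have := Polynomial.hom_eval₂ P psH tay y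
    rw [← hτ] at this
    rw [← this]
    have h2 : P.eval₂ psH y = 0 := hy
    rw [h2, map_zero]) hδ hδR hUR (by
    rw [hQc, hc0, Polynomial.hasseDeriv_one]
    exact hU) s
  rw [map_sub, coeff_tay, coeff_C, if_neg (by omega), sub_zero] at h1
  exact h1

/-- the elements with integral divided derivatives -/
noncomputable def SS (y δ : ℚ⟦X⟧) (hδ : δ ∈ RR y) : Subring ℚ⟦X⟧ where
  carrier := {z | ∀ s, δ ^ (2 * s) * hd s z ∈ RR y}
  mul_mem' := by
    intro a b ha hb s
    rw [hd_mul, Finset.mul_sum]
    refine Subring.sum_mem _ fun p hp => ?_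
    rw [Finset.HasAntidiagonal.mem_antidiagonal] at hp
    have h1 : δ ^ (2 * s) * (hd p.1 a * hd p.2 b) = (δ ^ (2 * p.1) * hd p.1 a) * (δ ^ (2 * p.2) * hd p.2 b) := by
      rw [← hp, mul_add, pow_add]
      ring
    rw [h1]
    exact Subring.mul_mem _ (ha _) (hb _)
  one_mem' := by
    intro s
    rw [hd_one]
    split_ifs
    · rw [mul_one]
      exact Subring.pow_mem _ hδ _
    · rw [mul_zero]
      exact Subring.zero_mem _
  add_mem' := by
    intro a b ha hb s
    rw [hd_add, mul_add]
    exact Subring.add_mem _ (ha s) (hb s)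
  zero_mem' := by
    intro s
    rw [hd_map_zero, mul_zero]
    exact Subring.zero_mem _
  neg_mem' := by
    intro a ha s
    have h1 : hd s (-a) = - hd s a := by
      ext m
      rw [coeff_hd, map_neg, map_neg, coeff_hd]
      ring
    rw [h1, mul_neg]
    exact Subring.neg_mem _ (ha s)

/-- all elements of `ℤ[x, y]` have integral divided derivatives -/
theorem RR_le {y : ℚ⟦X⟧} {P : Polynomial (Polynomial ℤ)} (hy : evy y P = 0) {δ U : ℚ⟦X⟧} (hδ : δ ≠ 0) (hδR : δ ∈ RR y)
    (hUR : U ∈ RR y) (hU : U * evy y (Polynomial.derivative P) = δ) {z : ℚ⟦X⟧} (hz : z ∈ RR y) (s : ℕ) :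
    δ ^ (2 * s) * hd s z ∈ RR y := by
  obtain ⟨F, rfl⟩ := hz
  have h1 : evy y F ∈ SS y δ hδR := by
    rw [evy_apply, Polynomial.eval₂_eq_sum_range]
    refine Subring.sum_mem _ fun k _ => Subring.mul_mem _ ?_ (Subring.pow_mem _ ?_ _)
    · intro s
      rw [psH_apply, hd_ps]
      exact Subring.mul_mem _ (Subring.pow_mem _ hδR _) (ps_mem y _)
    · intro s
      exact hd_y hy hδ hδR hUR hU s
  exact h1 s

end Pool.Agent.W5h35.IC
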