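import Pool.Agent.W5h35.IC.Val

/-!
# The arithmetic conditions for a curve
-/

set_option autoImplicit false

open PowerSeries Pool.Agent.Y113 Pool.Agent.Y120.GF Pool.Agent.Y120.GH

namespace Pool.Agent.W5h35.IC

lemma psH_inj : Function.Injective psH := by
  intro p q h
  have h1 : ((p.map (Int.castRingHom ℚ) : Polynomial ℚ) : ℚ⟦X⟧) = ((q.map (Int.castRingHom ℚ) : Polynomial ℚ) : ℚ⟦X⟧) := h
  exact Polynomial.map_injective _ (Int.castRingHom ℚ).injective_int (Polynomial.coe_injective ℚ h1)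

lemma dvd_of_root {A S : Type} [CommRing A] [IsDomain A] [IsIntegrallyClosed A] [CommRing S] [IsDomain S] (φ : A →+* S)
    (hφ : Function.Injective φ) {P F : Polynomial A} (hP : P.Monic) (hirr : Irreducible P) {y : S} (hy : P.eval₂ φ y = 0)
    (hF : F.eval₂ φ y = 0) : P ∣ F := by
  let _ : Algebra A S := φ.toAlgebra
  have : Module.IsTorsionFree A S := by
    refine Module.isTorsionFree_iff_algebraMap_injective.2 hφ
  have hint : IsIntegral A y := ⟨P, hP, hy⟩
  have h1 : minpoly A y ∣ P := minpoly.isIntegrallyClosed_dvd hint hy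
  have h2 : minpoly A y ∣ F := minpoly.isIntegrallyClosed_dvd hint hF
  obtain ⟨q, hq⟩ := h1
  have h3 : ¬ IsUnit (minpoly A y) := minpoly.not_isUnit A y
  have h4 : IsUnit q := (hirr.isUnit_or_isUnit hq).resolve_left h3
  obtain ⟨u, hu⟩ := h4
  refine dvd_trans ⟨(↑u⁻¹ : Polynomial A), ?_⟩ h2
  rw [hq, ← hu, mul_assoc, Units.mul_inv, mul_one]

lemma clear_den {n : ℕ} (F : Fin n → Polynomial ℚ) : ∃ (N : ℤ) (G : Fin n → Polynomial ℤ), N ≠ 0 ∧
    ∀ c, (G c).map (Int.castRingHom ℚ) = Polynomial.C (N : ℚ) * F c := by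
  classical
  choose b G hb hG using fun c => clear_one (F c)
  refine ⟨∏ c, b c, fun c => Polynomial.C (∏ i ∈ Finset.univ.erase c, b i) * G c, Finset.prod_ne_zero_iff.2 fun c _ => hb c,
    fun c => ?_⟩
  rw [Polynomial.map_mul, hG, Polynomial.map_C, ← mul_assoc, ← Polynomial.C_mul, ← Finset.mul_prod_erase _ _ (Finset.mem_univ c)]
  congr 2
  push_cast
  rw [mul_comm]
  simp

theorem pow_indep {y : ℚ⟦X⟧} {P : Polynomial (Polynomial ℤ)} (hP : P.Monic) (hirr : Irreducible P) (hy : evy y P = 0) :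
    LinearIndependent (Polynomial ℚ) (fun c : Fin P.natDegree => y ^ (c : ℕ)) := by
  classical
  rw [Fintype.linearIndependent_iff]
  intro F hF c
  obtain ⟨N, G, hN, hG⟩ := clear_den F
  set Q : Polynomial (Polynomial ℤ) := ∑ c : Fin P.natDegree, Polynomial.C (G c) * Polynomial.X ^ (c : ℕ) with hQ
  have hQy : Q.eval₂ psH y = 0 := by
    rw [hQ, Polynomial.eval₂_finsetSum]
    have h1 : ∀ c : Fin P.natDegree, (Polynomial.C (G c) * Polynomial.X ^ (c : ℕ)).eval₂ psH y =
        PowerSeries.C (N : ℚ) * (F c • y ^ (c : ℕ)) := by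
      intro c
      rw [Polynomial.eval₂_mul, Polynomial.eval₂_C, Polynomial.eval₂_X_pow, psH_apply, ps, hG, Polynomial.coe_mul,
        Polynomial.coe_C, Algebra.smul_def, mul_assoc]
      rfl
    rw [Finset.sum_congr rfl fun c _ => h1 c, ← Finset.mul_sum, hF, mul_zero]
  have hdvd := dvd_of_root psH psH_inj hP hirr hy hQy
  have hQc : ∀ c : Fin P.natDegree, Q.coeff (c : ℕ) = G c := by
    intro c
    rw [hQ, Polynomial.finsetSum_coeff, Finset.sum_eq_single c]
    · rw [Polynomial.coeff_C_mul, Polynomial.coeff_X_pow_self, mul_one]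
    · intro b _ hb
      rw [Polynomial.coeff_C_mul, Polynomial.coeff_X_pow, if_neg (fun h => hb (Fin.ext h.symm)), mul_zero]
    · intro h
      exact absurd (Finset.mem_univ _) h
  have hQ0 : Q = 0 := by
    by_contra hne
    have h1 := Polynomial.natDegree_le_of_dvd hdvd hne
    have h2 : Q.natDegree < P.natDegree := by
      rw [Polynomial.natDegree_lt_iff_degree_lt hne]
      refine (Polynomial.degree_sum_le _ _).trans_lt ?_
      rw [Finset.sup_lt_iff (WithBot.bot_lt_coe _)]
      intro c _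
      exact (Polynomial.degree_C_mul_X_pow_le _ _).trans_lt (by exact_mod_cast c.2)
    omega
  have h3 : G c = 0 := by
    rw [← hQc c, hQ0, Polynomial.coeff_zero]
  have h4 := hG c
  rw [h3, Polynomial.map_zero] at h4
  refine (mul_eq_zero.1 h4.symm).resolve_left fun h5 => ?_
  rw [Polynomial.C_eq_zero] at h5
  exact hN (by exact_mod_cast h5)

/-- evaluation at `x = 0` -/
noncomputable def at0 : Polynomial ℤ →+* ℚ := (Int.castRingHom ℚ).comp (Polynomial.evalRingHom 0)

lemma at0_apply (p : Polynomial ℤ) : at0 p = (p.coeff 0 : ℤ) := by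
  show ((p.eval 0 : ℤ) : ℚ) = _
  rw [Polynomial.coeff_zero_eq_eval_zero]

/-- the discriminant -/
theorem exists_disc {P : Polynomial (Polynomial ℤ)} (hP : P.Monic) (h1 : P ≠ 1) (hsep : (P.map at0).Separable) :
    ∃ (U V : Polynomial (Polynomial ℤ)) (Δ : Polynomial ℤ), Δ.coeff 0 ≠ 0 ∧
      P * U + Polynomial.derivative P * V = Polynomial.C Δ := by
  have hn : 0 < P.natDegree := by
    rcases Nat.eq_zero_or_pos P.natDegree with h0 | h0
    · exact absurd (Polynomial.eq_one_of_monic_natDegree_zero hP h0) h1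
    · exact h0
  have hPm : (P.map at0).Monic := hP.map _
  have hdm : (P.map at0).natDegree = P.natDegree := hP.natDegree_map _
  have hder : (Polynomial.derivative P).natDegree ≤ P.natDegree - 1 := Polynomial.natDegree_derivative_le P
  have hderm : (Polynomial.derivative (P.map at0)).natDegree = P.natDegree - 1 := by
    rw [Polynomial.natDegree_derivative, hdm]
  obtain ⟨U, V, -, -, hUV⟩ := Polynomial.exists_mul_add_mul_eq_C_resultant (m := P.natDegree) (n := P.natDegree - 1) P (Polynomial.derivative P) le_rfl hder (Or.inl hn.ne')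
  refine ⟨U, V, _, ?_, hUV⟩
  intro h0
  have h2 : at0 (Polynomial.resultant P (Polynomial.derivative P) P.natDegree (P.natDegree - 1)) = 0 := by
    rw [at0_apply, h0, Int.cast_zero]
  rw [← Polynomial.resultant_map_map, ← Polynomial.derivative_map] at h2
  have h3 := Polynomial.resultant_ne_zero (P.map at0) (Polynomial.derivative (P.map at0)) hsep
  rw [hdm, hderm] at h3
  exact h3 h2

theorem dat_of {σ : Type} {y : ℚ⟦X⟧} {P : Polynomial (Polynomial ℤ)} (hP : P.Monic) (hy : evy y P = 0)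
    (hsep : (P.map at0).Separable) {g : Polynomial ℤ} (hg : g.coeff 0 ≠ 0) {ω : σ → ℚ⟦X⟧} (hω : ∀ j, ps g * ω j ∈ RR y) :
    ∃ Δ : Polynomial ℤ, (TT g Δ).coeff 0 ≠ 0 ∧ Dat y g Δ ω := by
  have hP1 : P ≠ 1 := by
    rintro rfl
    rw [map_one] at hy
    exact one_ne_zero hy
  obtain ⟨U, V, Δ, hΔ, hUV⟩ := exists_disc hP hP1 hsep
  have hΔ0 : Δ ≠ 0 := by
    rintro rfl
    exact hΔ (Polynomial.coeff_zero 0)
  refine ⟨Δ, ?_, ⟨fun z hz s => ?_, hω, ?_⟩⟩
  · rw [TT, Polynomial.mul_coeff_zero, pow_two, Polynomial.mul_coeff_zero]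
    exact mul_ne_zero hg (mul_ne_zero hΔ hΔ)
  · refine RR_le hy (ps_ne hΔ0) (ps_mem y Δ) (U := evy y V) ⟨V, rfl⟩ ?_ hz s
    have h1 := congrArg (evy y) hUV
    rw [map_add, map_mul, map_mul, hy, zero_mul, zero_add] at h1
    rw [mul_comm, h1, evy_apply, Polynomial.eval₂_C, psH_apply]
  · have h1 : (P.map (Polynomial.evalRingHom (0 : ℤ))).Monic := hP.map _
    have h2 : Polynomial.aeval (constantCoeff y) (P.map (Polynomial.evalRingHom (0 : ℤ))) = 0 := by
      have h3 := congrArg (constantCoeff (R := ℚ)) hy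
      rw [evy_apply, Polynomial.hom_eval₂, map_zero] at h3
      rw [Polynomial.aeval_def, Polynomial.eval₂_map, ← h3]
      congr 1
      refine RingHom.ext fun p => ?_
      rw [RingHom.comp_apply, RingHom.comp_apply, psH_apply, const_ps, Polynomial.coeff_zero_eq_eval_zero]
      rfl
    obtain ⟨a, ha⟩ := isInteger_of_is_root_of_monic h1 h2
    exact ⟨a, ha.symm⟩

end Pool.Agent.W5h35.IC
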