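import Pool.Agent.W5h35.IC.Ode

/-!
# Values of a linearly independent G-system with an ordinary point at zero: windows and intervals
-/

set_option autoImplicit false

open PowerSeries Pool.Agent.Y113 Pool.Agent.Y120.GF Pool.Agent.Y120.GH

namespace Pool.Agent.W5h35.IC

/-- few bad integers in short windows -/
def Win {σ : Type} [Fintype σ] (X : ℕ → σ → ℂ) : Prop := ∀ D : ℕ, ∃ E M : ℕ, ∀ H t : ℕ, (H + 2) ^ E ≤ t →
  ∀ (V : Submodule ℚ ℂ) [Module.Finite ℚ V], Module.finrank ℚ V ≤ D →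
  ∀ S : Finset ℕ, (∀ g ∈ S, g ≤ H ∧ Bad V (X (t - g))) → S.card ≤ M

theorem Win.one {σ : Type} [Fintype σ] {X : ℕ → σ → ℂ} (h : Win X) : One X := by
  intro D
  obtain ⟨E, M, hE⟩ := h D
  refine ⟨1 / (2 * ((max E 1 : ℕ) : ℝ)), 8 + 4 * M, by positivity, by positivity, ?_⟩
  intro V _ hV x N hN S hS
  refine count_one (fun t => Bad V (X t)) M (max E 1) (by omega) ?_ x N hN S hS
  intro H t hHt S' hS'
  have h1 : (H + 2) ^ E ≤ t := (Nat.pow_le_pow_right (by omega) (by omega)).trans hHt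
  exact hE H t h1 V hV S' fun g hg => ⟨(hS' g hg).2.1, (hS' g hg).2.2⟩

theorem win_family {κ : Type} [Fintype κ] {q : ℕ} {C : ℝ} {T : Polynomial ℤ} {y : κ → ℚ⟦X⟧} (hG : GSys q C T y)
    (hT : T ≠ 0) (β₀ : κ) (hβ₀ : y β₀ = 1) (n R : ℕ)
    (hli : ∀ (k : ℕ) (g : Fin k → ℕ), SepR R g →
      LinearIndependent (Polynomial ℚ) (fun b : Fin k → κ × Fin (n + 1) => ∏ l, Fg (n + 1) y (g l) (b l))) :
    Win (XF n y) := by
  obtain ⟨q₀, E₀, hsys⟩ := gsys_Fg hG n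
  obtain ⟨c, hc⟩ := Tg_ne hT hG.degT
  obtain ⟨C', hC'⟩ := exists_nat_ge C
  set R' : ℕ := R + c + C' + 1 with hR'
  have hF : FamR R' (Fg (n + 1) y) (Pool.Agent.Y120.GH.Tg q T) q₀ E₀ (β₀, (0 : Fin (n + 1))) := by
    refine ⟨by omega, fun g => ?_, hsys, fun g t h => hc g t (by omega), fun k g hg => hli k g ⟨fun l => ?_, fun l l' hl => ?_⟩⟩
    · show sf g (y β₀) * yQ g ((0 : Fin (n + 1)) : ℕ) = 1
      rw [hβ₀]
      have h1 : sf g 1 = 1 := by
        have := sf_nat g 1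
        simpa using this
      rw [h1, one_mul]
      exact yQ_nil g
    · have := hg.1 l
      omega
    · have := hg.2 l l' hl
      omega
  intro D
  obtain ⟨E, hE⟩ := winR hF ((n + 1) * D)
  refine ⟨E + (R' + 1), R' * ((n + 1) * D + 1), fun H t hHt V _ hV S' hS' => ?_⟩
  have h1 : (H + 2) ^ E ≤ t := (Nat.pow_le_pow_right (by omega) (by omega)).trans hHt
  have hHt' : H + R' < t := by
    have h1 : (H + 2) ^ (R' + 1) ≤ t := (Nat.pow_le_pow_right (by omega) (by omega)).trans hHt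
    have h2 : R' < 2 ^ R' := Nat.lt_two_pow_self
    have h3 : 2 ^ R' ≤ (H + 2) ^ R' := Nat.pow_le_pow_left (by omega) _
    have h4 : (R' + 1) * (H + 2) ≤ (H + 2) ^ (R' + 1) := by
      rw [pow_succ]
      exact Nat.mul_le_mul_right _ (by omega)
    have h5 : H + R' < (R' + 1) * (H + 2) := by nlinarith
    omega
  refine hE H t h1 (Ext V fun i : Fin (n + 1) => (((Real.log t : ℝ) : ℂ)) ^ (i : ℕ))
    ((finrank_Ext V _).trans ?_) S' fun g hg => ?_
  · rw [Fintype.card_fin]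
    exact Nat.mul_le_mul_left _ hV
  · obtain ⟨g2, g3⟩ := hS' g hg
    refine ⟨g2, bad_shiftR hG.one_le hG.size ?_ g3⟩
    have h2 : g + C' < t := by omega
    have h3 : ((g : ℝ) + C') < t := by exact_mod_cast h2
    linarith

/-- the sizes of the coefficients -/
theorem size_ord {ι : Type} [Fintype ι] {y : ι → ℚ⟦X⟧} {T : Polynomial ℤ} {A : ι → ι → Polynomial ℤ}
    (hT : T.coeff 0 ≠ 0) (hode : ∀ i, ps T * d⁄dX ℚ (y i) = ∑ j, ps (A i j) * y j) :
    ∃ C : ℝ, 1 ≤ C ∧ ∀ i m, |((coeff m (y i) : ℚ) : ℝ)| ≤ C ^ (m + 1) := by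
  have hT0 : (T.map (Int.castRingHom ℂ)).coeff 0 ≠ 0 := by
    rw [Polynomial.coeff_map, eq_intCast]
    intro h
    apply hT
    exact_mod_cast h
  obtain ⟨K, hK1, hK⟩ := growth (A := fun i j => (A i j).map (Int.castRingHom ℂ)) (Y := fun i => cx (y i)) hT0 (by
    intro i
    have h1 := congrArg cx (hode i)
    rw [map_mul, map_sum, cx_der, cx_ps] at h1
    rw [h1]
    refine Finset.sum_congr rfl fun j _ => ?_
    rw [map_mul, cx_ps])
  refine ⟨K, hK1, fun i m => ?_⟩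
  have h1 := hK i m
  rw [coeff_cx] at h1
  have h2 : ‖((coeff m (y i) : ℚ) : ℂ)‖ = |((coeff m (y i) : ℚ) : ℝ)| := by
    rw [← Complex.ofReal_ratCast, Complex.norm_real, Real.norm_eq_abs]
  rw [← h2]
  exact h1

theorem fam_lin {ι : Type} [Fintype ι] [DecidableEq ι] {y : ι → ℚ⟦X⟧} {T : Polynomial ℤ} {A : ι → ι → Polynomial ℤ}
    (hT : T.coeff 0 ≠ 0)
    (hode : ∀ i, ps T * d⁄dX ℚ (y i) = ∑ j, ps (A i j) * y j)
    (hden : ∃ C : ℝ, ∀ m, ∃ d : ℕ, 0 < d ∧ (d : ℝ) ≤ C ^ (m + 1) ∧ ∀ i, ∀ j ≤ m, ∃ a : ℤ, (d : ℚ) * coeff j (y i) = a)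
    (hgal : ∃ C : ℝ, ∀ m, ∃ d : ℕ, 0 < d ∧ (d : ℝ) ≤ C ^ (m + 1) ∧ ∀ s ≤ m, ∀ i j, ∃ H : Polynomial ℤ,
      (d : Polynomial ℤ) * itm T A s i j = (s.factorial : Polynomial ℤ) * H)
    (β₀ : ι) (hβ₀ : y β₀ = 1) (hLI : LinearIndependent (Polynomial ℚ) y) (n : ℕ) : Win (XF n y) := by
  classical
  have hTne : T ≠ 0 := by
    rintro rfl
    exact hT (Polynomial.coeff_zero 0)
  obtain ⟨Cs, hCs1, hCs⟩ := size_ord hT hode
  obtain ⟨q, C, hG⟩ := gsys_of hode ⟨Cs, hCs⟩ hden hgal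
  have hqu : QU0 T A := qu_ord hT
  obtain ⟨e, he, M₀, K, Φ, hΦc, hΦe, hΦd⟩ := hqu
  -- the radii
  set τ : ℝ := |K| + C + 1 with hτd
  have hC1 := hG.one_le
  have hτ1 : 1 ≤ τ := by
    have := abs_nonneg K
    linarith
  have hτ0 : 0 < τ := by linarith
  have hτe : τ ≤ τ ^ e := le_self_pow₀ hτ1 he
  set τ' : ℝ := τ + 1 with hτ'd
  have hmem : ∀ i, cx (y i) ∈ Cw (τ ^ e) := fun i =>
    Cw_mono (by
      have := abs_nonneg K
      linarith) (cx_mem (by linarith) (hG.size i))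
  set Tc : Polynomial ℂ := T.map (Int.castRingHom ℂ) with hTc
  set Ac : ι → ι → Polynomial ℂ := fun i j => (A i j).map (Int.castRingHom ℂ) with hAc
  have hTc0 : Tc ≠ 0 := (Polynomial.map_ne_zero_iff (Int.castRingHom ℂ).injective_int).2 hTne
  have hQU : QU he τ Tc Ac := ⟨M₀, Φ, fun i j k => mem_Cw_of_bound (by
    have := abs_nonneg K
    linarith) (hΦc i j k), hΦe, hΦd⟩
  have hodeC : ∀ i, (Tc : PowerSeries ℂ) * PowerSeries.derivative ℂ (cx (y i)) = ∑ j, (Ac i j : PowerSeries ℂ) * cx (y j) := by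
    intro i
    have h1 := congrArg cx (hode i)
    rw [map_mul, map_sum, cx_der, cx_ps] at h1
    rw [h1]
    refine Finset.sum_congr rfl fun j _ => ?_
    rw [map_mul, cx_ps]
  have hdisc0 : Disc (τ ^ e) (τ' ^ e) fun b : (Set.univ : Set ι) => cx (y b.1) :=
    disc_of_qu he hτ0 (by linarith) (fun b => cx (y b)) hmem Tc hTc0 _ hodeC hQU Set.univ (by
      intro G hG
      refine li_cx (κ := (Set.univ : Set ι)) ?_ G hG
      exact hLI.comp _ Subtype.val_injective)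
  have hdisc : Disc (τ ^ e) (τ' ^ e) fun b : ι => cx (y b) := by
    intro p hp hp' hpim c hc hrel i
    refine hdisc0 p hp hp' hpim (fun b => c b.1) (fun b => hc b.1) ?_ ⟨i, Set.mem_univ i⟩
    filter_upwards [hrel] with z hz
    rw [← hz]
    exact Fintype.sum_equiv (Equiv.Set.univ ι) _ _ fun b => rfl
  have hρρ : τ ^ e < τ' ^ e := pow_lt_pow_left₀ (by linarith) hτ0.le he
  obtain ⟨R, hR⟩ := exists_nat_gt (τ ^ e + τ' ^ e)
  refine win_family hG hTne β₀ hβ₀ n R fun k g hg => ?_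
  obtain ⟨E, hE⟩ := gsys_shift hG
  refine li_shift (ρ := τ ^ e) (ρ' := τ' ^ e) (C := C) (y := y) (by positivity) hρρ
    (by linarith) hmem hdisc hG.size (fun g => ⟨((g : ℝ) + 2) ^ E, by positivity,
      (hE g).size⟩) hR (n + 1) k g (fun l => by exact_mod_cast hg.1 l) fun l l' hl => ?_
  rcases hg.2 l l' hl with h1 | h1
  · have h2 : (g l : ℝ) + R ≤ g l' := by exact_mod_cast h1
    rw [abs_sub_comm]
    exact le_trans (by linarith) (le_abs_self _)
  · have h2 : (g l' : ℝ) + R ≤ g l := by exact_mod_cast h1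
    exact le_trans (by linarith) (le_abs_self _)

end Pool.Agent.W5h35.IC
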