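import Pool.Agent.W5h35.IC.Iter
import Pool.Agent.Y119.ML.LI
import Pool.Agent.Y119.ML.Frac

/-!
# Linear independence of iterated integrals over the function field of a curve
-/

set_option autoImplicit false

open PowerSeries Pool.Agent.Y113 Pool.Agent.Y119.ML
open Pool.Agent.W924.LF (eul coeff_eul)

namespace Pool.Agent.W5h35.IC

attribute [-instance] HahnSeries.powerSeriesAlgebra

/-- the function field of the curve inside the field of Laurent series -/
noncomputable def KY (y : ℚ⟦X⟧) : Subfield FF := Subfield.closure (Set.range pio ∪ {io y})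

lemma io_ps (p : Polynomial ℤ) : io (ps p) = pio (p.map (Int.castRingHom ℚ)) := rfl

lemma pio_mem' (y : ℚ⟦X⟧) (p : Polynomial ℚ) : pio p ∈ KY y := Subfield.subset_closure (Or.inl ⟨p, rfl⟩)

lemma io_y_mem (y : ℚ⟦X⟧) : io y ∈ KY y := Subfield.subset_closure (Or.inr rfl)

lemma io_X_mem (y : ℚ⟦X⟧) : io X ∈ KY y := by
  have : io X = pio Polynomial.X := by rw [pio_apply, Polynomial.coe_X]
  rw [this]
  exact pio_mem' y _

lemma io_RR_mem {y z : ℚ⟦X⟧} (hz : z ∈ RR y) : io z ∈ KY y := by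
  obtain ⟨F, rfl⟩ := hz
  rw [evy_apply, Polynomial.eval₂_eq_sum_range, map_sum]
  refine sum_mem fun k _ => ?_
  rw [map_mul, map_pow]
  exact mul_mem (pio_mem' y _) (pow_mem (io_y_mem y) _)

lemma io_ne {f : ℚ⟦X⟧} (h : f ≠ 0) : io f ≠ 0 := fun h0 => h (io_inj (by rw [h0, map_zero]))

lemma ps_ne {p : Polynomial ℤ} (h : p ≠ 0) : ps p ≠ 0 := by
  intro h0
  apply h
  have h1 : ((p.map (Int.castRingHom ℚ) : Polynomial ℚ) : ℚ⟦X⟧) = ((0 : Polynomial ℚ) : ℚ⟦X⟧) := by
    rw [Polynomial.coe_zero]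
    exact h0
  exact (Polynomial.map_eq_zero_iff (Int.castRingHom ℚ).injective_int).1 (Polynomial.coe_injective ℚ h1)

lemma io_mem_of_mul {y z : ℚ⟦X⟧} {p : Polynomial ℤ} (hp : p ≠ 0) (h : ps p * z ∈ RR y) : io z ∈ KY y := by
  have h1 : io z = io (ps p * z) / io (ps p) := by
    rw [map_mul, mul_div_cancel_left₀ _ (io_ne (ps_ne hp))]
  rw [h1]
  exact div_mem (io_RR_mem h) (io_RR_mem (ps_mem y p))

lemma clear_one (p : Polynomial ℚ) : ∃ (b : ℤ) (G : Polynomial ℤ), b ≠ 0 ∧
    G.map (Int.castRingHom ℚ) = Polynomial.C (b : ℚ) * p := by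
  obtain ⟨b, hbM, hb⟩ := IsLocalization.integerNormalization_spec (nonZeroDivisors ℤ) p
  refine ⟨b, IsLocalization.integerNormalization (nonZeroDivisors ℤ) p, nonZeroDivisors.ne_zero hbM, ?_⟩
  refine Eq.trans hb ?_
  ext m
  rw [Polynomial.coeff_C_mul, Polynomial.coeff_smul]
  simp

/-- the elements of the form `F(x, y) / Q(x)` -/
lemma inv_rep {y r : ℚ⟦X⟧} {P : Polynomial (Polynomial ℤ)} (hP : P.Monic) (hy : evy y P = 0) (hr : r ∈ RR y) (hr0 : r ≠ 0) :
    ∃ (a : Polynomial ℤ) (r' : ℚ⟦X⟧), a ≠ 0 ∧ r' ∈ RR y ∧ r * r' = ps a := by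
  let φ : Polynomial ℤ →+* RR y := RingHom.codRestrict psH (RR y) fun p => ps_mem y p
  let _ : Algebra (Polynomial ℤ) (RR y) := φ.toAlgebra
  have hy1 : IsIntegral (Polynomial ℤ) (⟨y, y_mem y⟩ : RR y) := by
    refine ⟨P, hP, ?_⟩
    apply Subtype.val_injective
    have h1 := Polynomial.hom_eval₂ P φ (RR y).subtype (⟨y, y_mem y⟩ : RR y)
    refine h1.trans ?_
    exact hy
  have hint : ∀ z (hz : z ∈ RR y), IsIntegral (Polynomial ℤ) (⟨z, hz⟩ : RR y) := by
    rintro z ⟨F, rfl⟩
    have h1 : (⟨evy y F, ⟨F, rfl⟩⟩ : RR y) = F.eval₂ (algebraMap (Polynomial ℤ) (RR y)) (⟨y, y_mem y⟩ : RR y) := by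
      apply Subtype.val_injective
      have h2 := Polynomial.hom_eval₂ F φ (RR y).subtype (⟨y, y_mem y⟩ : RR y)
      exact h2.symm
    rw [h1, Polynomial.eval₂_eq_sum_range]
    exact IsIntegral.sum _ fun k _ => (isIntegral_algebraMap).mul (hy1.pow _)
  have hne : (⟨r, hr⟩ : RR y) ∈ nonZeroDivisors (RR y) := by
    refine mem_nonZeroDivisors_of_ne_zero fun h => hr0 ?_
    exact congrArg Subtype.val h
  obtain ⟨a, ha0, ⟨r', hr'⟩⟩ := IsAlgebraic.exists_nonzero_dvd (hint r hr).isAlgebraic hne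
  refine ⟨a, r', ha0, r'.2, ?_⟩
  exact (congrArg Subtype.val hr').symm

lemma rep_of_mem {y : ℚ⟦X⟧} {P : Polynomial (Polynomial ℤ)} (hP : P.Monic) (hy : evy y P = 0) {x : FF} (hx : x ∈ KY y) :
    ∃ (Q : Polynomial ℤ) (r : ℚ⟦X⟧), Q ≠ 0 ∧ r ∈ RR y ∧ io (ps Q) * x = io r := by
  have hps : ∀ a b : Polynomial ℤ, ps (a * b) = ps a * ps b := fun a b => by rw [← psH_apply, map_mul]; rfl
  induction hx using Subfield.closure_induction with
  | mem x hx =>
    rcases hx with ⟨p, rfl⟩ | hx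
    · obtain ⟨b, G, hb, hG⟩ := clear_one p
      refine ⟨Polynomial.C b, ps G, ?_, ps_mem _ _, ?_⟩
      · rw [Ne, Polynomial.C_eq_zero]
        exact hb
      · rw [io_ps, io_ps, hG, map_mul, Polynomial.map_C]
        rfl
    · rw [Set.mem_singleton_iff] at hx
      refine ⟨1, y, one_ne_zero, y_mem y, ?_⟩
      rw [hx]
      have : ps (1 : Polynomial ℤ) = 1 := by rw [← psH_apply, map_one]
      rw [this, map_one, one_mul]
  | one =>
    refine ⟨1, 1, one_ne_zero, Subring.one_mem _, ?_⟩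
    have : ps (1 : Polynomial ℤ) = 1 := by rw [← psH_apply, map_one]
    rw [this]
    simp
  | add a b _ _ ha hb =>
    obtain ⟨Q, r, hQ, hr, h⟩ := ha
    obtain ⟨Q', r', hQ', hr', h'⟩ := hb
    refine ⟨Q * Q', ps Q' * r + ps Q * r', mul_ne_zero hQ hQ', Subring.add_mem _ (Subring.mul_mem _ (ps_mem _ _) hr)
      (Subring.mul_mem _ (ps_mem _ _) hr'), ?_⟩
    rw [hps, map_mul, map_add, map_mul, map_mul]
    linear_combination io (ps Q') * h + io (ps Q) * h'
  | neg a _ ha =>
    obtain ⟨Q, r, hQ, hr, h⟩ := ha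
    refine ⟨Q, -r, hQ, Subring.neg_mem _ hr, ?_⟩
    rw [mul_neg, h, map_neg]
  | inv a _ ha =>
    obtain ⟨Q, r, hQ, hr, h⟩ := ha
    rcases eq_or_ne a 0 with rfl | ha0
    · refine ⟨1, 0, one_ne_zero, Subring.zero_mem _, ?_⟩
      simp
    · have hr0 : r ≠ 0 := by
        rintro rfl
        rw [map_zero] at h
        rcases mul_eq_zero.1 h with h1 | h1
        · exact io_ne (ps_ne hQ) h1
        · exact ha0 h1
      obtain ⟨c, r', hc, hr', hrr⟩ := inv_rep hP hy hr hr0
      refine ⟨c, ps Q * r', hc, Subring.mul_mem _ (ps_mem _ _) hr', ?_⟩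
      rw [← hrr, map_mul, map_mul, ← h]
      field_simp
  | mul a b _ _ ha hb =>
    obtain ⟨Q, r, hQ, hr, h⟩ := ha
    obtain ⟨Q', r', hQ', hr', h'⟩ := hb
    refine ⟨Q * Q', r * r', mul_ne_zero hQ hQ', Subring.mul_mem _ hr hr', ?_⟩
    rw [hps, map_mul, map_mul, ← h, ← h']
    ring

section
variable {σ : Type} {y : ℚ⟦X⟧} {g Δ : Polynomial ℤ} {ω : σ → ℚ⟦X⟧}

lemma eul_mem_KY (h : Dat y g Δ ω) (hΔ : Δ ≠ 0) {x : FF} (hx : x ∈ KY y) : eul x ∈ KY y := by
  refine Subfield.closure_induction (p := fun x _ => eul x ∈ KY y) ?_ ?_ ?_ ?_ ?_ ?_ hx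
  · rintro x (⟨p, rfl⟩ | hx)
    · rw [eul_pio]
      exact pio_mem' y _
    · rw [Set.mem_singleton_iff] at hx
      rw [hx, eul_io, map_mul]
      refine mul_mem (io_X_mem y) ?_
      have h1 := h.int y (y_mem y) 1
      rw [hd_one_eq, mul_one] at h1
      refine io_mem_of_mul (p := Δ ^ 2) (pow_ne_zero 2 hΔ) ?_
      rw [← psH_apply, map_pow]
      exact h1
  · rw [Derivation.map_one_eq_zero]
    exact zero_mem _
  · intro a b _ _ ha hb
    rw [map_add]
    exact add_mem ha hb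
  · intro a _ ha
    rw [map_neg]
    exact neg_mem ha
  · intro a ha' ha
    rw [Derivation.leibniz_inv, smul_eq_mul]
    exact mul_mem (neg_mem (pow_mem (inv_mem ha') 2)) ha
  · intro a b ha' hb' ha hb
    rw [Derivation.leibniz, smul_eq_mul, smul_eq_mul]
    exact add_mem (mul_mem ha' hb) (mul_mem hb' ha)

lemma const_of_eul {c : FF} (hc : eul c = 0) : c = io (PowerSeries.C (c.coeff 0)) := by
  ext n
  have h1 := congrArg (fun x : FF => x.coeff n) hc
  simp only [coeff_eul, HahnSeries.coeff_zero, mul_eq_zero, Int.cast_eq_zero] at h1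
  rcases lt_or_ge n 0 with hn | hn
  · rw [coeff_io_neg _ hn]
    rcases h1 with h1 | h1
    · omega
    · exact h1
  · obtain ⟨m, rfl⟩ : ∃ m : ℕ, n = (m : ℤ) := ⟨n.toNat, by omega⟩
    rw [coeff_io, PowerSeries.coeff_C]
    split_ifs with hm
    · rw [hm]; rfl
    · rcases h1 with h1 | h1
      · exact absurd (by exact_mod_cast h1) hm
      · exact h1

/-- the forms are independent modulo exact forms -/
theorem hprim_of [Fintype σ] {P : Polynomial (Polynomial ℤ)} (hP : P.Monic) (hy : evy y P = 0)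
    (hex : ∀ (c : σ → ℚ) (Q : Polynomial ℤ) (f : ℚ⟦X⟧), Q ≠ 0 → ps Q * f ∈ RR y →
      d⁄dX ℚ f = ∑ j, PowerSeries.C (c j) * ω j → c = 0)
    (c : σ → FF) (x : FF) (hc : ∀ i, eul (c i) = 0) (hx : x ∈ KY y) (h : eul x = ∑ i, c i * io (X * ω i)) (i : σ) :
    c i = 0 := by
  set q : σ → ℚ := fun i => (c i).coeff 0 with hq
  have hcq : ∀ i, c i = io (PowerSeries.C (q i)) := fun i => const_of_eul (hc i)
  have h1 : eul x = io (X * ∑ i, PowerSeries.C (q i) * ω i) := by
    rw [h, Finset.mul_sum, map_sum]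
    refine Finset.sum_congr rfl fun i _ => ?_
    rw [hcq i, ← map_mul]
    congr 1
    ring
  set f : ℚ⟦X⟧ := PowerSeries.mk fun n => x.coeff (n : ℤ) with hf
  have hxf : x = io f := by
    ext n
    rcases lt_or_ge n 0 with hn | hn
    · rw [coeff_io_neg _ hn]
      have h2 := congrArg (fun x : FF => x.coeff n) h1
      simp only [coeff_eul] at h2
      rw [coeff_io_neg _ hn] at h2
      rcases mul_eq_zero.1 h2 with h3 | h3
      · exfalso
        rw [Int.cast_eq_zero] at h3
        omega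
      · exact h3
    · obtain ⟨m, rfl⟩ : ∃ m : ℕ, n = (m : ℤ) := ⟨n.toNat, by omega⟩
      rw [coeff_io, hf, coeff_mk]
  have h2 : d⁄dX ℚ f = ∑ i, PowerSeries.C (q i) * ω i := by
    rw [hxf, eul_io] at h1
    have h3 := io_inj h1
    exact mul_left_cancel₀ (PowerSeries.X_ne_zero (R := ℚ)) h3
  have h4 : q = 0 := by
    obtain ⟨Q, r, hQ, hr, h3⟩ := rep_of_mem hP hy hx
    refine hex q Q f hQ ?_ h2
    have h5 : ps Q * f = r := by
      apply io_inj
      rw [map_mul, ← h3, hxf]
    rw [h5]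
    exact hr
  rw [hcq i, h4]
  simp

/-- the iterated integrals are linearly independent over the function field -/
theorem indep_K [Fintype σ] [DecidableEq σ] (h : Dat y g Δ ω) (hΔ : Δ ≠ 0) (hg : g ≠ 0)
    {P : Polynomial (Polynomial ℤ)} (hP : P.Monic) (hy : evy y P = 0)
    (hex : ∀ (c : σ → ℚ) (Q : Polynomial ℤ) (f : ℚ⟦X⟧), Q ≠ 0 → ps Q * f ∈ RR y →
      d⁄dX ℚ f = ∑ j, PowerSeries.C (c j) * ω j → c = 0)
    (L : ℕ) (G : Wd σ L → FF) (hG : ∀ w, G w ∈ KY y) (h0 : ∑ w, G w * io (II ω w.1) = 0) : ∀ w, G w = 0 := by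
  classical
  refine graded_indep (κ := σ) (eul (K := ℚ)) (KY y) (fun x hx => eul_mem_KY h hΔ hx) (fun i => io (X * ω i)) (fun i => ?_)
    (fun c x _ hc hx hcx => hprim_of hP hy hex c x hc hx hcx) (fun w : Wd σ L => w.1.length) (fun w => io (II ω w.1))
    (fun i w w' => if w.1 = i :: w'.1 then 1 else 0) ?_ ?_ ?_ ?_ G hG h0
  · rw [map_mul]
    exact mul_mem (io_X_mem y) (io_mem_of_mul hg (h.om i))
  · intro i b b' hne
    have h1 : b.1 = i :: b'.1 := by
      by_contra h1
      exact hne (if_neg h1)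
    show b.1.length = b'.1.length + 1
    rw [h1, List.length_cons]
  · rintro ⟨w, hw⟩
    rcases w with _ | ⟨j, w⟩
    · show eul (io 1) = _
      rw [map_one, Derivation.map_one_eq_zero]
      symm
      refine Finset.sum_eq_zero fun w' _ => ?_
      rw [Finset.sum_eq_zero fun i _ => ?_, zero_mul]
      rw [if_neg (by simp)]
      simp
    · have hw' : w.length ≤ L := by
        rw [List.length_cons] at hw
        omega
      show eul (io (prim (ω j * II ω w))) = _
      rw [eul_io, deriv_prim, Finset.sum_eq_single (⟨w, hw'⟩ : Wd σ L)]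
      · rw [Finset.sum_eq_single j]
        · rw [if_pos rfl, Rat.cast_one, one_mul, ← map_mul]
          congr 1
          ring
        · intro i _ hij
          rw [if_neg (by
            intro hh
            rw [List.cons.injEq] at hh
            exact hij hh.1.symm)]
          simp
        · intro hh
          exact absurd (Finset.mem_univ _) hh
      · intro w' _ hne
        rw [Finset.sum_eq_zero fun i _ => ?_, zero_mul]
        rw [if_neg (by
          intro hh
          rw [List.cons.injEq] at hh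
          exact hne (Subtype.ext hh.2.symm))]
        simp
      · intro hh
        exact absurd (Finset.mem_univ _) hh
  · intro c _ hcd hs b
    have hnil : ∀ b : Wd σ L, b.1.length = 0 → b = ⟨[], by simp⟩ := by
      intro b hb
      exact Subtype.ext (List.length_eq_zero_iff.1 hb)
    by_cases hb : b.1.length = 0
    · rw [Finset.sum_eq_single (⟨[], by simp⟩ : Wd σ L)] at hs
      · rw [hnil b hb]
        have : io (II ω (⟨[], by simp⟩ : Wd σ L).1) = 1 := by
          show io 1 = 1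
          rw [map_one]
        rw [this, mul_one] at hs
        exact hs
      · intro b' _ hb'
        rw [hcd b' (fun hh => hb' (hnil b' hh)), zero_mul]
      · intro hh
        exact absurd (Finset.mem_univ _) hh
    · exact hcd b hb
  · intro m l _ _ hlm hl b
    obtain ⟨w, hw⟩ := b
    rcases w with _ | ⟨j, w⟩
    · exact hlm _ (by simp)
    · have hw' : w.length ≤ L := by
        rw [List.length_cons] at hw
        omega
      have h1 := hl j ⟨w, hw'⟩
      rw [Finset.sum_eq_single (⟨j :: w, hw⟩ : Wd σ L)] at h1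
      · rw [if_pos rfl, Rat.cast_one, one_mul] at h1
        exact h1
      · intro b' _ hb'
        rw [if_neg (fun hh => hb' (Subtype.ext hh))]
        simp
      · intro hh
        exact absurd (Finset.mem_univ _) hh

/-- linear independence over the polynomials -/
theorem indep_YY [Fintype σ] [DecidableEq σ] (h : Dat y g Δ ω) (hΔ : Δ ≠ 0) (hg : g ≠ 0)
    {P : Polynomial (Polynomial ℤ)} (hP : P.Monic) (hy : evy y P = 0)
    (hpow : LinearIndependent (Polynomial ℚ) (fun c : Fin P.natDegree => y ^ (c : ℕ)))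
    (hex : ∀ (c : σ → ℚ) (Q : Polynomial ℤ) (f : ℚ⟦X⟧), Q ≠ 0 → ps Q * f ∈ RR y →
      d⁄dX ℚ f = ∑ j, PowerSeries.C (c j) * ω j → c = 0)
    (L : ℕ) : LinearIndependent (Polynomial ℚ) (YY P.natDegree y ω L) := by
  classical
  rw [Fintype.linearIndependent_iff]
  intro F hF
  have hsm : ∀ (p : Polynomial ℚ) (f : ℚ⟦X⟧), p • f = (p : ℚ⟦X⟧) * f := fun p f => by
    rw [Algebra.smul_def]
    rfl
  have h1 := indep_K h hΔ hg hP hy hex L (fun w => io (∑ c : Fin P.natDegree, (F (c, w) : ℚ⟦X⟧) * y ^ (c : ℕ))) (fun w => by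
    rw [map_sum]
    refine sum_mem fun c _ => ?_
    rw [map_mul, map_pow]
    exact mul_mem (pio_mem' y _) (pow_mem (io_y_mem y) _)) (by
    rw [← map_zero io, ← hF, Fintype.sum_prod_type, Finset.sum_comm, map_sum]
    refine Finset.sum_congr rfl fun w _ => ?_
    rw [← map_mul]
    congr 1
    rw [Finset.sum_mul]
    refine Finset.sum_congr rfl fun c _ => ?_
    rw [hsm, YY]
    ring)
  rintro ⟨c, w⟩
  have h2 : ∑ c : Fin P.natDegree, F (c, w) • y ^ (c : ℕ) = 0 := by
    simp only [hsm]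
    apply io_inj
    rw [map_zero]
    exact h1 w
  exact (Fintype.linearIndependent_iff.1 hpow) (fun c => F (c, w)) h2 c

end

end Pool.Agent.W5h35.IC
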