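import Pool.Agent.W5h35.IC.Tan
import Pool.Agent.W5h35.IC.Cur

/-!
# Linear independence of iterated integrals with a tangential base point
-/

set_option autoImplicit false

open PowerSeries Pool.Agent.Y113 Pool.Agent.Y119.ML
open Pool.Agent.W924.LF (eul coeff_eul)

namespace Pool.Agent.W5h35.IC

attribute [-instance] HahnSeries.powerSeriesAlgebra

section
variable {σ : Type} {y : ℚ⟦X⟧} {g Δ : Polynomial ℤ} {ω : σ → ℚ⟦X⟧}

/-- the forms are independent modulo exact forms -/
theorem hprimT_of [Fintype σ] {P : Polynomial (Polynomial ℤ)} (hP : P.Monic) (hy : evy y P = 0)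
    (hex : ∀ (c : σ → ℚ) (Q : Polynomial ℤ) (f : ℚ⟦X⟧), Q ≠ 0 → ps Q * f ∈ RR y →
      d⁄dX ℚ f = ∑ j, PowerSeries.C (c j) * ω j → c = 0)
    (c : Option σ → FF) (x : FF) (hc : ∀ i, eul (c i) = 0) (hx : x ∈ KY y) (h : eul x = ∑ i, c i * io (uu ω i)) (i : Option σ) :
    c i = 0 := by
  have hn : c none = 0 := by
    have h1 := const_of_eul (hc none)
    have h2 : ∀ j : σ, (c (some j) * io (uu ω (some j))).coeff 0 = 0 := by
      intro j
      rw [const_of_eul (hc (some j)), ← map_mul]
      have h3 := coeff_io (PowerSeries.C ((c (some j)).coeff 0) * uu ω (some j)) 0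
      rw [Nat.cast_zero] at h3
      rw [h3]
      show coeff 0 (PowerSeries.C ((c (some j)).coeff 0) * (X * ω j)) = 0
      rw [coeff_zero_eq_constantCoeff_apply, map_mul, map_mul, constantCoeff_X, zero_mul, mul_zero]
    have h3 := congrArg (fun z : FF => z.coeff 0) h
    simp only [coeff_eul, Int.cast_zero, zero_mul] at h3
    rw [Fintype.sum_option, HahnSeries.coeff_add, HahnSeries.coeff_sum, Finset.sum_eq_zero fun j _ => h2 j, add_zero] at h3
    have h4 : io (uu ω none) = 1 := map_one io
    rw [h4, mul_one] at h3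
    rw [h1, ← h3, map_zero, map_zero]
  rcases i with _ | j
  · exact hn
  · rw [Fintype.sum_option, hn, zero_mul, zero_add] at h
    exact hprim_of hP hy hex (fun j => c (some j)) x (fun j => hc (some j)) hx h j

/-- the iterated integrals are linearly independent over the function field -/
theorem indT_K [Fintype σ] [DecidableEq σ] (h : Dat y g Δ ω) (hΔ : Δ ≠ 0) (hg : g ≠ 0)
    {P : Polynomial (Polynomial ℤ)} (hP : P.Monic) (hy : evy y P = 0)
    (hex : ∀ (c : σ → ℚ) (Q : Polynomial ℤ) (f : ℚ⟦X⟧), Q ≠ 0 → ps Q * f ∈ RR y →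
      d⁄dX ℚ f = ∑ j, PowerSeries.C (c j) * ω j → c = 0)
    (L : ℕ) (G : Wt σ L → FF) (hG : ∀ w, G w ∈ KY y) (h0 : ∑ w, G w * io (I2 ω w.1) = 0) : ∀ w, G w = 0 := by
  classical
  refine graded_indep (κ := Option σ) (eul (K := ℚ)) (KY y) (fun x hx => eul_mem_KY h hΔ hx) (fun i => io (uu ω i)) (fun i => ?_)
    (fun c x _ hc hx hcx => hprimT_of hP hy hex c x hc hx hcx) (fun w : Wt σ L => w.1.length) (fun w => io (I2 ω w.1))
    (fun i w w' => if w.1 = i :: w'.1 then 1 else 0) ?_ ?_ ?_ ?_ G hG h0
  · rcases i with _ | i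
    · have h4 : io (uu ω none) = 1 := map_one io
      rw [h4]
      exact one_mem _
    · show io (X * ω i) ∈ _
      rw [map_mul]
      exact mul_mem (io_X_mem y) (io_mem_of_mul hg (h.om i))
  · intro i b b' hne
    have h1 : b.1 = i :: b'.1 := by
      by_contra h1
      exact hne (if_neg h1)
    show b.1.length = b'.1.length + 1
    rw [h1, List.length_cons]
  · rintro ⟨w, hw, ha⟩
    rcases w with _ | ⟨j, w⟩
    · show eul (io 1) = _
      rw [map_one, Derivation.map_one_eq_zero]
      symm
      refine Finset.sum_eq_zero fun w' _ => ?_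
      rw [Finset.sum_eq_zero fun i _ => ?_, zero_mul]
      rw [if_neg (by simp)]
      simp
    · have hw' : w.length ≤ L := by
        rw [List.length_cons] at hw
        omega
      have ha' := adm_tail ha
      show eul (io (I2 ω (j :: w))) = _
      rw [eul_io, eul_I2 ha, Finset.sum_eq_single (⟨w, hw', ha'⟩ : Wt σ L)]
      · rw [Finset.sum_eq_single j]
        · rw [if_pos rfl, Rat.cast_one, one_mul, ← map_mul]
        · intro i _ hij
          rw [if_neg (by
            intro hh
            rw [List.cons.injEq] at hh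
            exact hij hh.1.symm)]
          simp
        · intro hh
          exact absurd (Finset.mem_univ _) hh
      · intro w' _ hne
        rw [Finset.sum_eq_zero fun i _ => ?_, zero_mul]
        rw [if_neg (by
          intro hh
          rw [List.cons.injEq] at hh
          exact hne (Subtype.ext hh.2.symm))]
        simp
      · intro hh
        exact absurd (Finset.mem_univ _) hh
  · intro c _ hcd hs b
    have hnil : ∀ b : Wt σ L, b.1.length = 0 → b = ⟨[], by simp, adm_nil⟩ := by
      intro b hb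
      exact Subtype.ext (List.length_eq_zero_iff.1 hb)
    by_cases hb : b.1.length = 0
    · rw [Finset.sum_eq_single (⟨[], by simp, adm_nil⟩ : Wt σ L)] at hs
      · rw [hnil b hb]
        have : io (I2 ω (⟨[], by simp, adm_nil⟩ : Wt σ L).1) = 1 := by
          show io 1 = 1
          rw [map_one]
        rw [this, mul_one] at hs
        exact hs
      · intro b' _ hb'
        rw [hcd b' (fun hh => hb' (hnil b' hh)), zero_mul]
      · intro hh
        exact absurd (Finset.mem_univ _) hh
    · exact hcd b hb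
  · intro m l _ _ hlm hl b
    obtain ⟨w, hw, ha⟩ := b
    rcases w with _ | ⟨j, w⟩
    · exact hlm _ (by simp)
    · have hw' : w.length ≤ L := by
        rw [List.length_cons] at hw
        omega
      have h1 := hl j ⟨w, hw', adm_tail ha⟩
      rw [Finset.sum_eq_single (⟨j :: w, hw, ha⟩ : Wt σ L)] at h1
      · rw [if_pos rfl, Rat.cast_one, one_mul] at h1
        exact h1
      · intro b' _ hb'
        rw [if_neg (fun hh => hb' (Subtype.ext hh))]
        simp
      · intro hh
        exact absurd (Finset.mem_univ _) hh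

/-- linear independence over the polynomials -/
theorem indT_YX [Fintype σ] [DecidableEq σ] (h : Dat y g Δ ω) (hΔ : Δ ≠ 0) (hg : g ≠ 0)
    {P : Polynomial (Polynomial ℤ)} (hP : P.Monic) (hy : evy y P = 0)
    (hpow : LinearIndependent (Polynomial ℚ) (fun c : Fin P.natDegree => y ^ (c : ℕ)))
    (hex : ∀ (c : σ → ℚ) (Q : Polynomial ℤ) (f : ℚ⟦X⟧), Q ≠ 0 → ps Q * f ∈ RR y →
      d⁄dX ℚ f = ∑ j, PowerSeries.C (c j) * ω j → c = 0)
    (L : ℕ) : LinearIndependent (Polynomial ℚ) (YX P.natDegree y ω L) := by
  classical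
  rw [Fintype.linearIndependent_iff]
  intro F hF
  have hsm : ∀ (p : Polynomial ℚ) (f : ℚ⟦X⟧), p • f = (p : ℚ⟦X⟧) * f := fun p f => by
    rw [Algebra.smul_def]
    rfl
  have h1 := indT_K h hΔ hg hP hy hex L (fun w => io (∑ c : Fin P.natDegree, (F (c, w) : ℚ⟦X⟧) * y ^ (c : ℕ))) (fun w => by
    rw [map_sum]
    refine sum_mem fun c _ => ?_
    rw [map_mul, map_pow]
    exact mul_mem (pio_mem' y _) (pow_mem (io_y_mem y) _)) (by
    rw [← map_zero io, ← hF, Fintype.sum_prod_type, Finset.sum_comm, map_sum]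
    refine Finset.sum_congr rfl fun w _ => ?_
    rw [← map_mul]
    congr 1
    rw [Finset.sum_mul]
    refine Finset.sum_congr rfl fun c _ => ?_
    rw [hsm, YX]
    ring)
  rintro ⟨c, w⟩
  have h2 : ∑ c : Fin P.natDegree, F (c, w) • y ^ (c : ℕ) = 0 := by
    simp only [hsm]
    apply io_inj
    rw [map_zero]
    exact h1 w
  exact (Fintype.linearIndependent_iff.1 hpow) (fun c => F (c, w)) h2 c

end

end Pool.Agent.W5h35.IC
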