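import Pool.Agent.W5h35.IC.Alg
import Pool.Agent.W5h35.IC.Fam
import Pool.Agent.Y113.P.SD

/-!
# Iterated integrals of algebraic functions form a G-system
-/

set_option autoImplicit false

open PowerSeries Pool.Agent.Y113 Pool.Agent.Y120.GF Pool.Agent.Y120.GH Finset.HasAntidiagonal

namespace Pool.Agent.W5h35.IC

/-- the primitive without constant term -/
noncomputable def prim (f : ℚ⟦X⟧) : ℚ⟦X⟧ := PowerSeries.mk fun m => coeff (m - 1) f / m

lemma deriv_prim (f : ℚ⟦X⟧) : d⁄dX ℚ (prim f) = f := by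
  ext m
  rw [coeff_derivative, prim, coeff_mk, Nat.add_sub_cancel]
  have : ((m : ℚ) + 1) ≠ 0 := by positivity
  push_cast
  field_simp

lemma const_prim (f : ℚ⟦X⟧) : constantCoeff (prim f) = 0 := by
  rw [← coeff_zero_eq_constantCoeff_apply, prim, coeff_mk]
  simp

/-- the iterated integrals -/
noncomputable def II {σ : Type} (ω : σ → ℚ⟦X⟧) : List σ → ℚ⟦X⟧
  | [] => 1
  | j :: w => prim (ω j * II ω w)

/-- words of length at most `L` -/
abbrev Wd (σ : Type) (L : ℕ) : Type := {w : List σ // w.length ≤ L}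

instance {σ : Type} [Finite σ] (L : ℕ) : Finite (Wd σ L) := (List.finite_length_le σ L).to_subtype

noncomputable instance {σ : Type} [Fintype σ] (L : ℕ) : Fintype (Wd σ L) := Fintype.ofFinite _

lemma hd_deriv (k : ℕ) (f : ℚ⟦X⟧) : hd k (d⁄dX ℚ f) = ((k : ℚ⟦X⟧) + 1) * hd (k + 1) f := by
  ext m
  have h1 : ((k : ℚ⟦X⟧) + 1) = C ((k : ℚ) + 1) := by simp
  rw [h1, coeff_C_mul, coeff_hd, coeff_hd, coeff_derivative]
  have h2 := Nat.add_one_mul_choose_eq (m + k) k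
  have h3 : ((m : ℚ) + k + 1) * ((m + k).choose k : ℚ) = ((m + (k + 1)).choose (k + 1) : ℚ) * (k + 1) := by
    rw [show m + (k + 1) = m + k + 1 by ring]
    exact_mod_cast h2
  rw [show m + (k + 1) = m + k + 1 by ring] at *
  push_cast
  linear_combination (coeff (m + k + 1) f) * h3

lemma hd_prim (k : ℕ) (f : ℚ⟦X⟧) : ((k : ℚ⟦X⟧) + 1) * hd (k + 1) (prim f) = hd k f := by
  rw [← hd_deriv, deriv_prim]

lemma hd_one_eq (f : ℚ⟦X⟧) : hd 1 f = d⁄dX ℚ f := by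
  have h := deriv_hd 0 f
  rw [hd_zero] at h
  rw [h]
  simp

lemma const_hd (k : ℕ) (f : ℚ⟦X⟧) : constantCoeff (hd k f) = coeff k f := by
  rw [← coeff_zero_eq_constantCoeff_apply, coeff_hd]
  simp

lemma const_ps (p : Polynomial ℤ) : constantCoeff (ps p) = (p.coeff 0 : ℤ) := by
  rw [← coeff_zero_eq_constantCoeff_apply, ps, Polynomial.coeff_coe, Polynomial.coeff_map]
  rfl

/-- the arithmetic conditions -/
structure Dat {σ : Type} (y : ℚ⟦X⟧) (g Δ : Polynomial ℤ) (ω : σ → ℚ⟦X⟧) : Prop where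
  int : ∀ z ∈ RR y, ∀ s, ps Δ ^ (2 * s) * hd s z ∈ RR y
  om : ∀ j, ps g * ω j ∈ RR y
  y0 : ∃ a : ℤ, constantCoeff y = a

/-- the denominator of the system -/
noncomputable def TT (g Δ : Polynomial ℤ) : Polynomial ℤ := g * Δ ^ 2

lemma ps_TT (g Δ : Polynomial ℤ) : ps (TT g Δ) = ps g * ps Δ ^ 2 := by
  rw [TT, ← psH_apply, map_mul, map_pow]
  rfl

section
variable {σ : Type} {y : ℚ⟦X⟧} {g Δ : Polynomial ℤ} {ω : σ → ℚ⟦X⟧}

lemma Dat.p1 (h : Dat y g Δ ω) {z : ℚ⟦X⟧} (hz : z ∈ RR y) (k : ℕ) : ps (TT g Δ) ^ k * hd k z ∈ RR y := by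
  have h1 : ps (TT g Δ) ^ k * hd k z = ps g ^ k * (ps Δ ^ (2 * k) * hd k z) := by
    rw [ps_TT, mul_pow, ← pow_mul]
    ring
  rw [h1]
  exact Subring.mul_mem _ (Subring.pow_mem _ (ps_mem _ _) _) (h.int z hz k)

lemma Dat.p2 (h : Dat y g Δ ω) (j : σ) (k : ℕ) : ps g * (ps (TT g Δ) ^ k * hd k (ω j)) ∈ RR y := by
  induction k using Nat.strong_induction_on with
  | _ k ih =>
    have h1 := hd_mul k (ps g) (ω j)
    have h0 : ((0, k) : ℕ × ℕ) ∈ antidiagonal k := by simp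
    rw [← Finset.add_sum_erase _ _ h0] at h1
    simp only [hd_zero] at h1
    have h2 : ps g * (ps (TT g Δ) ^ k * hd k (ω j)) = ps (TT g Δ) ^ k * hd k (ps g * ω j) -
        ∑ p ∈ (antidiagonal k).erase (0, k), ps (TT g Δ) ^ k * (hd p.1 (ps g) * hd p.2 (ω j)) := by
      rw [← Finset.mul_sum, h1]
      ring
    rw [h2]
    refine Subring.sub_mem _ (h.p1 (h.om j) k) (Subring.sum_mem _ fun p hp => ?_)
    have hp' := Finset.mem_of_mem_erase hp
    have hne := Finset.ne_of_mem_erase hp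
    rw [Finset.HasAntidiagonal.mem_antidiagonal] at hp'
    have hp1 : p.1 ≠ 0 := by
      intro h0
      apply hne
      refine Prod.ext h0 ?_
      show p.2 = k
      omega
    obtain ⟨a, ha⟩ : ∃ a, p.1 = a + 1 := ⟨p.1 - 1, by omega⟩
    have h3 : ps (TT g Δ) ^ k * (hd p.1 (ps g) * hd p.2 (ω j)) =
        (ps (TT g Δ) ^ a * hd p.1 (ps g) * ps Δ ^ 2) * (ps g * (ps (TT g Δ) ^ p.2 * hd p.2 (ω j))) := by
      have h4 : k = a + 1 + p.2 := by omega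
      rw [h4, pow_add, pow_succ, ps_TT]
      ring
    rw [h3]
    refine Subring.mul_mem _ (Subring.mul_mem _ (Subring.mul_mem _ (Subring.pow_mem _ (ps_mem _ _) _) ?_)
      (Subring.pow_mem _ (ps_mem _ _) _)) (ih _ (by omega))
    rw [hd_ps]
    exact ps_mem _ _

lemma Dat.p2' (h : Dat y g Δ ω) (j : σ) (k : ℕ) : ps (TT g Δ) * (ps (TT g Δ) ^ k * hd k (ω j)) ∈ RR y := by
  have h1 : ps (TT g Δ) * (ps (TT g Δ) ^ k * hd k (ω j)) = ps Δ ^ 2 * (ps g * (ps (TT g Δ) ^ k * hd k (ω j))) := by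
    conv_lhs => rw [ps_TT g Δ]
    rw [ps_TT]
    ring
  rw [h1]
  exact Subring.mul_mem _ (Subring.pow_mem _ (ps_mem _ _) _) (h.p2 j k)

/-- the module generated by the iterated integrals -/
noncomputable def NN (y : ℚ⟦X⟧) (ω : σ → ℚ⟦X⟧) (L : ℕ) : Submodule (RR y) ℚ⟦X⟧ :=
  Submodule.span (RR y) (Set.range fun v : Wd σ L => II ω v.1)

lemma NN_mul {L : ℕ} {r z : ℚ⟦X⟧} (hr : r ∈ RR y) (hz : z ∈ NN y ω L) : r * z ∈ NN y ω L :=
  (NN y ω L).smul_mem ⟨r, hr⟩ hz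

lemma II_mem {L : ℕ} {w : List σ} (hw : w.length ≤ L) : II ω w ∈ NN y ω L :=
  Submodule.subset_span ⟨⟨w, hw⟩, rfl⟩

lemma nat_mem (n : ℕ) : (n : ℚ⟦X⟧) ∈ RR y := natCast_mem _ n

/-- the divided derivatives of the iterated integrals -/
theorem Dat.p3 (h : Dat y g Δ ω) (L m : ℕ) (w : List σ) (hw : w.length ≤ L) (k : ℕ) (hk : k ≤ m) :
    (Nat.lcmUpto m : ℚ⟦X⟧) ^ w.length * (ps (TT g Δ) ^ k * hd k (II ω w)) ∈ NN y ω L := by
  induction w generalizing k with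
  | nil =>
    rw [List.length_nil, pow_zero, one_mul]
    show _ * hd k 1 ∈ _
    rw [hd_one]
    split_ifs with h0
    · rw [h0, pow_zero, one_mul]
      exact II_mem (w := []) hw
    · rw [mul_zero]
      exact Submodule.zero_mem _
  | cons j w ih =>
    have hw' : w.length ≤ L := by
      rw [List.length_cons] at hw
      omega
    rcases Nat.eq_zero_or_pos k with rfl | hk0
    · rw [pow_zero, one_mul, hd_zero]
      exact NN_mul (Subring.pow_mem _ (nat_mem _) _) (II_mem hw)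
    obtain ⟨k, rfl⟩ : ∃ i, k = i + 1 := ⟨k - 1, by omega⟩
    obtain ⟨c, hc⟩ := Pool.Agent.Y113.dvd_lcmUpto (j := k + 1) (n := m) (by omega) hk
    have h1 : (Nat.lcmUpto m : ℚ⟦X⟧) = (c : ℚ⟦X⟧) * ((k : ℚ⟦X⟧) + 1) := by
      rw [hc]
      push_cast
      ring
    have h2 : (Nat.lcmUpto m : ℚ⟦X⟧) ^ (j :: w).length * (ps (TT g Δ) ^ (k + 1) * hd (k + 1) (II ω (j :: w))) =
        (c : ℚ⟦X⟧) * ∑ p ∈ antidiagonal k, (ps (TT g Δ) * (ps (TT g Δ) ^ p.1 * hd p.1 (ω j))) *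
          ((Nat.lcmUpto m : ℚ⟦X⟧) ^ w.length * (ps (TT g Δ) ^ p.2 * hd p.2 (II ω w))) := by
      have h3 : ((k : ℚ⟦X⟧) + 1) * hd (k + 1) (II ω (j :: w)) = ∑ p ∈ antidiagonal k, hd p.1 (ω j) * hd p.2 (II ω w) := by
        rw [← hd_mul]
        exact hd_prim k _
      have h4 : ∑ p ∈ antidiagonal k, (ps (TT g Δ) * (ps (TT g Δ) ^ p.1 * hd p.1 (ω j))) *
          ((Nat.lcmUpto m : ℚ⟦X⟧) ^ w.length * (ps (TT g Δ) ^ p.2 * hd p.2 (II ω w))) =
          (Nat.lcmUpto m : ℚ⟦X⟧) ^ w.length * ps (TT g Δ) ^ (k + 1) * ∑ p ∈ antidiagonal k, hd p.1 (ω j) * hd p.2 (II ω w) := by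
        rw [Finset.mul_sum]
        refine Finset.sum_congr rfl fun p hp => ?_
        rw [Finset.HasAntidiagonal.mem_antidiagonal] at hp
        rw [← hp, pow_succ, pow_add]
        ring
      rw [h4, ← h3, List.length_cons, pow_succ]
      linear_combination (Nat.lcmUpto m : ℚ⟦X⟧) ^ w.length * (ps (TT g Δ) ^ (k + 1) * hd (k + 1) (II ω (j :: w))) * h1
    rw [h2]
    refine NN_mul (nat_mem _) (Submodule.sum_mem _ fun p hp => NN_mul (h.p2' j _) (ih hw' _ ?_))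
    rw [Finset.HasAntidiagonal.mem_antidiagonal] at hp
    omega

/-- the functions of the system -/
noncomputable def YY (n : ℕ) (y : ℚ⟦X⟧) (ω : σ → ℚ⟦X⟧) (L : ℕ) (i : Fin n × Wd σ L) : ℚ⟦X⟧ := y ^ (i.1 : ℕ) * II ω i.2.1

theorem Dat.p4 (h : Dat y g Δ ω) (n L m : ℕ) (i : Fin n × Wd σ L) (k : ℕ) (hk : k ≤ m) :
    ((Nat.lcmUpto m ^ L : ℕ) : ℚ⟦X⟧) * (ps (TT g Δ) ^ k * hd k (YY n y ω L i)) ∈ NN y ω L := by
  obtain ⟨c, w, hw⟩ := i
  have h1 : ((Nat.lcmUpto m ^ L : ℕ) : ℚ⟦X⟧) * (ps (TT g Δ) ^ k * hd k (YY n y ω L (c, ⟨w, hw⟩))) =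
      ∑ p ∈ antidiagonal k, ((Nat.lcmUpto m : ℚ⟦X⟧) ^ (L - w.length) * (ps (TT g Δ) ^ p.1 * hd p.1 (y ^ (c : ℕ)))) *
        ((Nat.lcmUpto m : ℚ⟦X⟧) ^ w.length * (ps (TT g Δ) ^ p.2 * hd p.2 (II ω w))) := by
    rw [YY, hd_mul, Finset.mul_sum, Finset.mul_sum]
    refine Finset.sum_congr rfl fun p hp => ?_
    rw [Finset.HasAntidiagonal.mem_antidiagonal] at hp
    have e1 : ((Nat.lcmUpto m ^ L : ℕ) : ℚ⟦X⟧) = (Nat.lcmUpto m : ℚ⟦X⟧) ^ (L - w.length) * (Nat.lcmUpto m : ℚ⟦X⟧) ^ w.length := by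
      rw [← pow_add, Nat.sub_add_cancel hw]
      push_cast
      rfl
    rw [e1, ← hp, pow_add]
    ring
  rw [h1]
  refine Submodule.sum_mem _ fun p hp => NN_mul (Subring.mul_mem _ (Subring.pow_mem _ (nat_mem _) _)
    (h.p1 (Subring.pow_mem _ (y_mem y) _) _)) (h.p3 L m w hw _ ?_)
  rw [Finset.HasAntidiagonal.mem_antidiagonal] at hp
  omega

/-- expansion of the elements of the module -/
theorem NN_expand [Fintype σ] {P : Polynomial (Polynomial ℤ)} (hP : P.Monic) (hy : evy y P = 0) {L : ℕ} {z : ℚ⟦X⟧}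
    (hz : z ∈ NN y ω L) :
    ∃ F : Fin P.natDegree × Wd σ L → Polynomial ℤ, z = ∑ i, ps (F i) * YY P.natDegree y ω L i := by
  obtain ⟨c, rfl⟩ := (Submodule.mem_span_range_iff_exists_fun (RR y)).1 hz
  choose F hF using fun v : Wd σ L => RR_expand hP hy (c v).2
  refine ⟨fun i => F i.2 i.1, ?_⟩
  rw [Fintype.sum_prod_type, Finset.sum_comm]
  refine Finset.sum_congr rfl fun v _ => ?_
  show (c v : ℚ⟦X⟧) * II ω v.1 = _
  rw [hF v, Finset.sum_mul]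
  refine Finset.sum_congr rfl fun k _ => ?_
  rw [YY]
  ring

/-- the power series with integral constant term -/
noncomputable def ZZ : Subring ℚ⟦X⟧ := (Int.castRingHom ℚ).range.comap (constantCoeff (R := ℚ))

lemma mem_ZZ {z : ℚ⟦X⟧} : z ∈ ZZ ↔ ∃ a : ℤ, constantCoeff z = a := by
  unfold ZZ
  rw [Subring.mem_comap, RingHom.mem_range]
  constructor
  · rintro ⟨a, ha⟩
    exact ⟨a, ha.symm⟩
  · rintro ⟨a, ha⟩
    exact ⟨a, ha.symm⟩

lemma Dat.RR_int (h : Dat y g Δ ω) {z : ℚ⟦X⟧} (hz : z ∈ RR y) : z ∈ ZZ := by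
  obtain ⟨F, rfl⟩ := hz
  rw [evy_apply, Polynomial.eval₂_eq_sum_range]
  refine Subring.sum_mem _ fun k _ => Subring.mul_mem _ ?_ (Subring.pow_mem _ (mem_ZZ.2 h.y0) _)
  rw [mem_ZZ]
  exact ⟨_, const_ps _⟩

lemma II_int (w : List σ) : II ω w ∈ ZZ := by
  rcases w with _ | ⟨j, w⟩
  · exact Subring.one_mem _
  · rw [mem_ZZ]
    exact ⟨0, by
      rw [Int.cast_zero]
      exact const_prim _⟩

lemma Dat.NN_int (h : Dat y g Δ ω) {L : ℕ} {z : ℚ⟦X⟧} (hz : z ∈ NN y ω L) : z ∈ ZZ := by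
  refine Submodule.span_induction (p := fun z _ => z ∈ ZZ) ?_ (Subring.zero_mem _) (fun a b _ _ ha hb => Subring.add_mem _ ha hb)
    (fun r a _ ha => Subring.mul_mem _ (h.RR_int r.2) ha) hz
  rintro _ ⟨v, rfl⟩
  exact II_int _

/-- the differential equations -/
theorem Dat.exists_ode [Fintype σ] (h : Dat y g Δ ω) {P : Polynomial (Polynomial ℤ)} (hP : P.Monic) (hy : evy y P = 0) (L : ℕ) :
    ∃ A : Fin P.natDegree × Wd σ L → Fin P.natDegree × Wd σ L → Polynomial ℤ,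
      ∀ i, ps (TT g Δ) * d⁄dX ℚ (YY P.natDegree y ω L i) = ∑ j, ps (A i j) * YY P.natDegree y ω L j := by
  have h1 : ∀ i, ps (TT g Δ) * d⁄dX ℚ (YY P.natDegree y ω L i) ∈ NN y ω L := by
    intro i
    have h2 := h.p4 P.natDegree L 1 i 1 le_rfl
    have h3 : Nat.lcmUpto 1 = 1 := by decide
    rw [h3, one_pow, Nat.cast_one, one_mul, pow_one, hd_one_eq] at h2
    exact h2
  choose A hA using fun i => NN_expand hP hy (h1 i)
  exact ⟨A, hA⟩

/-- the denominators of the coefficients -/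
theorem Dat.den [Fintype σ] (h : Dat y g Δ ω) (n L : ℕ) (hT : (TT g Δ).coeff 0 ≠ 0) :
    ∃ C : ℝ, ∀ m, ∃ d : ℕ, 0 < d ∧ (d : ℝ) ≤ C ^ (m + 1) ∧ ∀ i, ∀ j ≤ m, ∃ a : ℤ, (d : ℚ) * coeff j (YY n y ω L i) = a := by
  set t := (TT g Δ).coeff 0 with ht
  have htn : 1 ≤ t.natAbs := Int.natAbs_pos.2 hT
  refine ⟨(2 ^ 8) ^ L * (t.natAbs : ℝ) ^ 2, fun m => ⟨Nat.lcmUpto m ^ L * (t.natAbs ^ 2) ^ m, ?_, ?_, fun i j hj => ?_⟩⟩
  · have := Nat.lcmUpto_pos m
    positivity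
  · push_cast
    rw [mul_pow]
    have h1 : (1 : ℝ) ≤ t.natAbs := by exact_mod_cast htn
    refine mul_le_mul ?_ ?_ (by positivity) (by positivity)
    · calc (Nat.lcmUpto m : ℝ) ^ L ≤ ((2 ^ 8) ^ m) ^ L := pow_le_pow_left₀ (by positivity) (lcm_bound m) _
        _ = ((2 ^ 8) ^ L) ^ m := by rw [← pow_mul, ← pow_mul, ← pow_mul, ← pow_mul]; ring
        _ ≤ _ := pow_le_pow_right₀ (one_le_pow₀ (by norm_num)) (by omega)
    · exact pow_le_pow_right₀ (one_le_pow₀ h1) (by omega)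
  · obtain ⟨a, ha⟩ := mem_ZZ.1 (h.NN_int (h.p4 n L m i j hj))
    rw [map_mul, map_mul, map_pow, const_hd, const_ps, ← ht, map_natCast] at ha
    refine ⟨t ^ (2 * m - j) * a, ?_⟩
    push_cast
    rw [← ha]
    have h2 : ((t.natAbs : ℕ) : ℚ) ^ 2 = (t : ℚ) ^ 2 := by
      rw [Nat.cast_natAbs, Int.cast_abs, sq_abs]
    have h3 : (t : ℚ) ^ (2 * m) = (t : ℚ) ^ (2 * m - j) * (t : ℚ) ^ j := by
      rw [← pow_add]
      congr 1
      omega
    rw [h2, ← pow_mul, h3]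
    push_cast
    ring

/-- Galochkin's condition -/
theorem Dat.gal [Fintype σ] [DecidableEq σ] (h : Dat y g Δ ω) {P : Polynomial (Polynomial ℤ)} (hP : P.Monic) (hy : evy y P = 0) (L : ℕ)
    (hLI : LinearIndependent (Polynomial ℚ) (YY P.natDegree y ω L))
    {A : Fin P.natDegree × Wd σ L → Fin P.natDegree × Wd σ L → Polynomial ℤ}
    (hA : ∀ i, ps (TT g Δ) * d⁄dX ℚ (YY P.natDegree y ω L i) = ∑ j, ps (A i j) * YY P.natDegree y ω L j) :
    ∃ C : ℝ, ∀ m, ∃ d : ℕ, 0 < d ∧ (d : ℝ) ≤ C ^ (m + 1) ∧ ∀ s ≤ m, ∀ i j, ∃ H : Polynomial ℤ,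
      (d : Polynomial ℤ) * itm (TT g Δ) A s i j = (s.factorial : Polynomial ℤ) * H := by
  classical
  refine ⟨(2 ^ 8) ^ L, fun m => ⟨Nat.lcmUpto m ^ L, ?_, ?_, fun s hs i j => ?_⟩⟩
  · have := Nat.lcmUpto_pos m
    positivity
  · push_cast
    calc (Nat.lcmUpto m : ℝ) ^ L ≤ ((2 ^ 8) ^ m) ^ L := pow_le_pow_left₀ (by positivity) (lcm_bound m) _
      _ = ((2 ^ 8) ^ L) ^ m := by rw [← pow_mul, ← pow_mul, ← pow_mul, ← pow_mul]; ring
      _ ≤ _ := pow_le_pow_right₀ (one_le_pow₀ (by norm_num)) (by omega)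
  · obtain ⟨F, hF⟩ := NN_expand hP hy (h.p4 P.natDegree L m i s hs)
    have h1 := itm_spec hA s i
    have hc : ∀ n : ℕ, ((n : Polynomial ℤ)) = Polynomial.C (n : ℤ) := fun n => by simp
    have hpc : ∀ n : ℕ, ps (n : Polynomial ℤ) = (n : ℚ⟦X⟧) := by
      intro n
      rw [← psH_apply, map_natCast]
    have hsum : ∑ j, ps ((Nat.lcmUpto m ^ L : ℕ) * itm (TT g Δ) A s i j - (s.factorial : ℕ) * F j) * YY P.natDegree y ω L j = 0 := by
      have e1 : ∀ j, ps ((Nat.lcmUpto m ^ L : ℕ) * itm (TT g Δ) A s i j - (s.factorial : ℕ) * F j) * YY P.natDegree y ω L j =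
          ((Nat.lcmUpto m ^ L : ℕ) : ℚ⟦X⟧) * (ps (itm (TT g Δ) A s i j) * YY P.natDegree y ω L j) -
          (s.factorial : ℚ⟦X⟧) * (ps (F j) * YY P.natDegree y ω L j) := by
        intro j
        rw [← psH_apply, map_sub, map_mul, map_mul, map_natCast, map_natCast, psH_apply, psH_apply]
        ring
      rw [Finset.sum_congr rfl fun j _ => e1 j, Finset.sum_sub_distrib, ← Finset.mul_sum, ← Finset.mul_sum, ← hF, ← h1]
      ring
    have h2 := (Fintype.linearIndependent_iff.1 hLI)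
      (fun j => (((Nat.lcmUpto m ^ L : ℕ) * itm (TT g Δ) A s i j - (s.factorial : ℕ) * F j : Polynomial ℤ)).map (Int.castRingHom ℚ)) (by
        rw [← hsum]
        refine Finset.sum_congr rfl fun j _ => ?_
        rw [Algebra.smul_def]
        rfl) j
    have h3 := (Polynomial.map_eq_zero_iff (Int.castRingHom ℚ).injective_int).1 h2
    exact ⟨F j, sub_eq_zero.1 h3⟩

/-- the values of the iterated integrals -/
theorem Dat.win [Fintype σ] [DecidableEq σ] (h : Dat y g Δ ω) {P : Polynomial (Polynomial ℤ)} (hP : P.Monic) (hy : evy y P = 0) (L : ℕ)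
    (hT : (TT g Δ).coeff 0 ≠ 0) (hLI : LinearIndependent (Polynomial ℚ) (YY P.natDegree y ω L)) (n : ℕ) :
    Win (XF n (YY P.natDegree y ω L)) := by
  classical
  obtain ⟨A, hA⟩ := h.exists_ode hP hy L
  have hn : 0 < P.natDegree := by
    rcases Nat.eq_zero_or_pos P.natDegree with h0 | h0
    · exfalso
      have h1 := Polynomial.eq_one_of_monic_natDegree_zero hP h0
      rw [h1, map_one] at hy
      exact one_ne_zero hy
    · exact h0
  refine fam_lin hT hA (h.den _ L hT) (h.gal hP hy L hLI hA) (⟨0, hn⟩, ⟨[], by simp⟩) ?_ hLI n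
  rw [YY]
  simp [II]

end

end Pool.Agent.W5h35.IC
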