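import Pool.Agent.W5h35.IC.Ode

/-!
# Linear differential systems with a nilpotent residue at zero
-/

set_option autoImplicit false

open PowerSeries Pool.Agent.Y113 Pool.Agent.Y120.GF Pool.Agent.Y120.GH

namespace Pool.Agent.W5h35.IC

attribute [local instance] Matrix.linftyOpNormedAddCommGroup Matrix.linftyOpNormedRing Matrix.linftyOpNormedSpace

section
variable {ι : Type} [Fintype ι] [DecidableEq ι]

/-- the operator `C ↦ C N - N C` -/
noncomputable def adN (N : Matrix ι ι ℂ) : Module.End ℂ (Matrix ι ι ℂ) := LinearMap.mulRight ℂ N - LinearMap.mulLeft ℂ N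

lemma adN_apply (N C : Matrix ι ι ℂ) : adN N C = C * N - N * C := rfl

lemma adN_nilp {N : Matrix ι ι ℂ} (h : IsNilpotent N) : IsNilpotent (adN N) := by
  refine Commute.isNilpotent_sub ?_ ?_ ?_
  · exact (LinearMap.commute_mulLeft_right (R := ℂ) N N).symm
  · obtain ⟨k, hk⟩ := h
    refine ⟨k, ?_⟩
    rw [LinearMap.pow_mulRight, hk, LinearMap.mulRight_zero_eq_zero]
  · obtain ⟨k, hk⟩ := h
    refine ⟨k, ?_⟩
    rw [LinearMap.pow_mulLeft, hk, LinearMap.mulLeft_zero_eq_zero]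

lemma adN_norm (N C : Matrix ι ι ℂ) : ‖adN N C‖ ≤ 2 * ‖N‖ * ‖C‖ := by
  rw [adN_apply]
  refine (norm_sub_le _ _).trans ?_
  have h1 := norm_mul_le C N
  have h2 := norm_mul_le N C
  linarith

/-- the inverse of `m + ad N` -/
noncomputable def Rn (N : Matrix ι ι ℂ) (p m : ℕ) : Module.End ℂ (Matrix ι ι ℂ) :=
  ((m : ℂ))⁻¹ • ∑ k ∈ Finset.range p, (-((m : ℂ))⁻¹ • adN N) ^ k

lemma Rn_spec {N : Matrix ι ι ℂ} {p : ℕ} (hp : adN N ^ p = 0) {m : ℕ} (hm : 0 < m) (C : Matrix ι ι ℂ) :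
    (m : ℂ) • Rn N p m C + adN N (Rn N p m C) = C := by
  have hm0 : (m : ℂ) ≠ 0 := by exact_mod_cast hm.ne'
  have h1 := mul_neg_geom_sum (-((m : ℂ))⁻¹ • adN N) p
  have h2 : (-((m : ℂ))⁻¹ • adN N) ^ p = 0 := by
    rw [smul_pow, hp, smul_zero]
  rw [h2, sub_zero] at h1
  have hA : (m : ℂ) • (1 : Module.End ℂ (Matrix ι ι ℂ)) + adN N = (m : ℂ) • (1 - (-((m : ℂ))⁻¹ • adN N)) := by
    refine LinearMap.ext fun C => ?_
    simp only [LinearMap.add_apply, LinearMap.smul_apply, LinearMap.sub_apply, Module.End.one_apply]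
    rw [smul_sub, smul_smul]
    have : (m : ℂ) * -(m : ℂ)⁻¹ = -1 := by field_simp
    rw [this]
    simp
  have h3 : ((m : ℂ) • (1 : Module.End ℂ (Matrix ι ι ℂ)) + adN N) * Rn N p m = 1 := by
    rw [hA, Rn, smul_mul_smul_comm, mul_inv_cancel₀ hm0, one_smul, h1]
  have h4 := congrArg (fun f : Module.End ℂ (Matrix ι ι ℂ) => f C) h3
  simpa using h4

lemma Rn_norm (N : Matrix ι ι ℂ) (p : ℕ) {m : ℕ} (hm : 0 < m) (C : Matrix ι ι ℂ) :
    ‖Rn N p m C‖ ≤ (∑ k ∈ Finset.range p, (2 * ‖N‖) ^ k) * (‖C‖ / m) := by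
  have hm1 : (1 : ℝ) ≤ m := by exact_mod_cast hm
  have hm0 : (0 : ℝ) < m := by linarith
  have h1 : ∀ k, ‖((-((m : ℂ))⁻¹ • adN N) ^ k) C‖ ≤ (2 * ‖N‖) ^ k * ‖C‖ := by
    intro k
    induction k with
    | zero => simp
    | succ k ih =>
      rw [pow_succ', Module.End.mul_apply, LinearMap.smul_apply, norm_smul, norm_neg, norm_inv, Complex.norm_natCast]
      have h2 := adN_norm N (((-((m : ℂ))⁻¹ • adN N) ^ k) C)
      have h3 : ((m : ℝ))⁻¹ ≤ 1 := inv_le_one_of_one_le₀ hm1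
      calc ((m : ℝ))⁻¹ * ‖adN N (((-((m : ℂ))⁻¹ • adN N) ^ k) C)‖ ≤ 1 * (2 * ‖N‖ * ((2 * ‖N‖) ^ k * ‖C‖)) := by
            refine mul_le_mul h3 (h2.trans (mul_le_mul_of_nonneg_left ih (by positivity))) (norm_nonneg _) (by norm_num)
        _ = _ := by ring
  rw [Rn, LinearMap.smul_apply, norm_smul, norm_inv, Complex.norm_natCast, LinearMap.sum_apply]
  have h2 : ‖∑ k ∈ Finset.range p, ((-((m : ℂ))⁻¹ • adN N) ^ k) C‖ ≤ ∑ k ∈ Finset.range p, (2 * ‖N‖) ^ k * ‖C‖ :=
    (norm_sum_le _ _).trans (Finset.sum_le_sum fun k _ => h1 k)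
  rw [← Finset.sum_mul] at h2
  calc ((m : ℝ))⁻¹ * ‖∑ k ∈ Finset.range p, ((-((m : ℂ))⁻¹ • adN N) ^ k) C‖ ≤
        ((m : ℝ))⁻¹ * ((∑ k ∈ Finset.range p, (2 * ‖N‖) ^ k) * ‖C‖) := mul_le_mul_of_nonneg_left h2 (by positivity)
    _ = _ := by
        rw [div_eq_mul_inv]
        ring

/-- the coefficients of the regular part of the fundamental matrix -/
noncomputable def hc (T : Polynomial ℂ) (A : ι → ι → Polynomial ℂ) (N : Matrix ι ι ℂ) (p : ℕ) : ℕ → Matrix ι ι ℂ
  | 0 => 1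
  | m + 1 => Rn N p (m + 1) ((T.coeff 0)⁻¹ • (∑ j : Fin (m + 1), (Matrix.of fun a b => (A a b).coeff (m - j)) * hc T A N p j -
      ∑ j : Fin (m + 1), T.coeff (m + 1 - j) • (((j : ℕ) : ℂ) • hc T A N p j + adN N (hc T A N p j))))

lemma hc_rec {T : Polynomial ℂ} (hT : T.coeff 0 ≠ 0) (A : ι → ι → Polynomial ℂ) {N : Matrix ι ι ℂ} {p : ℕ} (hp : adN N ^ p = 0) (m : ℕ) :
    ∑ j ∈ Finset.range (m + 2), T.coeff (m + 1 - j) • ((j : ℂ) • hc T A N p j + adN N (hc T A N p j)) =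
      ∑ j ∈ Finset.range (m + 1), (Matrix.of fun a b => (A a b).coeff (m - j)) * hc T A N p j := by
  rw [Finset.sum_range_succ, Finset.sum_range, Finset.sum_range (n := m + 1) (f := fun j => (Matrix.of fun a b => (A a b).coeff (m - j)) * hc T A N p j)]
  have h1 : ((m + 1 : ℕ) : ℂ) • hc T A N p (m + 1) + adN N (hc T A N p (m + 1)) =
      (T.coeff 0)⁻¹ • (∑ j : Fin (m + 1), (Matrix.of fun a b => (A a b).coeff (m - j)) * hc T A N p j -
      ∑ j : Fin (m + 1), T.coeff (m + 1 - j) • (((j : ℕ) : ℂ) • hc T A N p j + adN N (hc T A N p j))) := by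
    conv_lhs => rw [hc]
    exact Rn_spec hp (Nat.succ_pos m) _
  rw [h1, Nat.sub_self, smul_smul, mul_inv_cancel₀ hT, one_smul]
  abel

lemma hc_bound {T : Polynomial ℂ} (hT : T.coeff 0 ≠ 0) (A : ι → ι → Polynomial ℂ) (N : Matrix ι ι ℂ) (p : ℕ) :
    ∃ K : ℝ, 1 ≤ K ∧ ∀ m, ‖hc T A N p m‖ ≤ K ^ (m + 1) := by
  set r : ℝ := ∑ k ∈ Finset.range p, (2 * ‖N‖) ^ k with hr
  have hr0 : 0 ≤ r := Finset.sum_nonneg fun _ _ => by positivity
  have hT0 : 0 < ‖T.coeff 0‖ := norm_pos_iff.2 hT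
  -- bounds for the coefficients
  obtain ⟨a, ha0, ha⟩ : ∃ a : ℝ, 0 ≤ a ∧ ∀ m, ‖(Matrix.of fun i j => (A i j).coeff m : Matrix ι ι ℂ)‖ ≤ a := by
    set d := ∑ i, ∑ j, (A i j).natDegree with hd
    have hdeg : ∀ i j, (A i j).natDegree ≤ d := by
      intro i j
      have h1 := Finset.single_le_sum (f := fun j => (A i j).natDegree) (fun _ _ => Nat.zero_le _) (Finset.mem_univ j)
      have h2 := Finset.single_le_sum (f := fun i => ∑ j, (A i j).natDegree) (fun _ _ => Nat.zero_le _) (Finset.mem_univ i)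
      omega
    refine ⟨∑ m ∈ Finset.range (d + 1), ‖(Matrix.of fun i j => (A i j).coeff m : Matrix ι ι ℂ)‖,
      Finset.sum_nonneg fun _ _ => norm_nonneg _, fun m => ?_⟩
    rcases Nat.lt_or_ge m (d + 1) with hm | hm
    · exact Finset.single_le_sum (f := fun m => ‖(Matrix.of fun i j => (A i j).coeff m : Matrix ι ι ℂ)‖)
        (fun _ _ => norm_nonneg _) (Finset.mem_range.2 hm)
    · have h0 : (Matrix.of fun i j => (A i j).coeff m : Matrix ι ι ℂ) = 0 := by
        ext i j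
        rw [Matrix.of_apply, Polynomial.coeff_eq_zero_of_natDegree_lt (lt_of_le_of_lt (hdeg i j) (by omega))]
        rfl
      rw [h0, norm_zero]
      exact Finset.sum_nonneg fun _ _ => norm_nonneg _
  obtain ⟨τ, hτ0, hτ⟩ : ∃ a : ℝ, 0 ≤ a ∧ ∀ m, ‖T.coeff m‖ ≤ a := by
    refine ⟨nr T, nr_nonneg T, fun m => ?_⟩
    exact (Finset.single_le_sum (f := fun k => ‖T.coeff k‖) (fun _ _ => norm_nonneg _)
      (Finset.mem_range.2 (Nat.lt_succ_self m))).trans (sum_le_nr T m)
  set c : ℝ := r / ‖T.coeff 0‖ * (a + τ * (1 + 2 * ‖N‖)) with hc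
  have hc0 : 0 ≤ c := by positivity
  set K : ℝ := 1 + c with hK
  have hK1 : 1 ≤ K := by linarith
  set M : ℝ := ‖(1 : Matrix ι ι ℂ)‖ with hM
  have hM0 : 0 ≤ M := norm_nonneg _
  have key : ∀ m, ‖Pool.Agent.W5h35.IC.hc T A N p m‖ ≤ M * K ^ m := by
    intro m
    induction m using Nat.strong_induction_on with
    | _ m ih =>
      rcases m with _ | m
      · rw [pow_zero, mul_one, Pool.Agent.W5h35.IC.hc, hM]
      · rw [Pool.Agent.W5h35.IC.hc]
        have hgeo : ∑ j ∈ Finset.range (m + 1), K ^ j ≤ K ^ (m + 1) / c ∨ c = 0 := by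
          rcases hc0.eq_or_lt with h0 | h0
          · exact Or.inr h0.symm
          · left
            rw [le_div_iff₀ h0]
            have h1 := geom_sum_mul K (m + 1)
            have h2 : K - 1 = c := by rw [hK]; ring
            rw [h2] at h1
            rw [h1]
            linarith
        have h1 : ‖∑ j : Fin (m + 1), (Matrix.of fun a b => (A a b).coeff (m - j) : Matrix ι ι ℂ) * Pool.Agent.W5h35.IC.hc T A N p j‖ ≤
            a * M * ∑ j ∈ Finset.range (m + 1), K ^ j := by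
          rw [Finset.sum_range, Finset.mul_sum]
          refine (norm_sum_le _ _).trans (Finset.sum_le_sum fun j _ => ?_)
          refine (norm_mul_le _ _).trans ?_
          rw [mul_assoc]
          exact mul_le_mul (ha _) (ih j (by have := j.2; omega)) (norm_nonneg _) ha0
        have h2 : ‖∑ j : Fin (m + 1), T.coeff (m + 1 - j) • (((j : ℕ) : ℂ) • Pool.Agent.W5h35.IC.hc T A N p j +
            adN N (Pool.Agent.W5h35.IC.hc T A N p j))‖ ≤
            τ * ((m + 1) * (1 + 2 * ‖N‖)) * M * ∑ j ∈ Finset.range (m + 1), K ^ j := by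
          rw [Finset.sum_range, Finset.mul_sum]
          refine (norm_sum_le _ _).trans (Finset.sum_le_sum fun j _ => ?_)
          rw [norm_smul, mul_assoc, mul_assoc]
          refine mul_le_mul (hτ _) ?_ (norm_nonneg _) hτ0
          refine (norm_add_le _ _).trans ?_
          rw [norm_smul, Complex.norm_natCast]
          have e1 := ih j (by have := j.2; omega)
          have e2 := adN_norm N (Pool.Agent.W5h35.IC.hc T A N p j)
          have e3 : ((j : ℕ) : ℝ) ≤ (m : ℝ) + 1 := by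
            have : (j : ℕ) ≤ m + 1 := by have := j.2; omega
            exact_mod_cast this
          have e4 : (1 : ℝ) ≤ (m : ℝ) + 1 := by
            have : (0 : ℝ) ≤ m := by positivity
            linarith
          have e5 : 0 ≤ M * K ^ (j : ℕ) := by positivity
          have e6 := norm_nonneg N
          calc ((j : ℕ) : ℝ) * ‖Pool.Agent.W5h35.IC.hc T A N p j‖ + ‖adN N (Pool.Agent.W5h35.IC.hc T A N p j)‖ ≤
                (m + 1) * (M * K ^ (j : ℕ)) + 2 * ‖N‖ * (M * K ^ (j : ℕ)) := by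
                refine add_le_add (mul_le_mul e3 e1 (norm_nonneg _) (by positivity)) (e2.trans ?_)
                exact mul_le_mul_of_nonneg_left e1 (by positivity)
            _ ≤ (m + 1) * (1 + 2 * ‖N‖) * (M * K ^ (j : ℕ)) := by
                have : 0 ≤ (m : ℝ) * (2 * ‖N‖ * (M * K ^ (j : ℕ))) := by positivity
                nlinarith
        refine (Rn_norm N p (Nat.succ_pos m) _).trans ?_
        rw [norm_smul, norm_inv]
        have h3 : ‖∑ j : Fin (m + 1), (Matrix.of fun a b => (A a b).coeff (m - j) : Matrix ι ι ℂ) * Pool.Agent.W5h35.IC.hc T A N p j -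
            ∑ j : Fin (m + 1), T.coeff (m + 1 - j) • (((j : ℕ) : ℂ) • Pool.Agent.W5h35.IC.hc T A N p j +
            adN N (Pool.Agent.W5h35.IC.hc T A N p j))‖ ≤ (m + 1) * (a + τ * (1 + 2 * ‖N‖)) * M * ∑ j ∈ Finset.range (m + 1), K ^ j := by
          refine (norm_sub_le _ _).trans ((add_le_add h1 h2).trans ?_)
          have e1 : 0 ≤ M * ∑ j ∈ Finset.range (m + 1), K ^ j := by positivity
          have e2 : 0 ≤ (m : ℝ) * (a * (M * ∑ j ∈ Finset.range (m + 1), K ^ j)) := by positivity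
          nlinarith
        have hm0 : (0 : ℝ) < ((m + 1 : ℕ) : ℝ) := by positivity
        calc r * (‖T.coeff 0‖⁻¹ * ‖∑ j : Fin (m + 1), (Matrix.of fun a b => (A a b).coeff (m - j) : Matrix ι ι ℂ) * Pool.Agent.W5h35.IC.hc T A N p j -
            ∑ j : Fin (m + 1), T.coeff (m + 1 - j) • (((j : ℕ) : ℂ) • Pool.Agent.W5h35.IC.hc T A N p j +
            adN N (Pool.Agent.W5h35.IC.hc T A N p j))‖ / ((m + 1 : ℕ) : ℝ)) ≤
              r * (‖T.coeff 0‖⁻¹ * ((m + 1) * (a + τ * (1 + 2 * ‖N‖)) * M * ∑ j ∈ Finset.range (m + 1), K ^ j) / ((m + 1 : ℕ) : ℝ)) := by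
              gcongr
          _ = c * M * ∑ j ∈ Finset.range (m + 1), K ^ j := by
              rw [hc]
              push_cast
              field_simp
          _ ≤ M * K ^ (m + 1) := by
              rcases hgeo with h4 | h4
              · rcases hc0.eq_or_lt with h0 | h0
                · rw [← h0, zero_mul, zero_mul]
                  positivity
                · calc c * M * ∑ j ∈ Finset.range (m + 1), K ^ j ≤ c * M * (K ^ (m + 1) / c) :=
                        mul_le_mul_of_nonneg_left h4 (by positivity)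
                    _ = _ := by field_simp
              · rw [h4, zero_mul, zero_mul]
                positivity
  refine ⟨(M + 1) * K, ?_, fun m => (key m).trans ?_⟩
  · exact one_le_mul_of_one_le_of_one_le (by linarith) hK1
  · rw [mul_pow]
    have e0 : (0 : ℝ) ≤ (M + 1) ^ (m + 1) := pow_nonneg (by linarith) _
    have e3 : (0 : ℝ) ≤ K ^ m := pow_nonneg (by linarith) _
    refine mul_le_mul ?_ (pow_le_pow_right₀ hK1 (Nat.le_succ m)) e3 e0
    have e1 : M ≤ M + 1 := by linarith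
    have e2 : M + 1 ≤ (M + 1) ^ (m + 1) := le_self_pow₀ (by linarith) (by omega)
    exact e1.trans e2

lemma entry_le (M : Matrix ι ι ℂ) (i j : ι) : ‖M i j‖ ≤ ‖M‖ := by
  have h1 : ‖M i j‖ ≤ ∑ j, ‖M i j‖ := Finset.single_le_sum (f := fun j => ‖M i j‖) (fun _ _ => norm_nonneg _) (Finset.mem_univ j)
  refine h1.trans ?_
  rw [Matrix.linfty_opNorm_def]
  have h2 : (∑ j, ‖M i j‖₊ : NNReal) ≤ Finset.univ.sup fun i : ι => ∑ j : ι, ‖M i j‖₊ :=
    Finset.le_sup (f := fun i : ι => ∑ j : ι, ‖M i j‖₊) (Finset.mem_univ i)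
  calc ∑ j, ‖M i j‖ = ((∑ j, ‖M i j‖₊ : NNReal) : ℝ) := by
        push_cast
        rfl
    _ ≤ _ := NNReal.coe_le_coe.2 h2

end

end Pool.Agent.W5h35.IC
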