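import Pool.Agent.W5h35.IC.Nil

/-!
# Linear differential systems with a nilpotent residue at zero: the local condition
-/

set_option autoImplicit false

open PowerSeries Pool.Agent.Y113 Pool.Agent.Y120.GF Pool.Agent.Y120.GH

namespace Pool.Agent.W5h35.IC

attribute [local instance] Matrix.linftyOpNormedAddCommGroup Matrix.linftyOpNormedRing Matrix.linftyOpNormedSpace

variable {ι : Type} [Fintype ι] [DecidableEq ι]

/-- the regular part of the fundamental matrix -/
noncomputable def Hm (T : Polynomial ℂ) (A : ι → ι → Polynomial ℂ) (N : Matrix ι ι ℂ) (p : ℕ) : Matrix ι ι (PowerSeries ℂ) :=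
  Matrix.of fun i j => PowerSeries.mk fun m => hc T A N p m i j

lemma coeff_Hm (T : Polynomial ℂ) (A : ι → ι → Polynomial ℂ) (N : Matrix ι ι ℂ) (p m : ℕ) (i j : ι) :
    coeff m (Hm T A N p i j) = hc T A N p m i j := by
  rw [Hm, Matrix.of_apply, coeff_mk]

lemma Hm_eqn {T : Polynomial ℂ} (hT : T.coeff 0 ≠ 0) (A : ι → ι → Polynomial ℂ) {N : Matrix ι ι ℂ} {p : ℕ} (hp : adN N ^ p = 0) (i j : ι) :
    (T : PowerSeries ℂ) * (X * PowerSeries.derivative ℂ (Hm T A N p i j) + ∑ l, Hm T A N p i l * C (N l j) -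
      ∑ l, C (N i l) * Hm T A N p l j) = X * ∑ l, (A i l : PowerSeries ℂ) * Hm T A N p l j := by
  set h := hc T A N p with hh
  have hg : ∀ m, coeff m (X * PowerSeries.derivative ℂ (Hm T A N p i j) + ∑ l, Hm T A N p i l * C (N l j) -
      ∑ l, C (N i l) * Hm T A N p l j) = ((m : ℂ) • h m + adN N (h m)) i j := by
    intro m
    rw [map_sub, map_add, map_sum, map_sum, Matrix.add_apply, Matrix.smul_apply, adN_apply, Matrix.sub_apply,
      Matrix.mul_apply, Matrix.mul_apply, smul_eq_mul]
    have e1 : coeff m (X * PowerSeries.derivative ℂ (Hm T A N p i j)) = (m : ℂ) * h m i j := by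
      cases m with
      | zero => simp
      | succ m =>
        rw [mul_comm X, coeff_succ_mul_X, coeff_derivative, coeff_Hm]
        push_cast
        ring
    have e2 : ∀ l, coeff m (Hm T A N p i l * C (N l j)) = h m i l * N l j := fun l => by rw [coeff_mul_C, coeff_Hm]
    have e3 : ∀ l, coeff m (C (N i l) * Hm T A N p l j) = N i l * h m l j := fun l => by rw [coeff_C_mul, coeff_Hm]
    rw [e1, Finset.sum_congr rfl fun l _ => e2 l, Finset.sum_congr rfl fun l _ => e3 l]
    ring
  ext m
  rw [coeff_mul]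
  simp only [hg, Polynomial.coeff_coe]
  rcases m with _ | m
  · rw [Finset.Nat.antidiagonal_zero, Finset.sum_singleton]
    have h0 : h 0 = 1 := by rw [hh, hc]
    rw [h0, adN_apply]
    simp
  · have h1 := congrFun (congrFun (hc_rec hT A hp m) i) j
    rw [← hh, Matrix.sum_apply, Matrix.sum_apply] at h1
    simp only [Matrix.smul_apply, smul_eq_mul, Matrix.mul_apply, Matrix.of_apply] at h1
    rw [← Finset.Nat.sum_antidiagonal_swap, Finset.Nat.sum_antidiagonal_eq_sum_range_succ_mk]
    simp only [Prod.swap]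
    rw [mul_comm X, coeff_succ_mul_X, map_sum]
    refine h1.trans ?_
    rw [Finset.sum_comm]
    refine Finset.sum_congr rfl fun l _ => ?_
    rw [coeff_mul, ← Finset.Nat.sum_antidiagonal_swap, Finset.Nat.sum_antidiagonal_eq_sum_range_succ_mk]
    refine Finset.sum_congr rfl fun k _ => ?_
    simp only [Prod.swap, coeff_Hm, Polynomial.coeff_coe]
    rw [hh]

/-- a system with a nilpotent residue satisfies the local condition -/
theorem qu_nilp {T₁ T : Polynomial ℤ} {A' A : ι → ι → Polynomial ℤ} {N : Matrix ι ι ℤ} (hT₁ : T₁.coeff 0 ≠ 0)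
    (hN : IsNilpotent N) (hT : T = Polynomial.X * T₁)
    (hA : ∀ i j, A i j = Polynomial.X * A' i j + T₁ * Polynomial.C (N i j)) : QU0 T A := by
  set Tc : Polynomial ℂ := T₁.map (Int.castRingHom ℂ) with hTc
  set Ac : ι → ι → Polynomial ℂ := fun i j => (A' i j).map (Int.castRingHom ℂ) with hAc
  set Nc : Matrix ι ι ℂ := N.map (Int.castRingHom ℂ) with hNc
  have hT0 : Tc.coeff 0 ≠ 0 := by
    rw [hTc, Polynomial.coeff_map, eq_intCast]
    intro h
    apply hT₁
    exact_mod_cast h
  have hNn : IsNilpotent Nc := by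
    obtain ⟨k, hk⟩ := hN
    refine ⟨k, ?_⟩
    have h1 : Nc = (Int.castRingHom ℂ).mapMatrix N := rfl
    rw [h1, ← map_pow, hk, map_zero]
  obtain ⟨q, hq⟩ := hNn
  obtain ⟨p, hp⟩ := adN_nilp (N := Nc) ⟨q, hq⟩
  obtain ⟨K, hK1, hK⟩ := hc_bound hT0 Ac Nc p
  set H := Hm Tc Ac Nc p with hH
  set W : ℕ → ι → ι → PowerSeries ℂ := fun k i j => C ((k.factorial : ℂ)⁻¹) * ∑ l, H i l * C ((Nc ^ k) l j) with hW
  have hW0 : ∀ k, q ≤ k → ∀ i j, W k i j = 0 := by
    intro k hk i j
    have : Nc ^ k = 0 := pow_eq_zero_of_le hk hq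
    rw [hW]
    simp only
    rw [this]
    simp
  set Φ : Matrix ι ι (Polynomial (PowerSeries ℂ)) := Matrix.of fun i j => ∑ k ∈ Finset.range q, Polynomial.monomial k (W k i j) with hΦ
  have hΦc : ∀ i j k, (Φ i j).coeff k = W k i j := by
    intro i j k
    rw [hΦ, Matrix.of_apply, Polynomial.finsetSum_coeff]
    simp only [Polynomial.coeff_monomial]
    rw [Finset.sum_ite_eq' (Finset.range q) k]
    split_ifs with h
    · rfl
    · rw [Finset.mem_range, not_lt] at h
      rw [hW0 k h]
  set ν : ℝ := 1 + ∑ k ∈ Finset.range q, ‖Nc ^ k‖ with hν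
  have hν1 : 1 ≤ ν := by
    have : 0 ≤ ∑ k ∈ Finset.range q, ‖Nc ^ k‖ := Finset.sum_nonneg fun _ _ => norm_nonneg _
    linarith
  refine ⟨1, one_ne_zero, 0, K * ν, Φ, fun i j k m => ?_, fun i j k => ?_, ?_⟩
  · rw [hΦc]
    rcases Nat.lt_or_ge k q with hk | hk
    · have h1 : coeff m (W k i j) = (k.factorial : ℂ)⁻¹ * (hc Tc Ac Nc p m * Nc ^ k) i j := by
        rw [hW]
        simp only
        rw [coeff_C_mul, map_sum, Matrix.mul_apply]
        congr 1
        refine Finset.sum_congr rfl fun l _ => ?_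
        rw [coeff_mul_C, hH, coeff_Hm]
      rw [h1, norm_mul, norm_inv, Complex.norm_natCast]
      have h2 : ((k.factorial : ℝ))⁻¹ ≤ 1 := inv_le_one_of_one_le₀ (by exact_mod_cast Nat.one_le_iff_ne_zero.2 (Nat.factorial_ne_zero k))
      have h3 : ‖(hc Tc Ac Nc p m * Nc ^ k) i j‖ ≤ K ^ (m + 1) * ν ^ (m + 1) := by
        refine (entry_le _ i j).trans ((norm_mul_le _ _).trans ?_)
        have h4 : ‖Nc ^ k‖ ≤ ν := by
          have := Finset.single_le_sum (f := fun k => ‖Nc ^ k‖) (fun _ _ => norm_nonneg _) (Finset.mem_range.2 hk)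
          linarith
        refine mul_le_mul (hK m) (h4.trans (le_self_pow₀ hν1 (by omega))) (norm_nonneg _) (by positivity)
      calc ((k.factorial : ℝ))⁻¹ * ‖(hc Tc Ac Nc p m * Nc ^ k) i j‖ ≤ 1 * (K ^ (m + 1) * ν ^ (m + 1)) :=
            mul_le_mul h2 h3 (norm_nonneg _) (by norm_num)
        _ = _ := by rw [one_mul, mul_pow]
    · rw [hW0 k hk, map_zero, norm_zero]
      positivity
  · rw [PowerSeries.expand_one_apply]
    simp only [PowerSeries.expand_one_apply, hΦc, Nat.cast_zero, zero_mul, sub_zero, Nat.cast_one, one_mul, pow_one]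
    have hTf : ((T.map (Int.castRingHom ℂ) : Polynomial ℂ) : PowerSeries ℂ) = X * (Tc : PowerSeries ℂ) := by
      rw [hT, Polynomial.map_mul, Polynomial.map_X, Polynomial.coe_mul, Polynomial.coe_X]
    have hAf : ∀ l, (((A i l).map (Int.castRingHom ℂ) : Polynomial ℂ) : PowerSeries ℂ) =
        X * (Ac i l : PowerSeries ℂ) + (Tc : PowerSeries ℂ) * C (Nc i l) := by
      intro l
      rw [hA, Polynomial.map_add, Polynomial.map_mul, Polynomial.map_mul, Polynomial.map_X, Polynomial.map_C,
        Polynomial.coe_add, Polynomial.coe_mul, Polynomial.coe_mul, Polynomial.coe_X, Polynomial.coe_C]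
      rfl
    have hd : PowerSeries.derivative ℂ (W k i j) = C ((k.factorial : ℂ)⁻¹) * ∑ l, PowerSeries.derivative ℂ (H i l) * C ((Nc ^ k) l j) := by
      rw [hW]
      simp only
      rw [Derivation.leibniz, PowerSeries.derivative_C, map_sum]
      simp only [Derivation.leibniz, PowerSeries.derivative_C, smul_eq_mul, mul_zero, zero_add, add_zero]
      congr 1
      refine Finset.sum_congr rfl fun l _ => mul_comm _ _
    have hk1 : ((k : PowerSeries ℂ) + 1) * W (k + 1) i j = C ((k.factorial : ℂ)⁻¹) * ∑ l, (∑ e, H i e * C (Nc e l)) * C ((Nc ^ k) l j) := by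
      have h1 : ((k : PowerSeries ℂ) + 1) * C (((k + 1).factorial : ℂ)⁻¹) = C ((k.factorial : ℂ)⁻¹) := by
        have e1 : ((k : PowerSeries ℂ) + 1) = C ((k : ℂ) + 1) := by simp
        rw [e1, ← map_mul, Nat.factorial_succ]
        congr 1
        have e2 : ((k : ℂ) + 1) ≠ 0 := by exact_mod_cast Nat.succ_ne_zero k
        have e3 : (k.factorial : ℂ) ≠ 0 := by exact_mod_cast Nat.factorial_ne_zero k
        push_cast
        field_simp
      rw [hW]
      simp only
      rw [← mul_assoc, h1]
      congr 1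
      have h2 : ∀ l, C ((Nc ^ (k + 1)) l j) = ∑ e, C (Nc l e) * C ((Nc ^ k) e j) := by
        intro l
        rw [pow_succ', Matrix.mul_apply, map_sum]
        exact Finset.sum_congr rfl fun e _ => map_mul _ _ _
      simp only [h2, Finset.mul_sum, Finset.sum_mul]
      rw [Finset.sum_comm]
      refine Finset.sum_congr rfl fun e _ => Finset.sum_congr rfl fun l _ => ?_
      ring
    rw [hTf, hd, hk1]
    simp only [hAf]
    have hkey : ∀ l, (Tc : PowerSeries ℂ) * (X * PowerSeries.derivative ℂ (H i l) + ∑ e, H i e * C (Nc e l)) =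
        ∑ e, (X * (Ac i e : PowerSeries ℂ) + (Tc : PowerSeries ℂ) * C (Nc i e)) * H e l := by
      intro l
      have h1 := Hm_eqn hT0 Ac hp i l
      rw [← hH] at h1
      have h2 : ∑ e, (X * (Ac i e : PowerSeries ℂ) + (Tc : PowerSeries ℂ) * C (Nc i e)) * H e l =
          X * ∑ e, (Ac i e : PowerSeries ℂ) * H e l + (Tc : PowerSeries ℂ) * ∑ e, C (Nc i e) * H e l := by
        rw [Finset.mul_sum, Finset.mul_sum, ← Finset.sum_add_distrib]
        exact Finset.sum_congr rfl fun e _ => by ring
      rw [h2, ← h1]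
      ring
    calc X * (Tc : PowerSeries ℂ) * (X * (C ((k.factorial : ℂ)⁻¹) * ∑ l, PowerSeries.derivative ℂ (H i l) * C ((Nc ^ k) l j)) +
          C ((k.factorial : ℂ)⁻¹) * ∑ l, (∑ e, H i e * C (Nc e l)) * C ((Nc ^ k) l j)) =
          X * (C ((k.factorial : ℂ)⁻¹) * ∑ l, ((Tc : PowerSeries ℂ) * (X * PowerSeries.derivative ℂ (H i l) + ∑ e, H i e * C (Nc e l))) *
            C ((Nc ^ k) l j)) := by
          have e1 : ∑ l, ((Tc : PowerSeries ℂ) * (X * PowerSeries.derivative ℂ (H i l) + ∑ e, H i e * C (Nc e l))) * C ((Nc ^ k) l j) =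
              (Tc : PowerSeries ℂ) * (X * ∑ l, PowerSeries.derivative ℂ (H i l) * C ((Nc ^ k) l j) +
                ∑ l, (∑ e, H i e * C (Nc e l)) * C ((Nc ^ k) l j)) := by
            rw [Finset.mul_sum (a := X), ← Finset.sum_add_distrib, Finset.mul_sum]
            exact Finset.sum_congr rfl fun l _ => by ring
          rw [e1]
          ring
      _ = _ := by
          simp only [hkey]
          rw [hW]
          simp only [Finset.mul_sum, Finset.sum_mul]
          rw [Finset.sum_comm]
          refine Finset.sum_congr rfl fun e _ => Finset.sum_congr rfl fun l _ => ?_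
          ring
  · intro h0
    have h1 := congrArg (Polynomial.constantCoeff (R := PowerSeries ℂ)) h0
    rw [RingHom.map_det, map_zero] at h1
    have h2 : (Polynomial.constantCoeff (R := PowerSeries ℂ)).mapMatrix Φ = H := by
      ext1 i j
      rw [RingHom.mapMatrix_apply, Matrix.map_apply, Polynomial.constantCoeff_apply, hΦc, hW]
      simp only
      rw [Nat.factorial_zero, Nat.cast_one, inv_one, map_one, one_mul, pow_zero, Finset.sum_eq_single j]
      · rw [Matrix.one_apply_eq, map_one, mul_one]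
      · intro l _ hl
        rw [Matrix.one_apply_ne hl, map_zero, mul_zero]
      · intro h
        exact absurd (Finset.mem_univ _) h
    rw [h2] at h1
    have h3 := congrArg (constantCoeff (R := ℂ)) h1
    rw [RingHom.map_det, map_zero] at h3
    have h4 : (constantCoeff (R := ℂ)).mapMatrix H = 1 := by
      ext i j
      rw [RingHom.mapMatrix_apply, Matrix.map_apply, ← coeff_zero_eq_constantCoeff_apply, hH, coeff_Hm, hc]
    rw [h4, Matrix.det_one] at h3
    exact one_ne_zero h3

end Pool.Agent.W5h35.IC
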