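import Pool.Agent.Y120.H.Fml

/-!
# Linear differential systems at an ordinary point
-/

set_option autoImplicit false

open PowerSeries Pool.Agent.Y113 Pool.Agent.Y120.GF Pool.Agent.Y120.GH

namespace Pool.Agent.W5h35.IC

/-- the sum of the absolute values of the coefficients -/
noncomputable def nr (P : Polynomial ℂ) : ℝ := ∑ k ∈ Finset.range (P.natDegree + 1), ‖P.coeff k‖

lemma nr_nonneg (P : Polynomial ℂ) : 0 ≤ nr P := Finset.sum_nonneg fun _ _ => norm_nonneg _

lemma sum_le_nr (P : Polynomial ℂ) (m : ℕ) : ∑ k ∈ Finset.range (m + 1), ‖P.coeff k‖ ≤ nr P := by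
  have h1 : ∑ k ∈ Finset.range (m + 1), ‖P.coeff k‖ = ∑ k ∈ (Finset.range (m + 1)).filter (fun k => k ≤ P.natDegree), ‖P.coeff k‖ := by
    symm
    refine Finset.sum_subset (Finset.filter_subset _ _) fun k hk hk' => ?_
    have : P.natDegree < k := by
      by_contra h
      exact hk' (Finset.mem_filter.2 ⟨hk, by omega⟩)
    rw [Polynomial.coeff_eq_zero_of_natDegree_lt this, norm_zero]
  rw [h1]
  refine Finset.sum_le_sum_of_subset_of_nonneg ?_ fun _ _ _ => norm_nonneg _
  intro k hk
  have := (Finset.mem_filter.1 hk).2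
  exact Finset.mem_range.2 (by omega)

lemma sum_anti_le (P : Polynomial ℂ) (m : ℕ) : ∑ p ∈ Finset.HasAntidiagonal.antidiagonal m, ‖P.coeff p.1‖ ≤ nr P := by
  rw [Finset.Nat.sum_antidiagonal_eq_sum_range_succ_mk]
  exact sum_le_nr P m

/-- the coefficients of the solutions grow at most geometrically -/
theorem growth {ι : Type} [Fintype ι] {T : Polynomial ℂ} {A : ι → ι → Polynomial ℂ} (hT : T.coeff 0 ≠ 0)
    {Y : ι → PowerSeries ℂ}
    (h : ∀ i, (T : PowerSeries ℂ) * PowerSeries.derivative ℂ (Y i) = ∑ j, (A i j : PowerSeries ℂ) * Y j) :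
    ∃ K : ℝ, 1 ≤ K ∧ ∀ i m, ‖coeff m (Y i)‖ ≤ K ^ (m + 1) := by
  classical
  have hT0 : 0 < ‖T.coeff 0‖ := norm_pos_iff.2 hT
  set N : ℝ := nr T + ∑ i, ∑ j, nr (A i j) with hN
  have hN0 : 0 ≤ ∑ i, ∑ j, nr (A i j) := Finset.sum_nonneg fun i _ => Finset.sum_nonneg fun j _ => nr_nonneg _
  set K : ℝ := N / ‖T.coeff 0‖ + 1 with hK
  have hNN : 0 ≤ N := by
    have := nr_nonneg T
    linarith
  have hK1 : 1 ≤ K := by
    have : 0 ≤ N / ‖T.coeff 0‖ := by positivity
    linarith
  have hNK : N ≤ K * ‖T.coeff 0‖ := by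
    rw [hK, add_mul, div_mul_cancel₀ _ hT0.ne']
    linarith
  set M : ℝ := ∑ i, ‖coeff 0 (Y i)‖ with hM
  have hM0 : 0 ≤ M := Finset.sum_nonneg fun _ _ => norm_nonneg _
  have key : ∀ m i, ‖coeff m (Y i)‖ ≤ M * K ^ m := by
    intro m
    induction m using Nat.strong_induction_on with
    | _ m ih =>
      intro i
      rcases m with _ | m
      · rw [pow_zero, mul_one]
        exact Finset.single_le_sum (f := fun i => ‖coeff 0 (Y i)‖) (fun _ _ => norm_nonneg _) (Finset.mem_univ i)
      · have h1 := congrArg (coeff m) (h i)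
        rw [coeff_mul, map_sum] at h1
        have h0m : ((0, m) : ℕ × ℕ) ∈ Finset.HasAntidiagonal.antidiagonal m := by simp
        rw [← Finset.add_sum_erase _ _ h0m] at h1
        simp only [coeff_derivative, Polynomial.coeff_coe] at h1
        have h2 : T.coeff 0 * (coeff (m + 1) (Y i) * ((m : ℂ) + 1)) =
            (∑ j, coeff m ((A i j : PowerSeries ℂ) * Y j)) -
            ∑ p ∈ (Finset.HasAntidiagonal.antidiagonal m).erase (0, m), T.coeff p.1 * (coeff (p.2 + 1) (Y i) * ((p.2 : ℂ) + 1)) := by
          rw [← h1]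
          ring
        have h3 : ‖∑ j, coeff m ((A i j : PowerSeries ℂ) * Y j)‖ ≤ ∑ j, nr (A i j) * (M * K ^ m) := by
          refine (norm_sum_le _ _).trans (Finset.sum_le_sum fun j _ => ?_)
          rw [coeff_mul]
          refine (norm_sum_le _ _).trans ?_
          refine (Finset.sum_le_sum (g := fun p => ‖(A i j).coeff p.1‖ * (M * K ^ m)) fun p hp => ?_).trans ?_
          · rw [Finset.HasAntidiagonal.mem_antidiagonal] at hp
            rw [norm_mul, Polynomial.coeff_coe]
            refine mul_le_mul_of_nonneg_left ?_ (norm_nonneg _)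
            refine (ih p.2 (by omega) j).trans (mul_le_mul_of_nonneg_left ?_ hM0)
            exact pow_le_pow_right₀ hK1 (by omega)
          · rw [← Finset.sum_mul]
            exact mul_le_mul_of_nonneg_right (sum_anti_le _ _) (by positivity)
        have h4 : ‖∑ p ∈ (Finset.HasAntidiagonal.antidiagonal m).erase (0, m), T.coeff p.1 * (coeff (p.2 + 1) (Y i) * ((p.2 : ℂ) + 1))‖ ≤
            nr T * (M * K ^ m * (m + 1)) := by
          refine (norm_sum_le _ _).trans ?_
          refine (Finset.sum_le_sum (g := fun p => ‖T.coeff p.1‖ * (M * K ^ m * (m + 1))) fun p hp => ?_).trans ?_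
          · have hp' := Finset.mem_of_mem_erase hp
            have hne := Finset.ne_of_mem_erase hp
            rw [Finset.HasAntidiagonal.mem_antidiagonal] at hp'
            have hp1 : p.1 ≠ 0 := by
              intro h0
              apply hne
              refine Prod.ext h0 ?_
              show p.2 = m
              omega
            rw [norm_mul, norm_mul]
            refine mul_le_mul_of_nonneg_left ?_ (norm_nonneg _)
            have e1 : ‖((p.2 : ℂ) + 1)‖ ≤ (m : ℝ) + 1 := by
              have : ((p.2 : ℂ) + 1) = (((p.2 + 1 : ℕ)) : ℂ) := by push_cast; rfl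
              rw [this, Complex.norm_natCast]
              have : p.2 + 1 ≤ m + 1 := by omega
              exact_mod_cast this
            refine mul_le_mul ?_ e1 (norm_nonneg _) (by positivity)
            refine (ih (p.2 + 1) (by omega) i).trans (mul_le_mul_of_nonneg_left ?_ hM0)
            exact pow_le_pow_right₀ hK1 (by omega)
          · refine (Finset.sum_le_sum_of_subset_of_nonneg (Finset.erase_subset _ _) fun _ _ _ => by positivity).trans ?_
            rw [← Finset.sum_mul]
            exact mul_le_mul_of_nonneg_right (sum_anti_le _ _) (by positivity)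
        have h5 : ‖T.coeff 0‖ * (‖coeff (m + 1) (Y i)‖ * ((m : ℝ) + 1)) ≤
            (∑ j, nr (A i j) * (M * K ^ m)) + nr T * (M * K ^ m * (m + 1)) := by
          have e1 : ‖T.coeff 0 * (coeff (m + 1) (Y i) * ((m : ℂ) + 1))‖ =
              ‖T.coeff 0‖ * (‖coeff (m + 1) (Y i)‖ * ((m : ℝ) + 1)) := by
            rw [norm_mul, norm_mul]
            congr 2
            have : ((m : ℂ) + 1) = (((m + 1 : ℕ)) : ℂ) := by push_cast; rfl
            rw [this, Complex.norm_natCast]
            push_cast
            rfl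
          rw [← e1, h2]
          exact (norm_sub_le _ _).trans (add_le_add h3 h4)
        have h6 : ∑ j, nr (A i j) * (M * K ^ m) ≤ (∑ i, ∑ j, nr (A i j)) * (M * K ^ m * (m + 1)) := by
          rw [← Finset.sum_mul]
          refine mul_le_mul ?_ ?_ (by positivity) hN0
          · exact Finset.single_le_sum (f := fun i => ∑ j, nr (A i j))
              (fun i _ => Finset.sum_nonneg fun j _ => nr_nonneg _) (Finset.mem_univ i)
          · refine le_mul_of_one_le_right (by positivity) ?_
            have : (0 : ℝ) ≤ m := by positivity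
            linarith
        have h7 : ‖T.coeff 0‖ * (‖coeff (m + 1) (Y i)‖ * ((m : ℝ) + 1)) ≤
            ‖T.coeff 0‖ * ((M * K ^ (m + 1)) * ((m : ℝ) + 1)) := by
          calc _ ≤ N * (M * K ^ m * (m + 1)) := by
                rw [hN, add_mul]
                linarith
            _ ≤ (K * ‖T.coeff 0‖) * (M * K ^ m * (m + 1)) := mul_le_mul_of_nonneg_right hNK (by positivity)
            _ = _ := by ring
        have h8 := le_of_mul_le_mul_left h7 hT0
        exact le_of_mul_le_mul_right h8 (by positivity)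
  refine ⟨(M + 1) * K, ?_, fun i m => (key m i).trans ?_⟩
  · exact one_le_mul_of_one_le_of_one_le (by linarith) hK1
  · rw [mul_pow]
    refine mul_le_mul ?_ (pow_le_pow_right₀ hK1 (by omega)) (by positivity) (by positivity)
    exact (by linarith : M ≤ M + 1).trans (le_self_pow₀ (by linarith) (by omega))

/-- the coefficients of the fundamental matrix -/
noncomputable def zc {ι : Type} [Fintype ι] [DecidableEq ι] (B : ℕ → Matrix ι ι ℂ) : ℕ → Matrix ι ι ℂ
  | 0 => 1
  | m + 1 => ((m : ℂ) + 1)⁻¹ • ∑ i : Fin (m + 1), B (m - i) * zc B i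

/-- the fundamental matrix -/
theorem exists_fund {ι : Type} [Fintype ι] [DecidableEq ι] {T : Polynomial ℂ} {A : ι → ι → Polynomial ℂ} (hT : T.coeff 0 ≠ 0) :
    ∃ Z : Matrix ι ι (PowerSeries ℂ), (∀ i j, (T : PowerSeries ℂ) * PowerSeries.derivative ℂ (Z i j) =
      ∑ l, (A i l : PowerSeries ℂ) * Z l j) ∧ Z.det ≠ 0 := by
  classical
  set Bs : ι → ι → PowerSeries ℂ := fun i j => (T : PowerSeries ℂ)⁻¹ * (A i j : PowerSeries ℂ) with hBs
  have hTc : constantCoeff (T : PowerSeries ℂ) ≠ 0 := by
    rw [← coeff_zero_eq_constantCoeff_apply, Polynomial.coeff_coe]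
    exact hT
  have hTB : ∀ i j, (T : PowerSeries ℂ) * Bs i j = (A i j : PowerSeries ℂ) := by
    intro i j
    rw [hBs]
    simp only
    rw [← mul_assoc, PowerSeries.mul_inv_cancel _ hTc, one_mul]
  set B : ℕ → Matrix ι ι ℂ := fun m => Matrix.of fun i j => coeff m (Bs i j) with hB
  set Z : Matrix ι ι (PowerSeries ℂ) := Matrix.of fun i j => PowerSeries.mk fun m => zc B m i j with hZ
  have hZc : ∀ i j m, coeff m (Z i j) = zc B m i j := by
    intro i j m
    rw [hZ, Matrix.of_apply, coeff_mk]
  have hder : ∀ i j, PowerSeries.derivative ℂ (Z i j) = ∑ l, Bs i l * Z l j := by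
    intro i j
    ext m
    rw [coeff_derivative, hZc, zc, Matrix.smul_apply, smul_eq_mul, map_sum]
    have hm : ((m : ℂ) + 1) ≠ 0 := by exact_mod_cast Nat.succ_ne_zero m
    rw [mul_comm, ← mul_assoc, mul_inv_cancel₀ hm, one_mul, Matrix.sum_apply]
    simp only [Matrix.mul_apply, coeff_mul]
    rw [Finset.sum_comm]
    refine Finset.sum_congr rfl fun l _ => ?_
    rw [← Finset.Nat.sum_antidiagonal_swap, Finset.Nat.sum_antidiagonal_eq_sum_range_succ_mk, Finset.sum_range]
    refine Finset.sum_congr rfl fun k _ => ?_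
    simp only [Prod.swap]
    rw [hZc, hB]
    rfl
  refine ⟨Z, fun i j => ?_, ?_⟩
  · rw [hder, Finset.mul_sum]
    refine Finset.sum_congr rfl fun l _ => ?_
    rw [← mul_assoc, hTB]
  · intro h0
    have h1 := congrArg (constantCoeff (R := ℂ)) h0
    rw [RingHom.map_det, map_zero] at h1
    have h2 : (constantCoeff (R := ℂ)).mapMatrix Z = 1 := by
      ext i j
      rw [RingHom.mapMatrix_apply, Matrix.map_apply, ← coeff_zero_eq_constantCoeff_apply, hZc, zc]
    rw [h2, Matrix.det_one] at h1
    exact one_ne_zero h1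

/-- an ordinary point satisfies the local condition -/
theorem qu_ord {ι : Type} [Fintype ι] [DecidableEq ι] {T : Polynomial ℤ} {A : ι → ι → Polynomial ℤ} (hT : T.coeff 0 ≠ 0) :
    QU0 T A := by
  classical
  set Tc : Polynomial ℂ := T.map (Int.castRingHom ℂ) with hTc
  set Ac : ι → ι → Polynomial ℂ := fun i j => (A i j).map (Int.castRingHom ℂ) with hAc
  have hT0 : Tc.coeff 0 ≠ 0 := by
    rw [hTc, Polynomial.coeff_map, eq_intCast]
    intro h
    apply hT
    exact_mod_cast h
  obtain ⟨Z, hZ, hdet⟩ := exists_fund (A := Ac) hT0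
  -- bounds
  have hb : ∀ j, ∃ K : ℝ, 1 ≤ K ∧ ∀ i m, ‖coeff m (Z i j)‖ ≤ K ^ (m + 1) := fun j => growth hT0 fun i => hZ i j
  choose K hK1 hK using hb
  set K' : ℝ := 1 + ∑ j, K j with hK'
  have hKs : ∀ j, K j ≤ K' := by
    intro j
    have h1 := Finset.single_le_sum (f := K) (fun j _ => by linarith [hK1 j]) (Finset.mem_univ j)
    linarith
  refine ⟨1, one_ne_zero, 0, K', Z.map Polynomial.C, fun i j k m => ?_, fun i j k => ?_, ?_⟩
  · rw [Matrix.map_apply, Polynomial.coeff_C]
    have hK0 : 0 ≤ K' := by linarith [hK1 j, hKs j]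
    split_ifs
    · exact (hK j i m).trans (pow_le_pow_left₀ (by linarith [hK1 j]) (hKs j) _)
    · rw [map_zero, norm_zero]
      positivity
  · rw [PowerSeries.expand_one_apply]
    simp only [PowerSeries.expand_one_apply, Matrix.map_apply, Polynomial.coeff_C, Nat.succ_ne_zero, if_false]
    rcases Nat.eq_zero_or_pos k with rfl | hk
    · simp only [if_true, Nat.cast_zero, zero_mul, Nat.cast_one, one_mul, pow_one, mul_zero, add_zero, sub_zero]
      have h1 := hZ i j
      calc (Tc : PowerSeries ℂ) * (X * PowerSeries.derivative ℂ (Z i j)) =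
            X * ((Tc : PowerSeries ℂ) * PowerSeries.derivative ℂ (Z i j)) := by ring
        _ = X * ∑ l, (Ac i l : PowerSeries ℂ) * Z l j := by rw [h1]
    · have hk0 : k ≠ 0 := by omega
      simp only [if_neg hk0, map_zero, mul_zero, add_zero, sub_zero, Finset.sum_const_zero]
  · have h1 : (Z.map Polynomial.C).det = Polynomial.C Z.det := by
      have := RingHom.map_det (Polynomial.C : PowerSeries ℂ →+* Polynomial (PowerSeries ℂ)) Z
      rw [this]
      rfl
    rw [h1, Ne, Polynomial.C_eq_zero]
    exact hdet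

end Pool.Agent.W5h35.IC
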