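import Mathlib

/-!
# Twisted exact forms on the line
-/

set_option autoImplicit false

open Polynomial

namespace Pool.Agent.W5h35.IC

/-- a twisted form with small numerator is not exact -/
theorem poly_exact {f c : ℚ[X]} (hf : Squarefree f) (hm : 1 ≤ f.natDegree) (hc : c.degree < ((f.natDegree - 1 : ℕ) : WithBot ℕ))
    {θ : ℚ} (h0 : 0 < θ) (h1 : θ < 1) : ∀ (n : ℕ) (B Q : ℚ[X]), Q.natDegree ≤ n → Q ≠ 0 →
      (derivative B * Q - B * derivative Q) * f + C θ * (B * Q * derivative f) = c * Q ^ 2 → c = 0 := by
  intro n
  induction n with
  | zero =>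
    intro B Q hQn hQ0 h
    obtain ⟨q, rfl⟩ : ∃ q, Q = C q := ⟨Q.coeff 0, Polynomial.eq_C_of_natDegree_le_zero hQn⟩
    have hq : q ≠ 0 := by
      rintro rfl
      exact hQ0 C_0
    rw [derivative_C, mul_zero, sub_zero] at h
    have h2 : derivative B * f + C θ * (B * derivative f) = C q * c := by
      have h3 : C q * (derivative B * f + C θ * (B * derivative f)) = C q * (C q * c) := by
        linear_combination h
      exact mul_left_cancel₀ hQ0 h3
    by_contra hc0
    have hB : B ≠ 0 := by
      rintro rfl
      rw [derivative_zero, zero_mul, zero_mul, mul_zero, add_zero] at h2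
      rcases mul_eq_zero.1 h2.symm with h3 | h3
      · exact hQ0 h3
      · exact hc0 h3
    set d := B.natDegree with hd
    set m := f.natDegree with hmd
    have e1 : (derivative B * f).coeff (d + (m - 1)) = d * (B.coeff d * f.coeff m) := by
      rcases Nat.eq_zero_or_pos d with hd0 | hd0
      · have : B = C (B.coeff 0) := Polynomial.eq_C_of_natDegree_le_zero (by omega)
        rw [this, derivative_C, zero_mul, coeff_zero, hd0]
        simp
      · have h3 : d + (m - 1) = (d - 1) + m := by omega
        rw [h3, Polynomial.coeff_mul_add_eq_of_natDegree_le (natDegree_derivative_le B) le_rfl, coeff_derivative]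
        have h4 : d - 1 + 1 = d := by omega
        rw [h4]
        have h5 : ((d - 1 : ℕ) : ℚ) + 1 = d := by
          rw [← h4]
          push_cast
          simp
        rw [h5]
        ring
    have e2 : (B * derivative f).coeff (d + (m - 1)) = m * (B.coeff d * f.coeff m) := by
      rw [Polynomial.coeff_mul_add_eq_of_natDegree_le le_rfl (natDegree_derivative_le f), coeff_derivative]
      have h4 : m - 1 + 1 = m := by omega
      rw [h4]
      have h5 : ((m - 1 : ℕ) : ℚ) + 1 = m := by
        have h6 : ((m - 1 + 1 : ℕ) : ℚ) = m := by rw [h4]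
        push_cast at h6
        exact h6
      rw [h5]
      ring
    have e3 : (C q * c).coeff (d + (m - 1)) = 0 := by
      rw [coeff_C_mul, Polynomial.coeff_eq_zero_of_degree_lt, mul_zero]
      refine hc.trans_le ?_
      exact_mod_cast (by omega : m - 1 ≤ d + (m - 1))
    have h3 := congrArg (fun p => Polynomial.coeff p (d + (m - 1))) h2
    simp only [coeff_add, coeff_C_mul] at h3
    rw [e1, e2] at h3
    rw [coeff_C_mul] at e3
    rw [e3] at h3
    have hl : B.coeff d * f.coeff m ≠ 0 := by
      refine mul_ne_zero ?_ ?_
      · rw [hd, coeff_natDegree, Ne, leadingCoeff_eq_zero]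
        exact hB
      · rw [hmd, coeff_natDegree, Ne, leadingCoeff_eq_zero]
        exact hf.ne_zero
    have h4 : ((d : ℚ) + θ * m) * (B.coeff d * f.coeff m) = 0 := by
      linear_combination h3
    have h5 := (mul_eq_zero.1 h4).resolve_right hl
    have h6 : (0 : ℚ) < m := by exact_mod_cast (by omega : 0 < m)
    have h7 : (0 : ℚ) ≤ d := by positivity
    have h8 : 0 < θ * m := mul_pos h0 h6
    linarith
  | succ n ih =>
    intro B Q hQn hQ0 h
    rcases Nat.lt_or_ge n Q.natDegree with hlt | hge
    swap
    · exact ih B Q hge hQ0 h
    have hQu : ¬ IsUnit Q := by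
      intro hu
      have := Polynomial.natDegree_eq_zero_of_isUnit hu
      omega
    obtain ⟨π, hπ, hπQ⟩ := WfDvdMonoid.exists_irreducible_factor hQu hQ0
    have hπ0 := hπ.ne_zero
    have hπp := hπ.prime
    by_cases hπB : π ∣ B
    · obtain ⟨b, rfl⟩ := hπB
      obtain ⟨q, rfl⟩ := hπQ
      have hq0 : q ≠ 0 := right_ne_zero_of_mul hQ0
      refine ih b q ?_ hq0 ?_
      · rw [natDegree_mul hπ0 hq0] at hQn
        have : 1 ≤ π.natDegree := by
          by_contra hh
          exact hπ.not_isUnit (by
            rw [Polynomial.isUnit_iff_degree_eq_zero, degree_eq_natDegree hπ0]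
            have : π.natDegree = 0 := by omega
            rw [this]
            rfl)
        omega
      · refine mul_left_cancel₀ (pow_ne_zero 2 hπ0) ?_
        rw [derivative_mul, derivative_mul] at h
        linear_combination h
    · exfalso
      -- the multiplicity of `π` in `Q`
      obtain ⟨r, hQr, hr⟩ := (FiniteMultiplicity.of_not_isUnit hπ.not_isUnit hQ0).exists_eq_pow_mul_and_not_dvd
      generalize multiplicity π Q = k at hQr
      have hk : k ≠ 0 := by
        rintro rfl
        apply hr
        rw [pow_zero, one_mul] at hQr
        rw [← hQr]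
        exact hπQ
      obtain ⟨j, rfl⟩ := Nat.exists_eq_succ_of_ne_zero hk
      have hπ' : ¬ π ∣ derivative π := by
        intro hh
        have hder : derivative π ≠ 0 := by
          intro h3
          have h4 := Polynomial.derivative_eq_zero.1 h3
          exact hπ.not_isUnit (by
            rw [Polynomial.isUnit_iff_degree_eq_zero, degree_eq_natDegree hπ0, h4]
            rfl)
        have h3 := Polynomial.natDegree_le_of_dvd hh hder
        have h5 : 0 < π.natDegree := by
          by_contra h6
          apply hder
          rw [Polynomial.eq_C_of_natDegree_le_zero (by omega : π.natDegree ≤ 0), derivative_C]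
        have h4 := Polynomial.natDegree_derivative_lt h5.ne'
        omega
      have hder : derivative Q = C ((j : ℚ) + 1) * (π ^ j * derivative π * r) + π ^ (j + 1) * derivative r := by
        rw [hQr, Nat.succ_eq_add_one, derivative_mul, derivative_pow, Nat.add_sub_cancel]
        push_cast
        ring
      have h3 : (derivative B * π * r - B * (C ((j : ℚ) + 1) * (derivative π * r) + π * derivative r)) * f +
          C θ * (B * π * r * derivative f) = c * π ^ (j + 2) * r ^ 2 := by
        refine mul_left_cancel₀ (pow_ne_zero j hπ0) ?_
        rw [hder, hQr, Nat.succ_eq_add_one] at h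
        rw [pow_succ π (j + 1), pow_succ π j]
        linear_combination h
      have hcst : ∀ a : ℚ, a ≠ 0 → ¬ π ∣ C a := by
        intro a ha hh
        exact hπ.not_isUnit (isUnit_of_dvd_unit hh (isUnit_C.2 ha.isUnit))
      have hjj : ((j : ℚ) + 1) ≠ 0 := by positivity
      have hπf : π ∣ f := by
        have h4 : π ∣ C ((j : ℚ) + 1) * B * derivative π * r * f := by
          refine ⟨(derivative B * r - B * derivative r) * f + C θ * (B * r * derivative f) - c * π ^ (j + 1) * r ^ 2, ?_⟩
          rw [pow_succ π (j + 1)] at h3
          linear_combination -h3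
        rcases hπp.dvd_or_dvd h4 with h5 | h5
        · exfalso
          rcases hπp.dvd_or_dvd h5 with h6 | h6
          · rcases hπp.dvd_or_dvd h6 with h7 | h7
            · rcases hπp.dvd_or_dvd h7 with h8 | h8
              · exact hcst _ hjj h8
              · exact hπB h8
            · exact hπ' h7
          · exact hr h6
        · exact h5
      obtain ⟨f₁, hf₁⟩ := hπf
      have hπf₁ : ¬ π ∣ f₁ := by
        rintro ⟨f₂, rfl⟩
        refine hπ.not_isUnit (hf π ⟨f₂, ?_⟩)
        rw [hf₁]
        ring
      have h4 : (derivative B * π * r - B * (C ((j : ℚ) + 1) * (derivative π * r) + π * derivative r)) * f₁ +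
          C θ * (B * r * (derivative π * f₁ + π * derivative f₁)) = c * π ^ (j + 1) * r ^ 2 := by
        refine mul_left_cancel₀ hπ0 ?_
        rw [hf₁, derivative_mul, pow_succ π (j + 1)] at h3
        linear_combination h3
      have h5 : π ∣ C (θ - ((j : ℚ) + 1)) * B * derivative π * r * f₁ := by
        refine ⟨c * π ^ j * r ^ 2 - (derivative B * r - B * derivative r) * f₁ - C θ * (B * r * derivative f₁), ?_⟩
        rw [pow_succ π j] at h4
        rw [C_sub]
        linear_combination h4
      have hθ : θ - ((j : ℚ) + 1) ≠ 0 := by
        have : (0 : ℚ) ≤ j := by positivity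
        intro hh
        linarith
      rcases hπp.dvd_or_dvd h5 with h5 | h5
      · rcases hπp.dvd_or_dvd h5 with h6 | h6
        · rcases hπp.dvd_or_dvd h6 with h7 | h7
          · rcases hπp.dvd_or_dvd h7 with h8 | h8
            · exact hcst _ hθ h8
            · exact hπB h8
          · exact hπ' h7
        · exact hr h6
      · exact hπf₁ h5

end Pool.Agent.W5h35.IC
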