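import Pool.Agent.W5h35.IC.IndT

/-!
# Shuffles and characters
-/

set_option autoImplicit false

open PowerSeries Pool.Agent.Y113

namespace Pool.Agent.W5h35.IC

/-- the shuffles of two words -/
def sh {α : Type} : List α → List α → List (List α)
  | [], v => [v]
  | a :: u, [] => [a :: u]
  | a :: u, b :: v => (sh u (b :: v)).map (List.cons a) ++ (sh (a :: u) v).map (List.cons b)
termination_by u v => u.length + v.length

lemma sh_nil_left {α : Type} (v : List α) : sh [] v = [v] := by rw [sh]

lemma sh_nil_right {α : Type} (u : List α) : sh u [] = [u] := by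
  cases u with
  | nil => rw [sh]
  | cons a u => rw [sh]

lemma sh_cons {α : Type} (a b : α) (u v : List α) :
    sh (a :: u) (b :: v) = (sh u (b :: v)).map (List.cons a) ++ (sh (a :: u) v).map (List.cons b) := by rw [sh]

lemma sh_len {α : Type} (n : ℕ) : ∀ u v : List α, u.length + v.length = n → ∀ w ∈ sh u v, w.length = n := by
  induction n with
  | zero =>
    intro u v h w hw
    have hu : u = [] := List.length_eq_zero_iff.1 (by omega)
    have hv : v = [] := List.length_eq_zero_iff.1 (by omega)
    rw [hu, hv, sh_nil_left, List.mem_singleton] at hw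
    rw [hw, List.length_nil]
  | succ n ih =>
    intro u v h w hw
    rcases u with _ | ⟨a, u⟩
    · rw [sh_nil_left, List.mem_singleton] at hw
      rw [hw, ← h, List.length_nil, zero_add]
    rcases v with _ | ⟨b, v⟩
    · rw [sh_nil_right, List.mem_singleton] at hw
      rw [hw, ← h]
      rfl
    rw [List.length_cons, List.length_cons] at h
    rw [sh_cons, List.mem_append, List.mem_map, List.mem_map] at hw
    rcases hw with ⟨x, hx, rfl⟩ | ⟨x, hx, rfl⟩
    · rw [List.length_cons, ih u (b :: v) (by rw [List.length_cons]; omega) x hx]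
    · rw [List.length_cons, ih (a :: u) v (by rw [List.length_cons]; omega) x hx]

lemma sh_adm {σ : Type} (n : ℕ) : ∀ u v : List (Option σ), u.length + v.length = n → adm u → adm v → ∀ w ∈ sh u v, adm w := by
  induction n with
  | zero =>
    intro u v h hu hv w hw
    have hu0 : u = [] := List.length_eq_zero_iff.1 (by omega)
    rw [hu0, sh_nil_left, List.mem_singleton] at hw
    rw [hw]
    exact hv
  | succ n ih =>
    intro u v h hu hv w hw
    rcases u with _ | ⟨a, u⟩
    · rw [sh_nil_left, List.mem_singleton] at hw
      rw [hw]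
      exact hv
    rcases v with _ | ⟨b, v⟩
    · rw [sh_nil_right, List.mem_singleton] at hw
      rw [hw]
      exact hu
    rw [List.length_cons, List.length_cons] at h
    rw [sh_cons, List.mem_append, List.mem_map, List.mem_map] at hw
    rcases hw with ⟨x, hx, rfl⟩ | ⟨x, hx, rfl⟩
    · have h1 := sh_len n u (b :: v) (by rw [List.length_cons]; omega) x hx
      have hne : x ≠ [] := by
        rintro rfl
        rw [List.length_nil] at h1
        omega
      rw [adm_cons hne]
      exact ih u (b :: v) (by rw [List.length_cons]; omega) (adm_tail hu) hv x hx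
    · have h1 := sh_len n (a :: u) v (by rw [List.length_cons]; omega) x hx
      have hne : x ≠ [] := by
        rintro rfl
        rw [List.length_nil] at h1
        omega
      rw [adm_cons hne]
      exact ih (a :: u) v (by rw [List.length_cons]; omega) hu (adm_tail hv) x hx

/-- the characters of the shuffle algebra of the admissible words -/
structure AChar {σ : Type} {S : Type} [CommRing S] (g : List (Option σ) → S) : Prop where
  one : g [] = 1
  mul : ∀ u v, adm u → adm v → g u * g v = ((sh u v).map g).sum

section
variable {σ : Type} {ω : σ → ℚ⟦X⟧}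

lemma eul_list {a : Option σ} (l : List (List (Option σ))) (h : ∀ w ∈ l, adm (a :: w)) :
    X * d⁄dX ℚ (((l.map (List.cons a)).map (I2 ω)).sum) = uu ω a * (l.map (I2 ω)).sum := by
  induction l with
  | nil => simp
  | cons x l ih =>
    rw [List.map_cons, List.map_cons, List.sum_cons, List.map_cons, List.sum_cons, map_add, mul_add, mul_add,
      eul_I2 (h x (by simp)), ih fun w hw => h w (List.mem_cons_of_mem _ hw)]

lemma const_list {a : Option σ} (l : List (List (Option σ))) :
    constantCoeff (((l.map (List.cons a)).map (I2 ω)).sum) = 0 := by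
  induction l with
  | nil => simp
  | cons x l ih =>
    rw [List.map_cons, List.map_cons, List.sum_cons, map_add, ih, const_I2 (by simp), add_zero]

lemma eq_of_eul {f g : ℚ⟦X⟧} (h : X * d⁄dX ℚ f = X * d⁄dX ℚ g) (h0 : constantCoeff f = constantCoeff g) : f = g :=
  PowerSeries.derivative.ext (mul_left_cancel₀ (PowerSeries.X_ne_zero (R := ℚ)) h) h0

/-- the shuffle relations -/
theorem I2_char (ω : σ → ℚ⟦X⟧) : AChar (I2 ω) := by
  refine ⟨rfl, ?_⟩
  have key : ∀ n : ℕ, ∀ u v : List (Option σ), u.length + v.length = n → adm u → adm v →
      I2 ω u * I2 ω v = ((sh u v).map (I2 ω)).sum := by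
    intro n
    induction n with
    | zero =>
      intro u v h _ _
      have hu0 : u = [] := List.length_eq_zero_iff.1 (by omega)
      rw [hu0, sh_nil_left, List.map_singleton, List.sum_singleton]
      show 1 * _ = _
      rw [one_mul]
    | succ n ih =>
      intro u v h hu hv
      rcases u with _ | ⟨a, u⟩
      · rw [sh_nil_left, List.map_singleton, List.sum_singleton]
        show 1 * _ = _
        rw [one_mul]
      rcases v with _ | ⟨b, v⟩
      · rw [sh_nil_right, List.map_singleton, List.sum_singleton]
        show _ * 1 = _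
        rw [mul_one]
      rw [List.length_cons, List.length_cons] at h
      have hl1 : u.length + (b :: v).length = n := by rw [List.length_cons]; omega
      have hl2 : (a :: u).length + v.length = n := by rw [List.length_cons]; omega
      have h1 := ih u (b :: v) hl1 (adm_tail hu) hv
      have h2 := ih (a :: u) v hl2 hu (adm_tail hv)
      have ha1 : ∀ w ∈ sh u (b :: v), adm (a :: w) := by
        intro w hw
        have h3 := sh_len n u (b :: v) hl1 w hw
        have hne : w ≠ [] := by
          rintro rfl
          rw [List.length_nil] at h3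
          omega
        rw [adm_cons hne]
        exact sh_adm n u (b :: v) hl1 (adm_tail hu) hv w hw
      have ha2 : ∀ w ∈ sh (a :: u) v, adm (b :: w) := by
        intro w hw
        have h3 := sh_len n (a :: u) v hl2 w hw
        have hne : w ≠ [] := by
          rintro rfl
          rw [List.length_nil] at h3
          omega
        rw [adm_cons hne]
        exact sh_adm n (a :: u) v hl2 hu (adm_tail hv) w hw
      refine eq_of_eul ?_ ?_
      · rw [sh_cons, List.map_append, List.sum_append, map_add, mul_add, eul_list _ ha1, eul_list _ ha2, ← h1, ← h2,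
          Derivation.leibniz, smul_eq_mul, smul_eq_mul]
        have e1 := eul_I2 (ω := ω) hu
        have e2 := eul_I2 (ω := ω) hv
        linear_combination I2 ω (b :: v) * e1 + I2 ω (a :: u) * e2
      · rw [sh_cons, List.map_append, List.sum_append, map_add, const_list, const_list, map_mul, const_I2 (by simp),
          zero_mul, add_zero]
  exact fun u v => key _ u v rfl

/-- linearisation of polynomials -/
theorem linz {A : Type} [CommRing A] (R : MvPolynomial {w : List (Option σ) // adm w} A) :
    ∃ F : List (Option σ) →₀ A, (∀ w, ¬ adm w → F w = 0) ∧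
      ∀ (S : Type) [CommRing S] (φ : A →+* S) (g : List (Option σ) → S), AChar g →
        R.eval₂ φ (fun w => g w.1) = F.sum fun w a => φ a * g w := by
  classical
  induction R using MvPolynomial.induction_on with
  | C a =>
    refine ⟨Finsupp.single [] a, fun w hw => ?_, fun S _ φ g hg => ?_⟩
    · rw [Finsupp.single_apply, if_neg]
      rintro rfl
      exact hw adm_nil
    · rw [MvPolynomial.eval₂_C, Finsupp.sum_single_index (by rw [map_zero, zero_mul]), hg.one, mul_one]
  | add p q hp hq =>
    obtain ⟨F, hF, hF'⟩ := hp
    obtain ⟨G, hG, hG'⟩ := hq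
    refine ⟨F + G, fun w hw => by rw [Finsupp.add_apply, hF w hw, hG w hw, add_zero], fun S _ φ g hg => ?_⟩
    rw [MvPolynomial.eval₂_add, hF' S φ g hg, hG' S φ g hg, Finsupp.sum_add_index']
    · intro w
      rw [map_zero, zero_mul]
    · intro w a b
      rw [map_add, add_mul]
  | mul_X p v hp =>
    obtain ⟨F, hF, hF'⟩ := hp
    refine ⟨F.sum fun w a => ((sh w v.1).map fun u => Finsupp.single u a).sum, fun x hx => ?_, fun S _ φ g hg => ?_⟩
    · rw [Finsupp.sum, Finsupp.finsetSum_apply]
      refine Finset.sum_eq_zero fun w hw => ?_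
      have hwa : adm w := by
        by_contra hc
        exact (Finsupp.mem_support_iff.1 hw) (hF w hc)
      have h1 : ∀ u ∈ sh w v.1, adm u := sh_adm _ w v.1 rfl hwa v.2
      generalize sh w v.1 = l at h1
      induction l with
      | nil => simp
      | cons u l ih =>
        rw [List.map_cons, List.sum_cons, Finsupp.add_apply, ih fun z hz => h1 z (List.mem_cons_of_mem _ hz),
          Finsupp.single_apply, if_neg, add_zero]
        rintro rfl
        exact hx (h1 _ (by simp))
    · rw [MvPolynomial.eval₂_mul, MvPolynomial.eval₂_X, hF' S φ g hg]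
      have hev : ∀ G : List (Option σ) →₀ A, (G.sum fun w a => φ a * g w) =
          Finsupp.liftAddHom (fun w => (AddMonoidHom.mulRight (g w)).comp φ.toAddMonoidHom) G := by
        intro G
        rw [Finsupp.liftAddHom_apply]
        rfl
      conv_rhs => rw [hev, Finsupp.sum, map_sum]
      rw [Finsupp.sum, Finset.sum_mul]
      refine Finset.sum_congr rfl fun w hw => ?_
      have hwa : adm w := by
        by_contra hc
        exact (Finsupp.mem_support_iff.1 hw) (hF w hc)
      rw [mul_assoc, hg.mul w v.1 hwa v.2]
      generalize sh w v.1 = l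
      induction l with
      | nil => simp
      | cons u l ih =>
        rw [List.map_cons, List.sum_cons, List.map_cons, List.sum_cons, map_add, ← ih, mul_add,
          Finsupp.liftAddHom_apply_single]
        rfl

/-- linearisation of polynomials in the functions of the system -/
theorem linY {A : Type} [CommRing A] {n L : ℕ} (η : A) (P : MvPolynomial (Fin n × Wt σ L) A) :
    ∃ F : List (Option σ) →₀ A, (∀ w, ¬ adm w → F w = 0) ∧
      ∀ (S : Type) [CommRing S] (φ : A →+* S) (g : List (Option σ) → S), AChar g →
        P.eval₂ φ (fun i => φ η ^ (i.1 : ℕ) * g i.2.1) = F.sum fun w a => φ a * g w := by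
  obtain ⟨F, hF, hF'⟩ := linz (σ := σ) (P.eval₂ (MvPolynomial.C : A →+* MvPolynomial {w : List (Option σ) // adm w} A)
    fun i : Fin n × Wt σ L => MvPolynomial.C (η ^ (i.1 : ℕ)) *
    MvPolynomial.X (⟨i.2.1, i.2.2.2⟩ : {w : List (Option σ) // adm w}))
  refine ⟨F, hF, fun S _ φ g hg => ?_⟩
  rw [← hF' S φ g hg]
  have h1 : (MvPolynomial.eval₂Hom φ fun w : {w : List (Option σ) // adm w} => g w.1).comp
      (MvPolynomial.eval₂Hom MvPolynomial.C fun i : Fin n × Wt σ L => MvPolynomial.C (η ^ (i.1 : ℕ)) *
        MvPolynomial.X (⟨i.2.1, i.2.2.2⟩ : {w : List (Option σ) // adm w})) =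
      MvPolynomial.eval₂Hom φ fun i : Fin n × Wt σ L => φ η ^ (i.1 : ℕ) * g i.2.1 := by
    refine MvPolynomial.ringHom_ext (fun a => ?_) fun i => ?_
    · rw [RingHom.comp_apply, MvPolynomial.eval₂Hom_C, MvPolynomial.eval₂Hom_C, MvPolynomial.eval₂Hom_C]
    · rw [RingHom.comp_apply, MvPolynomial.eval₂Hom_X', MvPolynomial.eval₂Hom_X', map_mul, MvPolynomial.eval₂Hom_C,
        MvPolynomial.eval₂Hom_X', map_pow]
  exact (DFunLike.congr_fun h1 P).symm

end

end Pool.Agent.W5h35.IC
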