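import Pool.Agent.W5h35.IC.Cur
import Pool.Agent.W5h35.IC.Pex

/-!
# Superelliptic curves
-/

set_option autoImplicit false

open PowerSeries Pool.Agent.Y113 Pool.Agent.Y120.GF Pool.Agent.Y120.GH

namespace Pool.Agent.W5h35.IC

/-- the polynomial `Y ^ N - f` -/
noncomputable def PN (N : ℕ) (f : Polynomial ℤ) : Polynomial (Polynomial ℤ) := Polynomial.X ^ N - Polynomial.C f

lemma PN_monic {N : ℕ} (hN : 0 < N) (f : Polynomial ℤ) : (PN N f).Monic := Polynomial.monic_X_pow_sub_C f hN.ne'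

lemma PN_deg {N : ℕ} (f : Polynomial ℤ) : (PN N f).natDegree = N := Polynomial.natDegree_X_pow_sub_C

lemma PN_root {N : ℕ} {f : Polynomial ℤ} {y : ℚ⟦X⟧} (hy : y ^ N = ps f) : evy y (PN N f) = 0 := by
  rw [evy_apply, PN, Polynomial.eval₂_sub, Polynomial.eval₂_X_pow, Polynomial.eval₂_C, psH_apply, hy, sub_self]

lemma PN_sep {N : ℕ} (hN : 0 < N) {f : Polynomial ℤ} (hf : f.coeff 0 ≠ 0) : ((PN N f).map at0).Separable := by
  rw [PN, Polynomial.map_sub, Polynomial.map_pow, Polynomial.map_X, Polynomial.map_C]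
  refine Polynomial.separable_X_pow_sub_C _ (by exact_mod_cast hN.ne') ?_
  rw [at0_apply]
  exact_mod_cast hf

lemma PN_irr {N : ℕ} (hN : 0 < N) {f : Polynomial ℤ} (hf : Squarefree (f.map (Int.castRingHom ℚ))) (hm : 1 ≤ f.natDegree) :
    Irreducible (PN N f) := by
  have hf0 : f ≠ 0 := by
    rintro rfl
    simp at hm
  have hfq : (f.map (Int.castRingHom ℚ)).natDegree = f.natDegree := Polynomial.natDegree_map_eq_of_injective (Int.castRingHom ℚ).injective_int f
  -- an irreducible factor of positive degree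
  obtain ⟨π, hπ, hπf, hπd⟩ : ∃ π : Polynomial ℤ, Irreducible π ∧ π ∣ f ∧ 1 ≤ π.natDegree := by
    by_contra hno
    push Not at hno
    have h1 : ∀ g : Polynomial ℤ, g ≠ 0 → g ∣ f → g.natDegree = 0 := by
      intro g
      induction g using WfDvdMonoid.induction_on_irreducible with
      | zero => intro h; exact absurd rfl h
      | unit u hu => intro _ _; exact Polynomial.natDegree_eq_zero_of_isUnit hu
      | mul a i ha hi ih =>
        intro h0 hd
        rw [Polynomial.natDegree_mul hi.ne_zero ha, ih ha (dvd_trans (dvd_mul_left _ _) hd)]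
        have := hno i hi (dvd_trans (dvd_mul_right _ _) hd)
        omega
    have := h1 f hf0 dvd_rfl
    omega
  have hπp : Prime π := hπ.prime
  have hsq : ¬ π * π ∣ f := by
    rintro ⟨g, hg⟩
    have h1 : (π.map (Int.castRingHom ℚ)) * (π.map (Int.castRingHom ℚ)) ∣ f.map (Int.castRingHom ℚ) :=
      ⟨g.map (Int.castRingHom ℚ), by rw [hg, Polynomial.map_mul, Polynomial.map_mul]⟩
    have h2 := Polynomial.natDegree_eq_zero_of_isUnit (hf _ h1)
    rw [Polynomial.natDegree_map_eq_of_injective (Int.castRingHom ℚ).injective_int] at h2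
    omega
  have hprime : (Ideal.span {π} : Ideal (Polynomial ℤ)).IsPrime := (Ideal.span_singleton_prime hπ.ne_zero).2 hπp
  have hmon := PN_monic hN f
  refine Polynomial.irreducible_of_eisenstein_criterion (P := Ideal.span {π}) hprime ?_ ?_ ?_ ?_ hmon.isPrimitive
  · rw [hmon.leadingCoeff]
    intro h
    exact hprime.ne_top ((Ideal.eq_top_iff_one _).2 h)
  · intro n hn
    rw [Polynomial.degree_eq_natDegree hmon.ne_zero, PN_deg] at hn
    have hn' : n < N := by exact_mod_cast hn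
    rw [PN, Polynomial.coeff_sub, Polynomial.coeff_X_pow, if_neg hn'.ne, zero_sub, Polynomial.coeff_C]
    split_ifs
    · exact neg_mem (Ideal.mem_span_singleton.2 hπf)
    · rw [neg_zero]
      exact zero_mem _
  · rw [Polynomial.degree_eq_natDegree hmon.ne_zero, PN_deg]
    exact_mod_cast hN
  · rw [PN, Polynomial.coeff_sub, Polynomial.coeff_X_pow, if_neg hN.ne, zero_sub, Polynomial.coeff_C_zero,
      Ideal.span_singleton_pow, Ideal.mem_span_singleton, dvd_neg, pow_two]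
    exact hsq

/-- the forms `x^a dx / y^(b+1)` are independent modulo exact forms -/
theorem sup_exact {N m : ℕ} (hN : 0 < N) {f : Polynomial ℤ} (hf : Squarefree (f.map (Int.castRingHom ℚ))) (hm : f.natDegree = m + 1)
    {y : ℚ⟦X⟧} (hy : y ^ N = ps f) {ω : Fin (N - 1) × Fin m → ℚ⟦X⟧}
    (hω : ∀ i, ω i * y ^ ((i.1 : ℕ) + 1) = X ^ (i.2 : ℕ)) (c : Fin (N - 1) × Fin m → ℚ) (Q : Polynomial ℤ) (F : ℚ⟦X⟧)
    (hQ : Q ≠ 0) (hF : ps Q * F ∈ RR y) (hd : d⁄dX ℚ F = ∑ j, PowerSeries.C (c j) * ω j) : c = 0 := by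
  have hf0 : f ≠ 0 := by
    rintro rfl
    simp at hm
  obtain ⟨B', hB'⟩ := RR_expand (PN_monic hN f) (PN_root hy) hF
  obtain ⟨B, hB⟩ : ∃ B : Fin N → Polynomial ℤ, ps Q * F = ∑ e, ps (B e) * y ^ (e : ℕ) := by
    have h1 := PN_deg (N := N) f
    refine ⟨fun e => B' (Fin.cast h1.symm e), ?_⟩
    rw [hB']
    exact (Fintype.sum_equiv (finCongr h1) _ _ fun e => rfl)
  have hyne : y ≠ 0 := by
    rintro rfl
    rw [zero_pow hN.ne'] at hy
    exact ps_ne hf0 hy.symm
  -- the derivative of `y`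
  have hdy : (N : ℚ⟦X⟧) * ps f * d⁄dX ℚ y = ps (Polynomial.derivative f) * y := by
    have h1 := congrArg (fun z => d⁄dX ℚ z * y) hy
    rw [Derivation.leibniz_pow, ps_deriv] at h1
    rw [← hy, ← h1]
    obtain ⟨k, rfl⟩ : ∃ k, N = k + 1 := ⟨N - 1, by omega⟩
    simp only [Nat.add_sub_cancel, nsmul_eq_mul, smul_eq_mul, pow_succ]
    ring
  have hdye : ∀ e : ℕ, (N : ℚ⟦X⟧) * ps f * d⁄dX ℚ (y ^ e) = (e : ℚ⟦X⟧) * ps (Polynomial.derivative f) * y ^ e := by
    intro e
    rcases Nat.eq_zero_or_pos e with rfl | he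
    · rw [pow_zero, Derivation.map_one_eq_zero]
      simp
    · obtain ⟨k, rfl⟩ : ∃ k, e = k + 1 := ⟨e - 1, by omega⟩
      rw [Derivation.leibniz_pow]
      simp only [Nat.add_sub_cancel, nsmul_eq_mul, smul_eq_mul, pow_succ]
      linear_combination ((k + 1 : ℕ) : ℚ⟦X⟧) * y ^ k * hdy
  -- the forms
  set cp : Fin (N - 1) → Polynomial ℚ := fun b => ∑ a : Fin m, Polynomial.C (c (b, a)) * Polynomial.X ^ (a : ℕ) with hcp
  have hfF : ps f * d⁄dX ℚ F = ∑ b : Fin (N - 1), (cp b : ℚ⟦X⟧) * y ^ (N - 1 - (b : ℕ)) := by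
    rw [hd, Fintype.sum_prod_type, Finset.mul_sum]
    refine Finset.sum_congr rfl fun b _ => ?_
    have e1 : (cp b : ℚ⟦X⟧) = ∑ a : Fin m, PowerSeries.C (c (b, a)) * X ^ (a : ℕ) := by
      show (Polynomial.coeToPowerSeries.ringHom (R := ℚ)) (cp b) = _
      rw [hcp, map_sum]
      refine Finset.sum_congr rfl fun a _ => ?_
      rw [map_mul, map_pow]
      simp
    rw [e1, Finset.mul_sum, Finset.sum_mul]
    refine Finset.sum_congr rfl fun a _ => ?_
    rw [← hω (b, a), ← hy]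
    have e2 : y ^ N = y ^ ((b : ℕ) + 1) * y ^ (N - 1 - (b : ℕ)) := by
      rw [← pow_add]
      congr 1
      have := b.2
      omega
    rw [e2]
    ring
  -- the equation
  have heq : ∑ e : Fin N, ((N : ℚ⟦X⟧) * (ps Q * ps (Polynomial.derivative (B e)) - ps (Polynomial.derivative Q) * ps (B e)) * ps f +
      (e : ℚ⟦X⟧) * ps Q * ps (B e) * ps (Polynomial.derivative f)) * y ^ (e : ℕ) =
      (N : ℚ⟦X⟧) * ps Q ^ 2 * ∑ b : Fin (N - 1), (cp b : ℚ⟦X⟧) * y ^ (N - 1 - (b : ℕ)) := by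
    have h1 := congrArg (fun z => (N : ℚ⟦X⟧) * ps f * ps Q * d⁄dX ℚ z) hB
    rw [Derivation.leibniz, ps_deriv, map_sum] at h1
    simp only [Derivation.leibniz, ps_deriv, smul_eq_mul] at h1
    have h2 : (N : ℚ⟦X⟧) * ps Q ^ 2 * ∑ b : Fin (N - 1), (cp b : ℚ⟦X⟧) * y ^ (N - 1 - (b : ℕ)) =
        (N : ℚ⟦X⟧) * ps f * ps Q * (ps Q * d⁄dX ℚ F) := by
      rw [← hfF]
      ring
    have h3 : (N : ℚ⟦X⟧) * ps f * ps Q * (ps Q * d⁄dX ℚ F) =
        (N : ℚ⟦X⟧) * ps f * ps Q * (∑ e : Fin N, (ps (B e) * d⁄dX ℚ (y ^ (e : ℕ)) + y ^ (e : ℕ) * ps (Polynomial.derivative (B e)))) -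
        (N : ℚ⟦X⟧) * ps f * ps (Polynomial.derivative Q) * (ps Q * F) := by
      rw [← h1]
      ring
    rw [h2, h3, hB, Finset.mul_sum, Finset.mul_sum, ← Finset.sum_sub_distrib]
    refine Finset.sum_congr rfl fun e _ => ?_
    linear_combination (-ps Q * ps (B e)) * hdye (e : ℕ)
  -- comparison of coefficients
  have hpow := pow_indep (PN_monic hN f) (PN_irr hN hf (by omega)) (PN_root hy)
  have hpow' : LinearIndependent (Polynomial ℚ) (fun e : Fin N => y ^ (e : ℕ)) := by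
    have h1 := PN_deg (N := N) f
    have := hpow.comp (fun e : Fin N => Fin.cast h1.symm e) (Fin.cast_injective _)
    exact this
  set q : Polynomial ℤ →+* Polynomial ℚ := Polynomial.mapRingHom (Int.castRingHom ℚ) with hq
  have hpq : ∀ p, ps p = ((q p : Polynomial ℚ) : ℚ⟦X⟧) := fun p => rfl
  set G : Fin N → Polynomial ℚ := fun e => ((N : Polynomial ℚ) * (q Q * q (Polynomial.derivative (B e)) - q (Polynomial.derivative Q) * q (B e)) * q f +
      (e : Polynomial ℚ) * q Q * q (B e) * q (Polynomial.derivative f)) -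
      (if h : 1 ≤ (e : ℕ) then (N : Polynomial ℚ) * q Q ^ 2 * cp ⟨N - 1 - e, by have := e.2; omega⟩ else 0) with hG
  have hsum : ∑ e : Fin N, G e • y ^ (e : ℕ) = 0 := by
    have hco : ∀ p : Polynomial ℚ, (p : ℚ⟦X⟧) = (Polynomial.coeToPowerSeries.ringHom (R := ℚ)) p := fun p => rfl
    have e1 : ∀ e : Fin N, G e • y ^ (e : ℕ) = ((N : ℚ⟦X⟧) * (ps Q * ps (Polynomial.derivative (B e)) - ps (Polynomial.derivative Q) * ps (B e)) * ps f +
      (e : ℚ⟦X⟧) * ps Q * ps (B e) * ps (Polynomial.derivative f)) * y ^ (e : ℕ) -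
        (if h : 1 ≤ (e : ℕ) then (N : ℚ⟦X⟧) * ps Q ^ 2 * (cp ⟨N - 1 - e, by have := e.2; omega⟩ : ℚ⟦X⟧) * y ^ (e : ℕ) else 0) := by
      intro e
      rw [Algebra.smul_def]
      show (Polynomial.coeToPowerSeries.ringHom (R := ℚ)) (G e) * y ^ (e : ℕ) = _
      rw [hG]
      simp only [map_sub, map_add, map_mul, map_natCast, hpq, hco]
      split_ifs with h
      · rw [map_mul, map_mul, map_pow, map_natCast]
        ring
      · rw [map_zero]
        ring
    rw [Finset.sum_congr rfl fun e _ => e1 e, Finset.sum_sub_distrib, heq, sub_eq_zero, Finset.mul_sum]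
    -- reindexing
    obtain ⟨M, rfl⟩ : ∃ M, N = M + 1 := ⟨N - 1, by omega⟩
    rw [Fin.sum_univ_succ (n := M) (f := fun e : Fin (M + 1) => if h : 1 ≤ (e : ℕ) then ((M + 1 : ℕ) : ℚ⟦X⟧) * ps Q ^ 2 *
      (cp ⟨M + 1 - 1 - e, by have := e.2; omega⟩ : ℚ⟦X⟧) * y ^ (e : ℕ) else 0)]
    rw [dif_neg (by simp), zero_add]
    refine Fintype.sum_equiv (Fin.revPerm (n := M)) _ _ fun b => ?_
    have hb := b.2
    rw [dif_pos (by simp)]
    have e4 : ((Fin.succ (Fin.revPerm (n := M) b) : Fin (M + 1)) : ℕ) = M + 1 - 1 - (b : ℕ) := by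
      simp [Fin.revPerm, Fin.rev]
      omega
    have e3 : ∀ h, (⟨M + 1 - 1 - ((Fin.succ (Fin.revPerm b) : Fin (M + 1)) : ℕ), h⟩ : Fin (M + 1 - 1)) = b := by
      intro h
      apply Fin.ext
      show M + 1 - 1 - ((Fin.succ (Fin.revPerm b) : Fin (M + 1)) : ℕ) = b
      rw [e4]
      omega
    rw [e3, e4]
    ring
  have hG0 := (Fintype.linearIndependent_iff.1 hpow') G hsum
  -- conclusion
  have hcp0 : ∀ b, cp b = 0 := by
    intro b
    have hb := b.2
    have he : N - 1 - (b : ℕ) < N := by omega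
    have h1 := hG0 ⟨N - 1 - b, he⟩
    rw [hG] at h1
    simp only at h1
    rw [dif_pos (by omega)] at h1
    have e3 : (⟨N - 1 - (N - 1 - (b : ℕ)), by omega⟩ : Fin (N - 1)) = b := by
      apply Fin.ext
      show N - 1 - (N - 1 - (b : ℕ)) = b
      omega
    rw [e3, sub_eq_zero] at h1
    have hN0 : (N : ℚ) ≠ 0 := by exact_mod_cast hN.ne'
    refine poly_exact (f := q f) (θ := ((N - 1 - (b : ℕ) : ℕ) : ℚ) / N) hf ?_ ?_ ?_ ?_ (q Q).natDegree
      (q (B ⟨N - 1 - b, he⟩)) (q Q) le_rfl ?_ ?_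
    · rw [hq, Polynomial.coe_mapRingHom, Polynomial.natDegree_map_eq_of_injective (Int.castRingHom ℚ).injective_int]
      omega
    · rw [hq, Polynomial.coe_mapRingHom, Polynomial.natDegree_map_eq_of_injective (Int.castRingHom ℚ).injective_int, hm,
        Nat.add_sub_cancel]
      refine (Polynomial.degree_sum_le _ _).trans_lt ?_
      rw [Finset.sup_lt_iff (WithBot.bot_lt_coe _)]
      intro a _
      exact (Polynomial.degree_C_mul_X_pow_le _ _).trans_lt (by exact_mod_cast a.2)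
    · have h2 : (0 : ℚ) < ((N - 1 - (b : ℕ) : ℕ) : ℚ) := by exact_mod_cast (by omega : 0 < N - 1 - (b : ℕ))
      have h3 : (0 : ℚ) < N := by exact_mod_cast hN
      positivity
    · rw [div_lt_one (by exact_mod_cast hN)]
      exact_mod_cast he
    · intro h0
      exact hQ ((Polynomial.map_eq_zero_iff (Int.castRingHom ℚ).injective_int).1 h0)
    · have hder : ∀ p : Polynomial ℤ, Polynomial.derivative (q p) = q (Polynomial.derivative p) := fun p => by
        rw [hq, Polynomial.coe_mapRingHom, Polynomial.derivative_map]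
      have hNC : (N : Polynomial ℚ) = Polynomial.C (N : ℚ) := by simp
      have heC : (((N - 1 - (b : ℕ) : ℕ)) : Polynomial ℚ) = Polynomial.C (N : ℚ) * Polynomial.C (((N - 1 - (b : ℕ) : ℕ) : ℚ) / N) := by
        rw [← Polynomial.C_mul, mul_div_cancel₀ _ hN0]
        simp
      have hNe : (Polynomial.C (N : ℚ)) ≠ 0 := by
        rw [Ne, Polynomial.C_eq_zero]
        exact hN0
      refine mul_left_cancel₀ hNe ?_
      rw [hder, hder, hder]
      rw [heC, hNC] at h1
      linear_combination h1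
  funext ⟨b, a⟩
  have h1 := congrArg (fun p => Polynomial.coeff p (a : ℕ)) (hcp0 b)
  simp only [hcp, Polynomial.finsetSum_coeff, Polynomial.coeff_zero] at h1
  rw [Finset.sum_eq_single a] at h1
  · rw [Polynomial.coeff_C_mul, Polynomial.coeff_X_pow_self, mul_one] at h1
    exact h1
  · intro a' _ ha'
    rw [Polynomial.coeff_C_mul, Polynomial.coeff_X_pow, if_neg (fun h => ha' (Fin.ext h.symm)), mul_zero]
  · intro h
    exact absurd (Finset.mem_univ _) h

end Pool.Agent.W5h35.IC
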