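import Pool.Agent.W5h35.IC.Val

/-!
# Iterated integrals with a tangential base point

The letters are `none`, which stands for the form `dx / x`, and `some j`.
-/

set_option autoImplicit false

open PowerSeries Pool.Agent.Y113 Pool.Agent.Y120.GF Pool.Agent.Y120.GH Finset.HasAntidiagonal

namespace Pool.Agent.W5h35.IC

/-- the primitive with respect to `dx / x` -/
noncomputable def prim0 (f : ℚ⟦X⟧) : ℚ⟦X⟧ := PowerSeries.mk fun m => coeff m f / m

lemma const_prim0 (f : ℚ⟦X⟧) : constantCoeff (prim0 f) = 0 := by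
  rw [← coeff_zero_eq_constantCoeff_apply, prim0, coeff_mk]
  simp

lemma X_deriv_prim0 {f : ℚ⟦X⟧} (hf : constantCoeff f = 0) : X * d⁄dX ℚ (prim0 f) = f := by
  ext m
  rcases m with _ | m
  · rw [coeff_zero_eq_constantCoeff_apply, coeff_zero_eq_constantCoeff_apply, hf, map_mul, constantCoeff_X, zero_mul]
  · rw [mul_comm, coeff_succ_mul_X, coeff_derivative, prim0, coeff_mk]
    have : ((m : ℚ) + 1) ≠ 0 := by positivity
    push_cast
    field_simp

/-- the iterated integrals -/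
noncomputable def I2 {σ : Type} (ω : σ → ℚ⟦X⟧) : List (Option σ) → ℚ⟦X⟧
  | [] => 1
  | none :: w => prim0 (I2 ω w)
  | some j :: w => prim (ω j * I2 ω w)

/-- the words whose last letter is not `none` -/
def adm {σ : Type} (w : List (Option σ)) : Prop := w.getLast? ≠ some none

lemma adm_nil {σ : Type} : adm ([] : List (Option σ)) := by
  unfold adm
  simp

lemma adm_cons {σ : Type} {a : Option σ} {w : List (Option σ)} (h : w ≠ []) : adm (a :: w) ↔ adm w := by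
  unfold adm
  obtain ⟨b, v, rfl⟩ := List.exists_cons_of_ne_nil h
  rw [List.getLast?_cons_cons]

lemma adm_tail {σ : Type} {a : Option σ} {w : List (Option σ)} (h : adm (a :: w)) : adm w := by
  by_cases hw : w = []
  · rw [hw]
    exact adm_nil
  · exact (adm_cons hw).1 h

lemma adm_none {σ : Type} {w : List (Option σ)} (h : adm (none :: w)) : w ≠ [] := by
  rintro rfl
  unfold adm at h
  simp at h

/-- words of length at most `L` -/
abbrev Wt (σ : Type) (L : ℕ) : Type := {w : List (Option σ) // w.length ≤ L ∧ adm w}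

instance {σ : Type} [Finite σ] (L : ℕ) : Finite (Wt σ L) :=
  Finite.of_injective (fun w : Wt σ L => (⟨w.1, w.2.1⟩ : Wd (Option σ) L)) fun _ _ h => Subtype.ext (congrArg (fun v : Wd (Option σ) L => v.1) h)

noncomputable instance {σ : Type} [Fintype σ] (L : ℕ) : Fintype (Wt σ L) := Fintype.ofFinite _

section
variable {σ : Type} {y : ℚ⟦X⟧} {g Δ : Polynomial ℤ} {ω : σ → ℚ⟦X⟧}

lemma const_I2 {w : List (Option σ)} (hw : w ≠ []) : constantCoeff (I2 ω w) = 0 := by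
  rcases w with _ | ⟨_ | j, w⟩
  · exact absurd rfl hw
  · exact const_prim0 _
  · exact const_prim _

/-- the forms, multiplied by `x` -/
noncomputable def uu (ω : σ → ℚ⟦X⟧) : Option σ → ℚ⟦X⟧
  | none => 1
  | some j => X * ω j

lemma eul_I2 {a : Option σ} {w : List (Option σ)} (h : adm (a :: w)) : X * d⁄dX ℚ (I2 ω (a :: w)) = uu ω a * I2 ω w := by
  rcases a with _ | j
  · show X * d⁄dX ℚ (prim0 (I2 ω w)) = 1 * I2 ω w
    rw [X_deriv_prim0 (const_I2 (adm_none h)), one_mul]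
  · show X * d⁄dX ℚ (prim (ω j * I2 ω w)) = X * ω j * I2 ω w
    rw [deriv_prim, mul_assoc]

/-- the denominator of the system -/
noncomputable def TX (g Δ : Polynomial ℤ) : Polynomial ℤ := Polynomial.X * TT g Δ

lemma ps_X : ps Polynomial.X = (X : ℚ⟦X⟧) := by
  rw [ps, Polynomial.map_X, Polynomial.coe_X]

lemma ps_mul' (a b : Polynomial ℤ) : ps (a * b) = ps a * ps b := by
  rw [← psH_apply, map_mul]
  rfl

lemma ps_TX (g Δ : Polynomial ℤ) : ps (TX g Δ) = X * ps (TT g Δ) := by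
  rw [TX, ps_mul', ps_X]

lemma X_mem_RR (y : ℚ⟦X⟧) : (X : ℚ⟦X⟧) ∈ RR y := by
  rw [← ps_X]
  exact ps_mem y _

lemma Dat.p1x (h : Dat y g Δ ω) {z : ℚ⟦X⟧} (hz : z ∈ RR y) (k : ℕ) : ps (TX g Δ) ^ k * hd k z ∈ RR y := by
  rw [ps_TX, mul_pow, mul_assoc]
  exact Subring.mul_mem _ (Subring.pow_mem _ (X_mem_RR y) _) (h.p1 hz k)

lemma Dat.p2x (h : Dat y g Δ ω) (j : σ) (k : ℕ) : ps (TX g Δ) * (ps (TX g Δ) ^ k * hd k (ω j)) ∈ RR y := by
  have h1 : ps (TX g Δ) * (ps (TX g Δ) ^ k * hd k (ω j)) = X ^ (k + 1) * (ps (TT g Δ) * (ps (TT g Δ) ^ k * hd k (ω j))) := by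
    rw [ps_TX]
    ring
  rw [h1]
  exact Subring.mul_mem _ (Subring.pow_mem _ (X_mem_RR y) _) (h.p2' j k)

/-- the module generated by the iterated integrals -/
noncomputable def NT (y : ℚ⟦X⟧) (ω : σ → ℚ⟦X⟧) (L : ℕ) : Submodule (RR y) ℚ⟦X⟧ :=
  Submodule.span (RR y) (Set.range fun v : Wt σ L => I2 ω v.1)

lemma NT_mul {L : ℕ} {r z : ℚ⟦X⟧} (hr : r ∈ RR y) (hz : z ∈ NT y ω L) : r * z ∈ NT y ω L :=
  (NT y ω L).smul_mem ⟨r, hr⟩ hz

lemma I2_mem {L : ℕ} {w : List (Option σ)} (hw : w.length ≤ L) (ha : adm w) : I2 ω w ∈ NT y ω L :=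
  Submodule.subset_span ⟨⟨w, hw, ha⟩, rfl⟩

lemma hd_X_mul (k : ℕ) (f : ℚ⟦X⟧) : hd (k + 1) (X * f) = X * hd (k + 1) f + hd k f := by
  rw [hd_mul]
  have h1 : ∀ p ∈ antidiagonal (k + 1), hd p.1 (X : ℚ⟦X⟧) * hd p.2 f =
      (if p = (0, k + 1) then X * hd (k + 1) f else 0) + (if p = (1, k) then hd k f else 0) := by
    intro p hp
    rw [Finset.HasAntidiagonal.mem_antidiagonal] at hp
    obtain ⟨a, b⟩ := p
    simp only at hp
    rcases Nat.lt_or_ge a 1 with ha | ha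
    · obtain rfl : a = 0 := by omega
      obtain rfl : b = k + 1 := by omega
      rw [if_pos rfl, if_neg (by simp), add_zero, hd_zero]
    · rcases Nat.lt_or_ge a 2 with ha2 | ha2
      · obtain rfl : a = 1 := by omega
        obtain rfl : b = k := by omega
        rw [if_neg (by simp), if_pos rfl, zero_add, hd_one_eq, PowerSeries.derivative_X, one_mul]
      · rw [if_neg (by
          intro h
          have := congrArg Prod.fst h
          simp only at this
          omega), if_neg (by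
          intro h
          have := congrArg Prod.fst h
          simp only at this
          omega), add_zero]
        have : hd a (X : ℚ⟦X⟧) = 0 := by
          ext m
          rw [coeff_hd, coeff_X, if_neg (by omega), mul_zero, map_zero]
        simp only
        rw [this, zero_mul]
  rw [Finset.sum_congr rfl h1, Finset.sum_add_distrib, Finset.sum_ite_eq', Finset.sum_ite_eq', if_pos, if_pos]
  · rw [Finset.HasAntidiagonal.mem_antidiagonal]
    show 1 + k = k + 1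
    omega
  · rw [Finset.HasAntidiagonal.mem_antidiagonal]
    show 0 + (k + 1) = k + 1
    omega

/-- the recursion for the primitives with respect to `dx / x` -/
lemma hd_prim0 (k : ℕ) {f : ℚ⟦X⟧} (hf : constantCoeff f = 0) :
    X * (((k : ℚ⟦X⟧) + 1) * hd (k + 1) (prim0 f)) + (k : ℚ⟦X⟧) * hd k (prim0 f) = hd k f := by
  conv_rhs => rw [← X_deriv_prim0 hf]
  rcases k with _ | k
  · rw [hd_zero, hd_zero, hd_one_eq]
    push_cast
    ring
  · rw [hd_X_mul, hd_deriv, hd_deriv]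
    push_cast
    ring

/-- the divided derivatives of the iterated integrals -/
theorem Dat.p3x (h : Dat y g Δ ω) (L m : ℕ) (w : List (Option σ)) (hw : w.length ≤ L) (ha : adm w) (k : ℕ) (hk : k ≤ m) :
    (Nat.lcmUpto m : ℚ⟦X⟧) ^ w.length * (ps (TX g Δ) ^ k * hd k (I2 ω w)) ∈ NT y ω L := by
  induction w generalizing k with
  | nil =>
    rw [List.length_nil, pow_zero, one_mul]
    show _ * hd k 1 ∈ _
    rw [hd_one]
    split_ifs with h0
    · rw [h0, pow_zero, one_mul]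
      exact I2_mem (w := []) hw ha
    · rw [mul_zero]
      exact Submodule.zero_mem _
  | cons j w ih =>
    have hw' : w.length ≤ L := by
      rw [List.length_cons] at hw
      omega
    have ha' := adm_tail ha
    rcases Nat.eq_zero_or_pos k with rfl | hk0
    · rw [pow_zero, one_mul, hd_zero]
      exact NT_mul (Subring.pow_mem _ (nat_mem _) _) (I2_mem hw ha)
    obtain ⟨k, rfl⟩ : ∃ i, k = i + 1 := ⟨k - 1, by omega⟩
    obtain ⟨c, hc⟩ := Pool.Agent.Y113.dvd_lcmUpto (j := k + 1) (n := m) (by omega) hk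
    have h1 : (Nat.lcmUpto m : ℚ⟦X⟧) = (c : ℚ⟦X⟧) * ((k : ℚ⟦X⟧) + 1) := by
      rw [hc]
      push_cast
      ring
    rcases j with _ | j
    · -- the letter `dx / x`
      have hcw : constantCoeff (I2 ω w) = 0 := const_I2 (adm_none ha)
      have key : ∀ k, k ≤ m → (Nat.lcmUpto m : ℚ⟦X⟧) ^ w.length * ((k : ℚ⟦X⟧) * (ps (TX g Δ) ^ k * hd k (I2 ω (none :: w)))) ∈
          NT y ω L := by
        intro k
        induction k with
        | zero =>
          intro _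
          rw [Nat.cast_zero, zero_mul, mul_zero]
          exact Submodule.zero_mem _
        | succ k ihk =>
          intro hk
          have h3 := hd_prim0 k hcw
          have h4 : (Nat.lcmUpto m : ℚ⟦X⟧) ^ w.length * (((k + 1 : ℕ) : ℚ⟦X⟧) * (ps (TX g Δ) ^ (k + 1) * hd (k + 1) (I2 ω (none :: w)))) =
              ps (TT g Δ) * ((Nat.lcmUpto m : ℚ⟦X⟧) ^ w.length * (ps (TX g Δ) ^ k * hd k (I2 ω w))) -
              ps (TT g Δ) * ((Nat.lcmUpto m : ℚ⟦X⟧) ^ w.length * ((k : ℚ⟦X⟧) * (ps (TX g Δ) ^ k * hd k (I2 ω (none :: w))))) := by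
            rw [← h3]
            show (Nat.lcmUpto m : ℚ⟦X⟧) ^ w.length * (((k + 1 : ℕ) : ℚ⟦X⟧) * (ps (TX g Δ) ^ (k + 1) * hd (k + 1) (prim0 (I2 ω w)))) =
              ps (TT g Δ) * ((Nat.lcmUpto m : ℚ⟦X⟧) ^ w.length * (ps (TX g Δ) ^ k * (X * (((k : ℚ⟦X⟧) + 1) * hd (k + 1) (prim0 (I2 ω w))) +
                (k : ℚ⟦X⟧) * hd k (prim0 (I2 ω w))))) -
              ps (TT g Δ) * ((Nat.lcmUpto m : ℚ⟦X⟧) ^ w.length * ((k : ℚ⟦X⟧) * (ps (TX g Δ) ^ k * hd k (prim0 (I2 ω w)))))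
            rw [pow_succ]
            conv_lhs => rw [ps_TX g Δ]
            conv_rhs => rw [ps_TX g Δ]
            push_cast
            ring
          rw [h4]
          exact Submodule.sub_mem _ (NT_mul (ps_mem _ _) (ih hw' ha' k (by omega))) (NT_mul (ps_mem _ _) (ihk (by omega)))
      have h2 : (Nat.lcmUpto m : ℚ⟦X⟧) ^ (none :: w).length * (ps (TX g Δ) ^ (k + 1) * hd (k + 1) (I2 ω (none :: w))) =
          (c : ℚ⟦X⟧) * ((Nat.lcmUpto m : ℚ⟦X⟧) ^ w.length * (((k + 1 : ℕ) : ℚ⟦X⟧) * (ps (TX g Δ) ^ (k + 1) * hd (k + 1) (I2 ω (none :: w))))) := by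
        rw [List.length_cons, pow_succ]
        push_cast
        linear_combination (Nat.lcmUpto m : ℚ⟦X⟧) ^ w.length * (ps (TX g Δ) ^ (k + 1) * hd (k + 1) (I2 ω (none :: w))) * h1
      rw [h2]
      exact NT_mul (nat_mem _) (key (k + 1) hk)
    · have h2 : (Nat.lcmUpto m : ℚ⟦X⟧) ^ (some j :: w).length * (ps (TX g Δ) ^ (k + 1) * hd (k + 1) (I2 ω (some j :: w))) =
          (c : ℚ⟦X⟧) * ∑ p ∈ antidiagonal k, (ps (TX g Δ) * (ps (TX g Δ) ^ p.1 * hd p.1 (ω j))) *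
            ((Nat.lcmUpto m : ℚ⟦X⟧) ^ w.length * (ps (TX g Δ) ^ p.2 * hd p.2 (I2 ω w))) := by
        have h3 : ((k : ℚ⟦X⟧) + 1) * hd (k + 1) (I2 ω (some j :: w)) = ∑ p ∈ antidiagonal k, hd p.1 (ω j) * hd p.2 (I2 ω w) := by
          rw [← hd_mul]
          exact hd_prim k _
        have h4 : ∑ p ∈ antidiagonal k, (ps (TX g Δ) * (ps (TX g Δ) ^ p.1 * hd p.1 (ω j))) *
            ((Nat.lcmUpto m : ℚ⟦X⟧) ^ w.length * (ps (TX g Δ) ^ p.2 * hd p.2 (I2 ω w))) =
            (Nat.lcmUpto m : ℚ⟦X⟧) ^ w.length * ps (TX g Δ) ^ (k + 1) * ∑ p ∈ antidiagonal k, hd p.1 (ω j) * hd p.2 (I2 ω w) := by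
          rw [Finset.mul_sum]
          refine Finset.sum_congr rfl fun p hp => ?_
          rw [Finset.HasAntidiagonal.mem_antidiagonal] at hp
          rw [← hp, pow_succ, pow_add]
          ring
        rw [h4, ← h3, List.length_cons, pow_succ]
        linear_combination (Nat.lcmUpto m : ℚ⟦X⟧) ^ w.length * (ps (TX g Δ) ^ (k + 1) * hd (k + 1) (I2 ω (some j :: w))) * h1
      rw [h2]
      refine NT_mul (nat_mem _) (Submodule.sum_mem _ fun p hp => NT_mul (h.p2x j _) (ih hw' ha' _ ?_))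
      rw [Finset.HasAntidiagonal.mem_antidiagonal] at hp
      omega

/-- the functions of the system -/
noncomputable def YX (n : ℕ) (y : ℚ⟦X⟧) (ω : σ → ℚ⟦X⟧) (L : ℕ) (i : Fin n × Wt σ L) : ℚ⟦X⟧ := y ^ (i.1 : ℕ) * I2 ω i.2.1

theorem Dat.p4x (h : Dat y g Δ ω) (n L m : ℕ) (i : Fin n × Wt σ L) (k : ℕ) (hk : k ≤ m) :
    ((Nat.lcmUpto m ^ L : ℕ) : ℚ⟦X⟧) * (ps (TX g Δ) ^ k * hd k (YX n y ω L i)) ∈ NT y ω L := by
  obtain ⟨c, w, hw, ha⟩ := i
  have h1 : ((Nat.lcmUpto m ^ L : ℕ) : ℚ⟦X⟧) * (ps (TX g Δ) ^ k * hd k (YX n y ω L (c, ⟨w, hw, ha⟩))) =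
      ∑ p ∈ antidiagonal k, ((Nat.lcmUpto m : ℚ⟦X⟧) ^ (L - w.length) * (ps (TX g Δ) ^ p.1 * hd p.1 (y ^ (c : ℕ)))) *
        ((Nat.lcmUpto m : ℚ⟦X⟧) ^ w.length * (ps (TX g Δ) ^ p.2 * hd p.2 (I2 ω w))) := by
    rw [YX, hd_mul, Finset.mul_sum, Finset.mul_sum]
    refine Finset.sum_congr rfl fun p hp => ?_
    rw [Finset.HasAntidiagonal.mem_antidiagonal] at hp
    have e1 : ((Nat.lcmUpto m ^ L : ℕ) : ℚ⟦X⟧) = (Nat.lcmUpto m : ℚ⟦X⟧) ^ (L - w.length) * (Nat.lcmUpto m : ℚ⟦X⟧) ^ w.length := by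
      rw [← pow_add, Nat.sub_add_cancel hw]
      push_cast
      rfl
    rw [e1, ← hp, pow_add]
    ring
  rw [h1]
  refine Submodule.sum_mem _ fun p hp => NT_mul (Subring.mul_mem _ (Subring.pow_mem _ (nat_mem _) _)
    (h.p1x (Subring.pow_mem _ (y_mem y) _) _)) (h.p3x L m w hw ha _ ?_)
  rw [Finset.HasAntidiagonal.mem_antidiagonal] at hp
  omega

/-- expansion of the elements of the module -/
theorem NT_expand [Fintype σ] {P : Polynomial (Polynomial ℤ)} (hP : P.Monic) (hy : evy y P = 0) {L : ℕ} {z : ℚ⟦X⟧}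
    (hz : z ∈ NT y ω L) :
    ∃ F : Fin P.natDegree × Wt σ L → Polynomial ℤ, z = ∑ i, ps (F i) * YX P.natDegree y ω L i := by
  obtain ⟨c, rfl⟩ := (Submodule.mem_span_range_iff_exists_fun (RR y)).1 hz
  choose F hF using fun v : Wt σ L => RR_expand hP hy (c v).2
  refine ⟨fun i => F i.2 i.1, ?_⟩
  rw [Fintype.sum_prod_type, Finset.sum_comm]
  refine Finset.sum_congr rfl fun v _ => ?_
  show (c v : ℚ⟦X⟧) * I2 ω v.1 = _
  rw [hF v, Finset.sum_mul]
  refine Finset.sum_congr rfl fun k _ => ?_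
  rw [YX]
  ring

/-- Galochkin's condition -/
theorem Dat.galx [Fintype σ] [DecidableEq σ] (h : Dat y g Δ ω) {P : Polynomial (Polynomial ℤ)} (hP : P.Monic) (hy : evy y P = 0) (L : ℕ)
    (hLI : LinearIndependent (Polynomial ℚ) (YX P.natDegree y ω L))
    {A : Fin P.natDegree × Wt σ L → Fin P.natDegree × Wt σ L → Polynomial ℤ}
    (hA : ∀ i, ps (TX g Δ) * d⁄dX ℚ (YX P.natDegree y ω L i) = ∑ j, ps (A i j) * YX P.natDegree y ω L j) :
    ∃ C : ℝ, ∀ m, ∃ d : ℕ, 0 < d ∧ (d : ℝ) ≤ C ^ (m + 1) ∧ ∀ s ≤ m, ∀ i j, ∃ H : Polynomial ℤ,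
      (d : Polynomial ℤ) * itm (TX g Δ) A s i j = (s.factorial : Polynomial ℤ) * H := by
  classical
  refine ⟨(2 ^ 8) ^ L, fun m => ⟨Nat.lcmUpto m ^ L, ?_, ?_, fun s hs i j => ?_⟩⟩
  · have := Nat.lcmUpto_pos m
    positivity
  · push_cast
    calc (Nat.lcmUpto m : ℝ) ^ L ≤ ((2 ^ 8) ^ m) ^ L := pow_le_pow_left₀ (by positivity) (lcm_bound m) _
      _ = ((2 ^ 8) ^ L) ^ m := by rw [← pow_mul, ← pow_mul, ← pow_mul, ← pow_mul]; ring
      _ ≤ _ := pow_le_pow_right₀ (one_le_pow₀ (by norm_num)) (by omega)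
  · obtain ⟨F, hF⟩ := NT_expand hP hy (h.p4x P.natDegree L m i s hs)
    have h1 := itm_spec hA s i
    have hpc : ∀ n : ℕ, ps (n : Polynomial ℤ) = (n : ℚ⟦X⟧) := by
      intro n
      rw [← psH_apply, map_natCast]
    have hsum : ∑ j, ps ((Nat.lcmUpto m ^ L : ℕ) * itm (TX g Δ) A s i j - (s.factorial : ℕ) * F j) * YX P.natDegree y ω L j = 0 := by
      have e1 : ∀ j, ps ((Nat.lcmUpto m ^ L : ℕ) * itm (TX g Δ) A s i j - (s.factorial : ℕ) * F j) * YX P.natDegree y ω L j =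
          ((Nat.lcmUpto m ^ L : ℕ) : ℚ⟦X⟧) * (ps (itm (TX g Δ) A s i j) * YX P.natDegree y ω L j) -
          (s.factorial : ℚ⟦X⟧) * (ps (F j) * YX P.natDegree y ω L j) := by
        intro j
        rw [← psH_apply, map_sub, map_mul, map_mul, map_natCast, map_natCast, psH_apply, psH_apply]
        ring
      rw [Finset.sum_congr rfl fun j _ => e1 j, Finset.sum_sub_distrib, ← Finset.mul_sum, ← Finset.mul_sum, ← hF, ← h1]
      ring
    have h2 := (Fintype.linearIndependent_iff.1 hLI)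
      (fun j => (((Nat.lcmUpto m ^ L : ℕ) * itm (TX g Δ) A s i j - (s.factorial : ℕ) * F j : Polynomial ℤ)).map (Int.castRingHom ℚ)) (by
        rw [← hsum]
        refine Finset.sum_congr rfl fun j _ => ?_
        rw [Algebra.smul_def]
        rfl) j
    have h3 := (Polynomial.map_eq_zero_iff (Int.castRingHom ℚ).injective_int).1 h2
    exact ⟨F j, sub_eq_zero.1 h3⟩

end

end Pool.Agent.W5h35.IC
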