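import Pool.Agent.W5h35.IC.Tan
import Pool.Agent.W5h35.IC.Nil2
import Pool.Agent.Y916.Af.Gs3

/-!
# The system of the iterated integrals with a tangential base point
-/

set_option autoImplicit false

open PowerSeries Pool.Agent.Y113 Pool.Agent.Y120.GF Pool.Agent.Y120.GH Finset.HasAntidiagonal

namespace Pool.Agent.W5h35.IC

section nilp
variable {σ : Type} [Fintype σ] [DecidableEq σ]

/-- the residue at zero -/
def Nx (n : ℕ) (σ : Type) [DecidableEq σ] (L : ℕ) : Matrix (Fin n × Wt σ L) (Fin n × Wt σ L) ℤ :=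
  Matrix.of fun i j => if i.1 = j.1 ∧ i.2.1 = none :: j.2.1 then 1 else 0

lemma Nx_pow {n L : ℕ} (k : ℕ) (i j : Fin n × Wt σ L) (h : (Nx n σ L ^ k) i j ≠ 0) : i.2.1.length = j.2.1.length + k := by
  induction k generalizing j with
  | zero =>
    rw [pow_zero] at h
    by_cases hij : i = j
    · rw [hij, add_zero]
    · rw [Matrix.one_apply_ne hij] at h
      exact absurd rfl h
  | succ k ih =>
    rw [pow_succ, Matrix.mul_apply] at h
    obtain ⟨l, -, hl⟩ := Finset.exists_ne_zero_of_sum_ne_zero h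
    have h1 := ih l (left_ne_zero_of_mul hl)
    have h2 : l.2.1 = none :: j.2.1 := by
      by_contra hc
      apply right_ne_zero_of_mul hl
      rw [Nx, Matrix.of_apply, if_neg (fun h => hc h.2)]
    rw [h1, h2, List.length_cons]
    omega

lemma Nx_nilp (n L : ℕ) : IsNilpotent (Nx n σ L) := by
  refine ⟨L + 1, ?_⟩
  ext i j
  by_contra h
  have h1 := Nx_pow (L + 1) i j h
  have := i.2.2.1
  omega

end nilp

section
variable {σ : Type} {y : ℚ⟦X⟧} {g Δ : Polynomial ℤ} {ω : σ → ℚ⟦X⟧}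

lemma Dat.d_mem (h : Dat y g Δ ω) {z : ℚ⟦X⟧} (hz : z ∈ RR y) : ps (TT g Δ) * d⁄dX ℚ z ∈ RR y := by
  have h1 := h.p1 hz 1
  rw [pow_one, hd_one_eq] at h1
  exact h1

lemma Dat.om_mem (h : Dat y g Δ ω) (j : σ) : ps (TT g Δ) * ω j ∈ RR y := by
  have h1 := h.p2' j 0
  rw [pow_zero, one_mul, hd_zero] at h1
  exact h1

/-- the differential equations -/
theorem Dat.exists_odex [Fintype σ] [DecidableEq σ] (h : Dat y g Δ ω) {P : Polynomial (Polynomial ℤ)} (hP : P.Monic) (hy : evy y P = 0) (L : ℕ) :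
    ∃ A' : Fin P.natDegree × Wt σ L → Fin P.natDegree × Wt σ L → Polynomial ℤ,
      ∀ i, ps (TX g Δ) * d⁄dX ℚ (YX P.natDegree y ω L i) =
        ∑ j, ps (Polynomial.X * A' i j + TT g Δ * Polynomial.C (Nx P.natDegree σ L i j)) * YX P.natDegree y ω L j := by
  have key : ∀ i : Fin P.natDegree × Wt σ L, ∃ z ∈ NT y ω L, ps (TX g Δ) * d⁄dX ℚ (YX P.natDegree y ω L i) =
      X * z + ps (TT g Δ) * ∑ j, ((Nx P.natDegree σ L i j : ℤ) : ℚ⟦X⟧) * YX P.natDegree y ω L j := by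
    rintro ⟨c, w, hw, ha⟩
    have hyc : ps (TT g Δ) * d⁄dX ℚ (y ^ (c : ℕ)) ∈ RR y := h.d_mem (Subring.pow_mem _ (y_mem y) _)
    have hne : ∀ (a : List (Option σ)) (h1 : a.length ≤ L) (h2 : adm a), (∀ v : List (Option σ), a ≠ none :: v) →
        ∑ j, ((Nx P.natDegree σ L (c, ⟨a, h1, h2⟩) j : ℤ) : ℚ⟦X⟧) * YX P.natDegree y ω L j = 0 := by
      intro a h1 h2 hav
      refine Finset.sum_eq_zero fun j _ => ?_
      rw [Nx, Matrix.of_apply, if_neg (fun hh => hav _ hh.2), Int.cast_zero, zero_mul]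
    rcases w with _ | ⟨a, w⟩
    · refine ⟨(ps (TT g Δ) * d⁄dX ℚ (y ^ (c : ℕ))) * I2 ω [], NT_mul hyc (I2_mem hw ha), ?_⟩
      rw [hne _ hw ha (fun v hv => by simp at hv), mul_zero, add_zero, YX, ps_TX]
      show X * ps (TT g Δ) * d⁄dX ℚ (y ^ (c : ℕ) * 1) = X * (ps (TT g Δ) * d⁄dX ℚ (y ^ (c : ℕ)) * 1)
      rw [mul_one]
      ring
    · have hw' : w.length ≤ L := by
        rw [List.length_cons] at hw
        omega
      have ha' := adm_tail ha
      have he := eul_I2 (ω := ω) ha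
      have hd : ps (TX g Δ) * d⁄dX ℚ (YX P.natDegree y ω L (c, ⟨a :: w, hw, ha⟩)) =
          X * ((ps (TT g Δ) * d⁄dX ℚ (y ^ (c : ℕ))) * I2 ω (a :: w)) + ps (TT g Δ) * y ^ (c : ℕ) * (uu ω a * I2 ω w) := by
        rw [← he, YX, Derivation.leibniz, smul_eq_mul, smul_eq_mul, ps_TX]
        ring
      rcases a with _ | j
      · refine ⟨(ps (TT g Δ) * d⁄dX ℚ (y ^ (c : ℕ))) * I2 ω (none :: w), NT_mul hyc (I2_mem hw ha), ?_⟩
        rw [hd, Finset.sum_eq_single (c, (⟨w, hw', ha'⟩ : Wt σ L))]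
        · rw [Nx, Matrix.of_apply, if_pos ⟨rfl, rfl⟩, Int.cast_one, one_mul, YX]
          show _ + ps (TT g Δ) * y ^ (c : ℕ) * (1 * I2 ω w) = _
          ring
        · rintro ⟨c', v⟩ _ hne
          rw [Nx, Matrix.of_apply, if_neg, Int.cast_zero, zero_mul]
          rintro ⟨h1, h2⟩
          apply hne
          refine Prod.ext h1.symm (Subtype.ext ?_)
          simp only [List.cons.injEq, true_and] at h2
          exact h2.symm
        · intro hh
          exact absurd (Finset.mem_univ _) hh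
      · refine ⟨(ps (TT g Δ) * d⁄dX ℚ (y ^ (c : ℕ))) * I2 ω (some j :: w) + ((ps (TT g Δ) * ω j) * y ^ (c : ℕ)) * I2 ω w,
          Submodule.add_mem _ (NT_mul hyc (I2_mem hw ha))
            (NT_mul (Subring.mul_mem _ (h.om_mem j) (Subring.pow_mem _ (y_mem y) _)) (I2_mem hw' ha')), ?_⟩
        rw [hne _ hw ha (fun v hv => by simp at hv), mul_zero, add_zero, hd]
        show _ + ps (TT g Δ) * y ^ (c : ℕ) * (X * ω j * I2 ω w) = _
        ring
  choose z hz hzeq using key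
  choose A' hA' using fun i => NT_expand hP hy (hz i)
  refine ⟨A', fun i => ?_⟩
  rw [hzeq i, hA' i, Finset.mul_sum, Finset.mul_sum, ← Finset.sum_add_distrib]
  refine Finset.sum_congr rfl fun j _ => ?_
  have h1 : ps (Polynomial.X * A' i j + TT g Δ * Polynomial.C (Nx P.natDegree σ L i j)) =
      X * ps (A' i j) + ps (TT g Δ) * ((Nx P.natDegree σ L i j : ℤ) : ℚ⟦X⟧) := by
    rw [← psH_apply, map_add, map_mul, map_mul, eq_intCast Polynomial.C, map_intCast, psH_apply, psH_apply, psH_apply, ps_X]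
  rw [h1]
  ring

/-- the integers inside the rational numbers -/
noncomputable def ZQ : Subring ℚ := (Int.castRingHom ℚ).range

lemma mem_ZQ {q : ℚ} : q ∈ ZQ ↔ ∃ a : ℤ, q = a := by
  unfold ZQ
  rw [RingHom.mem_range]
  exact ⟨fun ⟨a, ha⟩ => ⟨a, ha.symm⟩, fun ⟨a, ha⟩ => ⟨a, ha.symm⟩⟩

lemma ZZ_ZQ {z : ℚ⟦X⟧} (h : z ∈ ZZ) : constantCoeff z ∈ ZQ := mem_ZQ.2 (mem_ZZ.1 h)

lemma Dat.int_y (h : Dat y g Δ ω) (c k : ℕ) : ((TT g Δ).coeff 0 : ℚ) ^ k * coeff k (y ^ c) ∈ ZQ := by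
  have h1 := ZZ_ZQ (h.RR_int (h.p1 (Subring.pow_mem _ (y_mem y) c) k))
  rw [map_mul, map_pow, const_hd, const_ps] at h1
  exact h1

lemma Dat.int_om (h : Dat y g Δ ω) (j : σ) (k : ℕ) : ((TT g Δ).coeff 0 : ℚ) ^ (k + 1) * coeff k (ω j) ∈ ZQ := by
  have h1 := ZZ_ZQ (h.RR_int (h.p2' j k))
  rw [map_mul, map_mul, map_pow, const_hd, const_ps, ← mul_assoc, ← pow_succ'] at h1
  exact h1

lemma Dat.int_I2 (h : Dat y g Δ ω) (m : ℕ) (w : List (Option σ)) (k : ℕ) (hk : k ≤ m) :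
    (Nat.lcmUpto m : ℚ) ^ w.length * (((TT g Δ).coeff 0 : ℚ) ^ k * coeff k (I2 ω w)) ∈ ZQ := by
  set t : ℚ := ((TT g Δ).coeff 0 : ℚ) with ht
  have htZ : t ∈ ZQ := mem_ZQ.2 ⟨_, rfl⟩
  induction w generalizing k with
  | nil =>
    rw [List.length_nil, pow_zero, one_mul]
    show t ^ k * coeff k (1 : ℚ⟦X⟧) ∈ ZQ
    refine Subring.mul_mem _ (Subring.pow_mem _ htZ _) ?_
    rw [coeff_one]
    split_ifs
    · exact Subring.one_mem _
    · exact Subring.zero_mem _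
  | cons a w ih =>
    rcases Nat.eq_zero_or_pos k with rfl | hk0
    · have : coeff 0 (I2 ω (a :: w)) = 0 := by
        rw [coeff_zero_eq_constantCoeff_apply, const_I2 (by simp)]
      rw [this, mul_zero, mul_zero]
      exact Subring.zero_mem _
    obtain ⟨k, rfl⟩ : ∃ i, k = i + 1 := ⟨k - 1, by omega⟩
    obtain ⟨c, hc⟩ := Pool.Agent.Y113.dvd_lcmUpto (j := k + 1) (n := m) (by omega) hk
    have h1 : (Nat.lcmUpto m : ℚ) = (c : ℚ) * ((k : ℚ) + 1) := by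
      rw [hc]
      push_cast
      ring
    have hk1 : ((k : ℚ) + 1) ≠ 0 := by positivity
    have hcZ : (c : ℚ) ∈ ZQ := mem_ZQ.2 ⟨c, by simp⟩
    rcases a with _ | j
    · have h2 : (Nat.lcmUpto m : ℚ) ^ (none :: w).length * (t ^ (k + 1) * coeff (k + 1) (I2 ω (none :: w))) =
          (c : ℚ) * ((Nat.lcmUpto m : ℚ) ^ w.length * (t ^ (k + 1) * coeff (k + 1) (I2 ω w))) := by
        show (Nat.lcmUpto m : ℚ) ^ (w.length + 1) * (t ^ (k + 1) * coeff (k + 1) (prim0 (I2 ω w))) = _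
        rw [prim0, coeff_mk, pow_succ]
        have hx : coeff (k + 1) (I2 ω w) = coeff (k + 1) (I2 ω w) / ((k + 1 : ℕ) : ℚ) * ((k : ℚ) + 1) := by
          push_cast
          field_simp
        linear_combination (Nat.lcmUpto m : ℚ) ^ w.length * t ^ (k + 1) * (coeff (k + 1) (I2 ω w) / ((k + 1 : ℕ) : ℚ)) * h1 -
          (Nat.lcmUpto m : ℚ) ^ w.length * t ^ (k + 1) * c * hx
      rw [h2]
      exact Subring.mul_mem _ hcZ (ih _ hk)
    · have h2 : (Nat.lcmUpto m : ℚ) ^ (some j :: w).length * (t ^ (k + 1) * coeff (k + 1) (I2 ω (some j :: w))) =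
          (c : ℚ) * ∑ p ∈ antidiagonal k, (t ^ (p.1 + 1) * coeff p.1 (ω j)) *
            ((Nat.lcmUpto m : ℚ) ^ w.length * (t ^ p.2 * coeff p.2 (I2 ω w))) := by
        have e1 : ∑ p ∈ antidiagonal k, (t ^ (p.1 + 1) * coeff p.1 (ω j)) *
            ((Nat.lcmUpto m : ℚ) ^ w.length * (t ^ p.2 * coeff p.2 (I2 ω w))) =
            (Nat.lcmUpto m : ℚ) ^ w.length * t ^ (k + 1) * coeff k (ω j * I2 ω w) := by
          rw [coeff_mul, Finset.mul_sum]
          refine Finset.sum_congr rfl fun p hp => ?_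
          rw [Finset.HasAntidiagonal.mem_antidiagonal] at hp
          rw [← hp]
          ring
        rw [e1]
        show (Nat.lcmUpto m : ℚ) ^ (w.length + 1) * (t ^ (k + 1) * coeff (k + 1) (prim (ω j * I2 ω w))) = _
        rw [prim, coeff_mk, Nat.add_sub_cancel, pow_succ]
        have hx : coeff k (ω j * I2 ω w) = coeff k (ω j * I2 ω w) / ((k + 1 : ℕ) : ℚ) * ((k : ℚ) + 1) := by
          push_cast
          field_simp
        linear_combination (Nat.lcmUpto m : ℚ) ^ w.length * t ^ (k + 1) * (coeff k (ω j * I2 ω w) / ((k + 1 : ℕ) : ℚ)) * h1 -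
          (Nat.lcmUpto m : ℚ) ^ w.length * t ^ (k + 1) * c * hx
      rw [h2]
      refine Subring.mul_mem _ hcZ (Subring.sum_mem _ fun p hp => ?_)
      rw [Finset.HasAntidiagonal.mem_antidiagonal] at hp
      exact Subring.mul_mem _ (h.int_om j _) (ih _ (by omega))

/-- the denominators of the coefficients -/
theorem Dat.denx [Fintype σ] (h : Dat y g Δ ω) (n L : ℕ) (hT : (TT g Δ).coeff 0 ≠ 0) :
    ∃ C : ℝ, ∀ m, ∃ d : ℕ, 0 < d ∧ (d : ℝ) ≤ C ^ (m + 1) ∧ ∀ i, ∀ j ≤ m, ∃ a : ℤ, (d : ℚ) * coeff j (YX n y ω L i) = a := by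
  set t := (TT g Δ).coeff 0 with ht
  have htn : 1 ≤ t.natAbs := Int.natAbs_pos.2 hT
  refine ⟨(2 ^ 8) ^ L * (t.natAbs : ℝ) ^ 2, fun m => ⟨Nat.lcmUpto m ^ L * (t.natAbs ^ 2) ^ m, ?_, ?_, fun i j hj => ?_⟩⟩
  · have := Nat.lcmUpto_pos m
    positivity
  · push_cast
    rw [mul_pow]
    have h1 : (1 : ℝ) ≤ t.natAbs := by exact_mod_cast htn
    refine mul_le_mul ?_ ?_ (by positivity) (by positivity)
    · calc (Nat.lcmUpto m : ℝ) ^ L ≤ ((2 ^ 8) ^ m) ^ L := pow_le_pow_left₀ (by positivity) (lcm_bound m) _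
        _ = ((2 ^ 8) ^ L) ^ m := by rw [← pow_mul, ← pow_mul, ← pow_mul, ← pow_mul]; ring
        _ ≤ _ := pow_le_pow_right₀ (one_le_pow₀ (by norm_num)) (by omega)
    · exact pow_le_pow_right₀ (one_le_pow₀ h1) (by omega)
  · obtain ⟨c, w, hw, ha⟩ := i
    rw [← mem_ZQ]
    have htZ : (t : ℚ) ∈ ZQ := mem_ZQ.2 ⟨_, rfl⟩
    have hlZ : (Nat.lcmUpto m : ℚ) ∈ ZQ := mem_ZQ.2 ⟨Nat.lcmUpto m, by simp⟩
    have h2 : ((t.natAbs : ℕ) : ℚ) ^ 2 = (t : ℚ) ^ 2 := by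
      rw [Nat.cast_natAbs, Int.cast_abs, sq_abs]
    have h3 : (t : ℚ) ^ (2 * m) = (t : ℚ) ^ (2 * m - j) * (t : ℚ) ^ j := by
      rw [← pow_add]
      congr 1
      omega
    have h4 : ((Nat.lcmUpto m ^ L * (t.natAbs ^ 2) ^ m : ℕ) : ℚ) * coeff j (YX n y ω L (c, ⟨w, hw, ha⟩)) =
        ((Nat.lcmUpto m : ℚ) ^ (L - w.length) * (t : ℚ) ^ (2 * m - j)) * ∑ p ∈ antidiagonal j,
          ((t : ℚ) ^ p.1 * coeff p.1 (y ^ (c : ℕ))) * ((Nat.lcmUpto m : ℚ) ^ w.length * ((t : ℚ) ^ p.2 * coeff p.2 (I2 ω w))) := by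
      have e1 : ∑ p ∈ antidiagonal j, ((t : ℚ) ^ p.1 * coeff p.1 (y ^ (c : ℕ))) * ((Nat.lcmUpto m : ℚ) ^ w.length * ((t : ℚ) ^ p.2 * coeff p.2 (I2 ω w))) =
          (Nat.lcmUpto m : ℚ) ^ w.length * (t : ℚ) ^ j * coeff j (YX n y ω L (c, ⟨w, hw, ha⟩)) := by
        rw [YX, coeff_mul, Finset.mul_sum]
        refine Finset.sum_congr rfl fun p hp => ?_
        rw [Finset.HasAntidiagonal.mem_antidiagonal] at hp
        rw [← hp]
        ring
      have e2 : (Nat.lcmUpto m : ℚ) ^ L = (Nat.lcmUpto m : ℚ) ^ (L - w.length) * (Nat.lcmUpto m : ℚ) ^ w.length := by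
        rw [← pow_add, Nat.sub_add_cancel hw]
      rw [e1]
      push_cast
      rw [h2, ← pow_mul, h3, e2]
      ring
    rw [h4]
    refine Subring.mul_mem _ (Subring.mul_mem _ (Subring.pow_mem _ hlZ _) (Subring.pow_mem _ htZ _)) (Subring.sum_mem _ fun p hp => ?_)
    rw [Finset.HasAntidiagonal.mem_antidiagonal] at hp
    exact Subring.mul_mem _ (h.int_y _ _) (h.int_I2 m w _ (by omega))

lemma GB.mul {A : ℝ} {f g : ℚ⟦X⟧} (h : GB A f) (h' : GB A g) (hA : 1 ≤ A) : GB (2 * A ^ 2) (f * g) := by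
  intro m
  rw [coeff_mul]
  push_cast
  refine (Finset.abs_sum_le_sum_abs _ _).trans ?_
  have h1 : ∀ p ∈ antidiagonal m, |((coeff p.1 f : ℚ) : ℝ) * ((coeff p.2 g : ℚ) : ℝ)| ≤ A ^ (2 * (m + 1)) := by
    intro p hp
    rw [Finset.HasAntidiagonal.mem_antidiagonal] at hp
    rw [abs_mul]
    calc |((coeff p.1 f : ℚ) : ℝ)| * |((coeff p.2 g : ℚ) : ℝ)| ≤ A ^ (p.1 + 1) * A ^ (p.2 + 1) :=
          mul_le_mul (h _) (h' _) (abs_nonneg _) (by positivity)
      _ = A ^ (m + 2) := by rw [← pow_add, ← hp]; congr 1; ring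
      _ ≤ _ := pow_le_pow_right₀ hA (by omega)
  refine (Finset.sum_le_sum h1).trans ?_
  rw [Finset.sum_const, Finset.Nat.card_antidiagonal, nsmul_eq_mul, mul_pow, ← pow_mul]
  refine mul_le_mul_of_nonneg_right ?_ (by positivity)
  push_cast
  exact (succ_le_two_pow m).trans (pow_le_pow_right₀ (by norm_num) (by omega))

lemma GB.prim {A : ℝ} {f : ℚ⟦X⟧} (h : GB A f) (hA : 1 ≤ A) : GB A (prim f) := by
  intro m
  rw [IC.prim, coeff_mk]
  push_cast
  rcases m with _ | m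
  · simp only [Nat.cast_zero, div_zero, abs_zero]
    positivity
  · rw [Nat.add_sub_cancel, abs_div]
    have h1 : (1 : ℝ) ≤ |((m + 1 : ℕ) : ℝ)| := by
      rw [Nat.abs_cast]
      exact_mod_cast Nat.succ_le_succ (Nat.zero_le m)
    refine (div_le_self (abs_nonneg _) h1).trans ((h m).trans (pow_le_pow_right₀ hA (by omega)))

lemma GB.prim0 {A : ℝ} {f : ℚ⟦X⟧} (h : GB A f) (hA : 1 ≤ A) : GB A (prim0 f) := by
  intro m
  rw [IC.prim0, coeff_mk]
  push_cast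
  rcases m with _ | m
  · simp only [Nat.cast_zero, div_zero, abs_zero]
    positivity
  · rw [abs_div]
    have h1 : (1 : ℝ) ≤ |((m + 1 : ℕ) : ℝ)| := by
      rw [Nat.abs_cast]
      exact_mod_cast Nat.succ_le_succ (Nat.zero_le m)
    exact (div_le_self (abs_nonneg _) h1).trans (h (m + 1))

/-- the sizes of the coefficients -/
theorem Dat.size0 [Fintype σ] (h : Dat y g Δ ω) {P : Polynomial (Polynomial ℤ)} (hP : P.Monic) (hy : evy y P = 0)
    (hT : (TT g Δ).coeff 0 ≠ 0) : ∃ A : ℝ, 1 ≤ A ∧ (∀ j, GB A (ω j)) ∧ ∀ c : Fin P.natDegree, GB A (y ^ (c : ℕ)) := by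
  obtain ⟨B, hB⟩ := h.exists_ode hP hy 1
  obtain ⟨C, hC1, hC⟩ := size_ord hT hB
  have hn : 0 < P.natDegree := by
    rcases Nat.eq_zero_or_pos P.natDegree with h0 | h0
    · exfalso
      have h1 := Polynomial.eq_one_of_monic_natDegree_zero hP h0
      rw [h1, map_one] at hy
      exact one_ne_zero hy
    · exact h0
  have hCA : C ≤ 2 * C ^ 2 := by nlinarith
  refine ⟨2 * C ^ 2, hC1.trans hCA, fun j => ?_, fun c => ?_⟩
  · have h0 : GB C (II ω [j]) := by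
      intro m
      have h1 := hC (⟨0, hn⟩, ⟨[j], by simp⟩) m
      rw [YY] at h1
      simpa using h1
    have h1 := h0.deriv hC1
    have h2 : d⁄dX ℚ (II ω [j]) = ω j := by
      show d⁄dX ℚ (IC.prim (ω j * 1)) = _
      rw [deriv_prim, mul_one]
    rw [h2] at h1
    exact h1
  · have h0 : GB C (y ^ (c : ℕ)) := by
      intro m
      have h1 := hC (c, ⟨[], by simp⟩) m
      rw [YY] at h1
      simpa [II] using h1
    exact h0.mono hC1 hCA

lemma exists_GB_I2 {A : ℝ} (hA : 1 ≤ A) (hω : ∀ j, GB A (ω j)) (w : List (Option σ)) : ∃ B : ℝ, 1 ≤ B ∧ GB B (I2 ω w) := by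
  induction w with
  | nil =>
    refine ⟨1, le_rfl, fun m => ?_⟩
    show |((coeff m (1 : ℚ⟦X⟧) : ℚ) : ℝ)| ≤ _
    rw [coeff_one]
    split_ifs <;> simp
  | cons a w ih =>
    obtain ⟨B, hB, h⟩ := ih
    rcases a with _ | j
    · exact ⟨B, hB, h.prim0 hB⟩
    · have hM : 1 ≤ max A B := hA.trans (le_max_left _ _)
      have h1 := ((hω j).mono hA (le_max_left A B)).mul (h.mono hB (le_max_right A B)) hM
      have h2 : 1 ≤ 2 * max A B ^ 2 := by nlinarith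
      exact ⟨_, h2, h1.prim h2⟩

theorem Dat.sizex [Fintype σ] (h : Dat y g Δ ω) {P : Polynomial (Polynomial ℤ)} (hP : P.Monic) (hy : evy y P = 0)
    (hT : (TT g Δ).coeff 0 ≠ 0) (L : ℕ) :
    ∃ C : ℝ, ∀ (i : Fin P.natDegree × Wt σ L) (m : ℕ), |((coeff m (YX P.natDegree y ω L i) : ℚ) : ℝ)| ≤ C ^ (m + 1) := by
  classical
  obtain ⟨A, hA, hω, hyc⟩ := h.size0 hP hy hT
  have h1 : ∀ i : Fin P.natDegree × Wt σ L, ∃ B : ℝ, 1 ≤ B ∧ GB B (YX P.natDegree y ω L i) := by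
    intro i
    obtain ⟨B, hB, hI⟩ := exists_GB_I2 hA hω i.2.1
    have hM : 1 ≤ max A B := hA.trans (le_max_left _ _)
    have h2 := ((hyc i.1).mono hA (le_max_left A B)).mul (hI.mono hB (le_max_right A B)) hM
    exact ⟨_, by nlinarith, h2⟩
  choose B hB1 hB using h1
  refine ⟨∑ i, B i, fun i m => ?_⟩
  have h3 : B i ≤ ∑ i, B i := Finset.single_le_sum (f := B) (fun j _ => zero_le_one.trans (hB1 j)) (Finset.mem_univ i)
  exact (hB i).mono (hB1 i) h3 m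

/-- the system satisfies all conditions -/
theorem Dat.gfs [Fintype σ] [DecidableEq σ] (h : Dat y g Δ ω) {P : Polynomial (Polynomial ℤ)} (hP : P.Monic) (hy : evy y P = 0)
    (hT : (TT g Δ).coeff 0 ≠ 0) (L : ℕ) (hLI : LinearIndependent (Polynomial ℚ) (YX P.natDegree y ω L))
    {r : ℕ} (e : Fin r ≃ Fin P.natDegree × Wt σ L) :
    ∃ (T : Polynomial ℤ) (A : Fin r → Fin r → Polynomial ℤ), Pool.Agent.Y916.Af.GFs T A (fun i => YX P.natDegree y ω L (e i)) := by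
  classical
  obtain ⟨A', hA'⟩ := h.exists_odex hP hy L
  set A : Fin P.natDegree × Wt σ L → Fin P.natDegree × Wt σ L → Polynomial ℤ :=
    fun i j => Polynomial.X * A' i j + TT g Δ * Polynomial.C (Nx P.natDegree σ L i j) with hA
  have hode : ∀ i, ps (TX g Δ) * d⁄dX ℚ (YX P.natDegree y ω L i) = ∑ j, ps (A i j) * YX P.natDegree y ω L j := hA'
  obtain ⟨Cs, hCs⟩ := h.sizex hP hy hT L
  obtain ⟨q, C, hG⟩ := gsys_of hode ⟨Cs, hCs⟩ (h.denx _ L hT) (h.galx hP hy L hLI hode)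
  refine ⟨TX g Δ, fun i j => A (e i) (e j), ?_, ?_, ⟨Cs, fun i m => hCs (e i) m⟩, ⟨q, C, ?_⟩, ?_⟩
  · rw [TX]
    refine mul_ne_zero Polynomial.X_ne_zero ?_
    intro h0
    rw [h0] at hT
    exact hT (Polynomial.coeff_zero 0)
  · intro i
    rw [hode (e i)]
    exact (Equiv.sum_comp e fun j => ps (A (e i) j) * YX P.natDegree y ω L j).symm
  · refine ⟨hG.one_le, hG.degT, hG.sizeT, fun i m => hG.size (e i) m, fun m => ?_, fun k => ?_⟩
    · obtain ⟨d, h1, h2, h3⟩ := hG.den m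
      exact ⟨d, h1, h2, fun i => h3 (e i)⟩
    · obtain ⟨g₀, h1, h2, h3⟩ := hG.der k
      refine ⟨g₀, h1, h2, fun s hs => ?_⟩
      obtain ⟨G, h4, h5, h6⟩ := h3 s hs
      refine ⟨fun i j => G (e i) (e j), fun i j => h4 _ _, fun i j => h5 _ _, fun i => ?_⟩
      rw [h6 (e i)]
      exact (Equiv.sum_comp e fun j => ps (G (e i) j) * YX P.natDegree y ω L j).symm
  · refine qu_nilp (T₁ := TT g Δ) (A' := fun i j => A' (e i) (e j)) (N := (Nx P.natDegree σ L).submatrix e e) hT ?_ rfl fun i j => rfl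
    have h1 : (Nx P.natDegree σ L).submatrix e e = Matrix.reindexAlgEquiv ℤ ℤ e.symm (Nx P.natDegree σ L) := rfl
    rw [h1]
    exact (Nx_nilp _ _).map _

end

end Pool.Agent.W5h35.IC
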