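import Pool.Agent.W5h35.IC.Ind
import Pool.Agent.Y113.G.Ev

/-!
# The values of iterated integrals
-/

set_option autoImplicit false

open PowerSeries Pool.Agent.Y113 Pool.Agent.Y120.GF Pool.Agent.Y120.GH Filter Topology MeasureTheory

namespace Pool.Agent.W5h35.IC

/-- the sum of the series at `x` -/
noncomputable def val (f : ℚ⟦X⟧) (x : ℝ) : ℝ := ∑' m : ℕ, ((coeff m f : ℚ) : ℝ) * x ^ m

lemma ev_val (t : ℝ) (f : ℚ⟦X⟧) : ev t f = val f (1 / t) := rfl

lemma val_zero (f : ℚ⟦X⟧) : val f 0 = ((constantCoeff f : ℚ) : ℝ) := by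
  unfold val
  rw [tsum_eq_single 0]
  · simp
  · intro m hm
    simp [hm]

/-- geometric bounds for the coefficients -/
def GB (A : ℝ) (f : ℚ⟦X⟧) : Prop := ∀ m, |((coeff m f : ℚ) : ℝ)| ≤ A ^ (m + 1)

lemma GB.mono {A B : ℝ} {f : ℚ⟦X⟧} (h : GB A f) (hA : 1 ≤ A) (hAB : A ≤ B) : GB B f := fun m =>
  (h m).trans (pow_le_pow_left₀ (by linarith) hAB _)

lemma GB.deriv {A : ℝ} {f : ℚ⟦X⟧} (h : GB A f) (hA : 1 ≤ A) : GB (2 * A ^ 2) (d⁄dX ℚ f) := by
  intro m
  rw [coeff_derivative]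
  push_cast
  rw [abs_mul, mul_pow, mul_comm]
  refine mul_le_mul ?_ ?_ (abs_nonneg _) (by positivity)
  · rw [abs_of_nonneg (by positivity)]
    exact (succ_le_two_pow m).trans (pow_le_pow_right₀ (by norm_num) (by omega))
  · refine (h (m + 1)).trans ?_
    rw [← pow_mul]
    exact pow_le_pow_right₀ hA (by omega)

lemma hasDerivAt_val {A : ℝ} {f : ℚ⟦X⟧} (h : GB A f) (hA : 1 ≤ A) {x : ℝ} (hx : |x| * A < 1) :
    HasDerivAt (val f) (val (d⁄dX ℚ f) x) x := by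
  have hA0 : 0 < A := by linarith
  obtain ⟨ρ, h1, h2⟩ : ∃ ρ : ℝ, |x| < ρ ∧ ρ * A < 1 := by
    refine ⟨(|x| + 1 / A) / 2, ?_, ?_⟩
    · have : |x| < 1 / A := by rwa [lt_div_iff₀ hA0]
      linarith
    · have : 1 / A * A = 1 := by field_simp
      nlinarith
  have hρ : 0 < ρ := (abs_nonneg x).trans_lt h1
  have hbound : ∀ (n : ℕ) (y : ℝ), y ∈ Metric.ball (0 : ℝ) ρ →
      ‖((coeff n f : ℚ) : ℝ) * (n * y ^ (n - 1))‖ ≤ (A ^ 2 * (n : ℝ)) * (ρ * A) ^ (n - 1) := by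
    intro n y hy
    rw [mem_ball_zero_iff, Real.norm_eq_abs] at hy
    rw [norm_mul, norm_mul, norm_pow, Real.norm_eq_abs, Real.norm_eq_abs, Real.norm_eq_abs, Nat.abs_cast]
    rcases Nat.eq_zero_or_pos n with rfl | hn
    · simp
    · obtain ⟨m, rfl⟩ : ∃ m, n = m + 1 := ⟨n - 1, by omega⟩
      rw [Nat.add_sub_cancel]
      calc |((coeff (m + 1) f : ℚ) : ℝ)| * (((m + 1 : ℕ) : ℝ) * |y| ^ m)
          ≤ A ^ (m + 1 + 1) * (((m + 1 : ℕ) : ℝ) * ρ ^ m) := by
            gcongr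
            exact h _
        _ = A ^ 2 * ((m + 1 : ℕ) : ℝ) * (ρ * A) ^ m := by rw [mul_pow]; ring
  have hsum : Summable fun n : ℕ => (A ^ 2 * (n : ℝ)) * (ρ * A) ^ (n - 1) := by
    rw [← summable_nat_add_iff 1]
    simp only [Nat.add_sub_cancel]
    have e1 := summable_pow_mul_geometric_of_norm_lt_one 1 (r := ρ * A) (by
      rw [Real.norm_eq_abs, abs_of_nonneg (by positivity)]; exact h2)
    have e2 := summable_geometric_of_lt_one (r := ρ * A) (by positivity) h2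
    have e3 := (e1.add e2).mul_left (A ^ 2)
    refine e3.congr fun n => ?_
    push_cast
    ring
  have h0 : Summable fun n : ℕ => ((coeff n f : ℚ) : ℝ) * (0 : ℝ) ^ n := by
    refine summable_of_ne_finset_zero (s := {0}) fun n hn => ?_
    rw [Finset.mem_singleton] at hn
    rw [zero_pow hn, mul_zero]
  have h3 := hasDerivAt_tsum_of_isPreconnected (g := fun (n : ℕ) (y : ℝ) => ((coeff n f : ℚ) : ℝ) * y ^ n)
    (g' := fun (n : ℕ) (y : ℝ) => ((coeff n f : ℚ) : ℝ) * (n * y ^ (n - 1))) hsum Metric.isOpen_ball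
    (convex_ball (0 : ℝ) ρ).isPreconnected (fun n y _ => (hasDerivAt_pow n y).const_mul _) hbound
    (Metric.mem_ball_self hρ) h0 (y := x) (by rw [mem_ball_zero_iff]; exact h1)
  have h4 : ∑' n : ℕ, ((coeff n f : ℚ) : ℝ) * (n * x ^ (n - 1)) = val (d⁄dX ℚ f) x := by
    unfold val
    rw [Summable.tsum_eq_zero_add]
    · simp only [Nat.cast_zero, zero_mul, mul_zero, zero_add, Nat.add_sub_cancel]
      refine tsum_congr fun n => ?_
      rw [coeff_derivative]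
      push_cast
      ring
    · exact Summable.of_norm_bounded hsum fun n => hbound n x (by rw [mem_ball_zero_iff]; exact h1)
  rw [← h4]
  exact h3

lemma GB.cv {A : ℝ} {f : ℚ⟦X⟧} (h : GB A f) (hA : 1 ≤ A) {t : ℝ} (ht : A < t) : Cv t f := by
  refine Cv.of_bound (by linarith) (by linarith : (0 : ℝ) ≤ A) ht (A := A) fun m => ?_
  rw [← pow_succ']
  exact h m

lemma val_mul {A : ℝ} {f g : ℚ⟦X⟧} (h : GB A f) (h' : GB A g) (hA : 1 ≤ A) {x : ℝ} (hx : 0 ≤ x) (hxA : x * A < 1) :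
    val (f * g) x = val f x * val g x := by
  rcases hx.eq_or_lt with rfl | hx0
  · rw [val_zero, val_zero, val_zero, map_mul]
    push_cast
    rfl
  · have ht : A < 1 / x := by
      rw [lt_div_iff₀ hx0, mul_comm]
      exact hxA
    have h1 := Cv.ev_mul (one_div_pos.2 hx0) (h.cv hA ht) (h'.cv hA ht)
    rw [ev_val, ev_val, ev_val, one_div_one_div] at h1
    exact h1

/-- the iterated integrals -/
noncomputable def JJ {σ : Type} (ω : σ → ℚ⟦X⟧) : List σ → ℝ → ℝ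
  | [] => fun _ => 1
  | j :: w => fun x => ∫ u in (0 : ℝ)..x, val (ω j) u * JJ ω w u

theorem JJ_eq {σ : Type} {ω : σ → ℚ⟦X⟧} {A : ℝ} (hA : 1 ≤ A) (hω : ∀ j, GB A (ω j)) {L : ℕ}
    (hI : ∀ w : List σ, w.length ≤ L → GB A (II ω w)) (w : List σ) (hw : w.length ≤ L) (x : ℝ) (hx : 0 ≤ x) (hxA : x * A < 1) :
    JJ ω w x = val (II ω w) x := by
  induction w generalizing x with
  | nil =>
    show (1 : ℝ) = val 1 x
    unfold val
    rw [tsum_eq_single 0]
    · simp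
    · intro m hm
      rw [coeff_one, if_neg hm]
      simp
  | cons j w ih =>
    have hw' : w.length ≤ L := by
      rw [List.length_cons] at hw
      omega
    have hA0 : 0 < A := by linarith
    show (∫ u in (0 : ℝ)..x, val (ω j) u * JJ ω w u) = _
    have hu : ∀ u ∈ Set.uIcc 0 x, 0 ≤ u ∧ u * A < 1 ∧ |u| * A < 1 := by
      intro u hu
      rw [Set.uIcc_of_le hx] at hu
      have h1 : u * A < 1 := lt_of_le_of_lt (mul_le_mul_of_nonneg_right hu.2 hA0.le) hxA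
      refine ⟨hu.1, h1, ?_⟩
      rw [abs_of_nonneg hu.1]
      exact h1
    have h1 : ∀ u ∈ Set.uIcc 0 x, HasDerivAt (val (II ω (j :: w))) (val (ω j) u * val (II ω w) u) u := by
      intro u hu'
      obtain ⟨a, b, c⟩ := hu u hu'
      have h2 := hasDerivAt_val (hI (j :: w) hw) hA c
      have h3 : d⁄dX ℚ (II ω (j :: w)) = ω j * II ω w := deriv_prim _
      rw [h3, val_mul (hω j) (hI w hw') hA a b] at h2
      exact h2
    have h2 : Set.EqOn (fun u => val (ω j) u * JJ ω w u) (fun u => val (ω j) u * val (II ω w) u) (Set.uIcc 0 x) := by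
      intro u hu'
      obtain ⟨a, b, c⟩ := hu u hu'
      show val (ω j) u * JJ ω w u = val (ω j) u * val (II ω w) u
      rw [ih hw' u a b]
    rw [intervalIntegral.integral_congr h2, intervalIntegral.integral_eq_sub_of_hasDerivAt h1, val_zero]
    · have : constantCoeff (II ω (j :: w)) = 0 := const_prim _
      rw [this]
      simp
    · refine ContinuousOn.intervalIntegrable ?_
      refine ContinuousOn.mul ?_ ?_
      · intro u hu'
        exact (hasDerivAt_val (hω j) hA (hu u hu').2.2).continuousAt.continuousWithinAt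
      · intro u hu'
        exact (hasDerivAt_val (hI w hw') hA (hu u hu').2.2).continuousAt.continuousWithinAt

/-- changing finitely many values -/
theorem Win.congr {τ : Type} [Fintype τ] {X X' : ℕ → τ → ℂ} (h : Win X) (t₀ : ℕ) (he : ∀ t, t₀ < t → X' t = X t) : Win X' := by
  intro D
  obtain ⟨E, M, hE⟩ := h D
  refine ⟨E + (t₀ + 1), M, fun H t hHt V _ hV S hS => ?_⟩
  have h1 : (H + 2) ^ E ≤ t := (Nat.pow_le_pow_right (by omega) (by omega)).trans hHt
  have hHt' : H + t₀ < t := by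
    have h1 : (H + 2) ^ (t₀ + 1) ≤ t := (Nat.pow_le_pow_right (by omega) (by omega)).trans hHt
    have h2 : t₀ < 2 ^ t₀ := Nat.lt_two_pow_self
    have h3 : 2 ^ t₀ ≤ (H + 2) ^ t₀ := Nat.pow_le_pow_left (by omega) _
    have h4 : (t₀ + 1) * (H + 2) ≤ (H + 2) ^ (t₀ + 1) := by
      rw [pow_succ]
      exact Nat.mul_le_mul_right _ (by omega)
    have h5 : H + t₀ < (t₀ + 1) * (H + 2) := by nlinarith
    omega
  refine hE H t h1 V hV S fun g hg => ?_
  obtain ⟨g1, g2⟩ := hS g hg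
  refine ⟨g1, ?_⟩
  rw [he (t - g) (by omega)] at g2
  exact g2

/-- the numbers attached to a curve -/
noncomputable def num {σ : Type} (n : ℕ) (y : ℚ⟦X⟧) (ω : σ → ℚ⟦X⟧) (L K : ℕ) (t : ℕ)
    (b : (Fin n × Wd σ L) × Fin (K + 1)) : ℂ :=
  ((val y (1 / (t : ℝ)) ^ (b.1.1 : ℕ) * JJ ω b.1.2.1 (1 / (t : ℝ)) * Real.log t ^ (b.2 : ℕ) : ℝ) : ℂ)

theorem num_eq {σ : Type} [Fintype σ] {y : ℚ⟦X⟧} {g Δ : Polynomial ℤ} {ω : σ → ℚ⟦X⟧} (h : Dat y g Δ ω)
    {P : Polynomial (Polynomial ℤ)} (hP : P.Monic) (hy : evy y P = 0) (hT : (TT g Δ).coeff 0 ≠ 0) (L K : ℕ) :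
    ∃ t₀ : ℕ, ∀ t, t₀ < t → num P.natDegree y ω L K t = XF K (YY P.natDegree y ω L) t := by
  obtain ⟨B, hB⟩ := h.exists_ode hP hy (L + 1)
  obtain ⟨C, hC1, hC⟩ := size_ord hT hB
  have hn : 0 < P.natDegree := by
    rcases Nat.eq_zero_or_pos P.natDegree with h0 | h0
    · exfalso
      have h1 := Polynomial.eq_one_of_monic_natDegree_zero hP h0
      rw [h1, map_one] at hy
      exact one_ne_zero hy
    · exact h0
  set A : ℝ := 2 * C ^ 2 with hAd
  have hCA : C ≤ A := by nlinarith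
  have hA1 : 1 ≤ A := hC1.trans hCA
  have hI : ∀ w : List σ, w.length ≤ L + 1 → GB C (II ω w) := by
    intro w hw m
    have h1 := hC (⟨0, hn⟩, ⟨w, hw⟩) m
    rw [YY] at h1
    simpa using h1
  have hYp : ∀ c : Fin P.natDegree, GB C (y ^ (c : ℕ)) := by
    intro c m
    have h1 := hC (c, ⟨[], by simp⟩) m
    rw [YY] at h1
    simpa [II] using h1
  have hω : ∀ j, GB A (ω j) := by
    intro j
    have h1 := (hI [j] (by simp)).deriv hC1
    have h2 : d⁄dX ℚ (II ω [j]) = ω j := by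
      show d⁄dX ℚ (prim (ω j * 1)) = _
      rw [deriv_prim, mul_one]
    rw [h2] at h1
    exact h1
  have hy1 : ∀ t : ℝ, A < t → Cv t y := by
    intro t ht
    have ht0 : 0 < t := by linarith
    obtain ⟨F, hF⟩ := RR_expand hP hy (y_mem y)
    rw [hF]
    exact Cv.sum ht0 _ _ fun c _ => (Cv.coe _).mul ht0 ((hYp c).cv hC1 (by linarith))
  obtain ⟨t₀, ht₀⟩ := exists_nat_gt A
  refine ⟨t₀, fun t ht => ?_⟩
  have htA : A < (t : ℝ) := by
    have : (t₀ : ℝ) < t := by exact_mod_cast ht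
    linarith
  have ht0 : (0 : ℝ) < t := by linarith
  funext b
  obtain ⟨⟨c, w, hw⟩, e⟩ := b
  have hx : (0 : ℝ) ≤ 1 / t := by positivity
  have hxA : (1 / (t : ℝ)) * A < 1 := by
    rw [one_div, inv_mul_lt_one₀ ht0]
    exact htA
  have h1 := JJ_eq hA1 hω (fun w hw => (hI w hw).mono hC1 hCA) w (hw.trans (by omega : L ≤ L + 1)) (1 / t) hx hxA
  have h2 : ev (t : ℝ) (YY P.natDegree y ω L (c, ⟨w, hw⟩)) = val y (1 / (t : ℝ)) ^ (c : ℕ) * JJ ω w (1 / (t : ℝ)) := by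
    rw [YY, Cv.ev_mul ht0 ((hy1 t htA).pow ht0 _) ((hI w (hw.trans (by omega : L ≤ L + 1))).cv hC1 (by linarith)),
      Cv.ev_pow ht0 (hy1 t htA), h1, ev_val, ev_val]
  rw [num, XF, h2]
  push_cast
  rfl

theorem win_num {σ : Type} [Fintype σ] [DecidableEq σ] {y : ℚ⟦X⟧} {g Δ : Polynomial ℤ} {ω : σ → ℚ⟦X⟧} (h : Dat y g Δ ω)
    {P : Polynomial (Polynomial ℤ)} (hP : P.Monic) (hy : evy y P = 0) (hT : (TT g Δ).coeff 0 ≠ 0)
    (hpow : LinearIndependent (Polynomial ℚ) (fun c : Fin P.natDegree => y ^ (c : ℕ)))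
    (hex : ∀ (c : σ → ℚ) (Q : Polynomial ℤ) (f : ℚ⟦X⟧), Q ≠ 0 → ps Q * f ∈ RR y →
      d⁄dX ℚ f = ∑ j, PowerSeries.C (c j) * ω j → c = 0)
    (L K : ℕ) : Win (num P.natDegree y ω L K) := by
  obtain ⟨t₀, ht₀⟩ := num_eq h hP hy hT L K
  have hTn : TT g Δ ≠ 0 := by
    intro h0
    rw [h0] at hT
    exact hT (Polynomial.coeff_zero 0)
  have hg : g ≠ 0 := by
    rintro rfl
    exact hTn (by rw [TT, zero_mul])
  have hΔ : Δ ≠ 0 := by
    rintro rfl
    exact hTn (by rw [TT]; simp)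
  exact (h.win hP hy L hT (indep_YY h hΔ hg hP hy hpow hex L) K).congr t₀ ht₀

end Pool.Agent.W5h35.IC
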