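import Pool.Agent.W5h35.IC.Shuf

/-!
# Convergence, and the variety of the shuffle relations
-/

set_option autoImplicit false

open PowerSeries Pool.Agent.Y113 Pool.Agent.Y120.GF Pool.Agent.Y120.GH Pool.Agent.Y119.ML Filter Topology

namespace Pool.Agent.W5h35.IC

attribute [-instance] HahnSeries.powerSeriesAlgebra

lemma prim_Cw {ρ : ℝ} {f : ℚ⟦X⟧} (h : cx f ∈ Cw ρ) : cx (prim f) ∈ Cw ρ := by
  intro r hr hrρ
  have h1 := (h r hr hrρ).mul_left r
  rw [← summable_nat_add_iff 1]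
  refine Summable.of_nonneg_of_le (fun m => by positivity) (fun m => ?_) h1
  rw [norm_coeff_cx, norm_coeff_cx, prim, coeff_mk, Nat.add_sub_cancel]
  push_cast
  rw [abs_div]
  have h2 : (1 : ℝ) ≤ |((m : ℝ) + 1)| := by
    rw [abs_of_nonneg (by positivity)]
    have : (0 : ℝ) ≤ m := Nat.cast_nonneg m
    linarith
  have h3 : |((coeff m f : ℚ) : ℝ)| / |((m : ℝ) + 1)| ≤ |((coeff m f : ℚ) : ℝ)| := div_le_self (abs_nonneg _) h2
  calc |((coeff m f : ℚ) : ℝ)| / |((m : ℝ) + 1)| * r ^ (m + 1) ≤ |((coeff m f : ℚ) : ℝ)| * r ^ (m + 1) :=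
        mul_le_mul_of_nonneg_right h3 (by positivity)
    _ = r * (|((coeff m f : ℚ) : ℝ)| * r ^ m) := by ring

lemma prim0_Cw {ρ : ℝ} {f : ℚ⟦X⟧} (h : cx f ∈ Cw ρ) : cx (prim0 f) ∈ Cw ρ := by
  intro r hr hrρ
  refine Summable.of_nonneg_of_le (fun m => by positivity) (fun m => ?_) (h r hr hrρ)
  rw [norm_coeff_cx, norm_coeff_cx, prim0, coeff_mk]
  push_cast
  rw [abs_div]
  refine mul_le_mul_of_nonneg_right ?_ (by positivity)
  rcases m with _ | m
  · simp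
  · refine div_le_self (abs_nonneg _) ?_
    rw [Nat.abs_cast]
    exact_mod_cast Nat.succ_le_succ (Nat.zero_le m)

section
variable {σ : Type} {y : ℚ⟦X⟧} {g Δ : Polynomial ℤ} {ω : σ → ℚ⟦X⟧}

/-- the ring of the series with rational coefficients and radius of convergence at least `1 / ρ` -/
noncomputable def Kr (ρ : ℝ) : Subring ℚ⟦X⟧ := (Cw ρ).comap cx

lemma mem_Kr {ρ : ℝ} {f : ℚ⟦X⟧} : f ∈ Kr ρ ↔ cx f ∈ Cw ρ := Iff.rfl

lemma I2_Kr {ρ : ℝ} (hω : ∀ j, ω j ∈ Kr ρ) (w : List (Option σ)) : I2 ω w ∈ Kr ρ := by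
  induction w with
  | nil => exact Subring.one_mem _
  | cons a w ih =>
    rcases a with _ | j
    · exact prim0_Cw ih
    · exact prim_Cw (Subring.mul_mem _ (hω j) ih)

/-- the value outside of the disc of radius `ρ` -/
noncomputable def evr {ρ : ℝ} (hρ : 0 ≤ ρ) {α : ℂ} (hα : ρ < ‖α‖) : Kr ρ →+* ℂ where
  toFun f := ou (cx f.1) α
  map_one' := by
    show ou (cx 1) α = 1
    rw [map_one]
    exact ou_one α
  map_mul' f g := by
    show ou (cx (f.1 * g.1)) α = _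
    rw [map_mul]
    exact ou_mul hρ f.2 g.2 hα
  map_zero' := by
    show ou (cx 0) α = 0
    rw [map_zero]
    exact ou_zero α
  map_add' f g := by
    show ou (cx (f.1 + g.1)) α = _
    rw [map_add]
    exact ou_add hρ f.2 g.2 hα

lemma AChar.map {S S' : Type} [CommRing S] [CommRing S'] {g : List (Option σ) → S} (h : AChar g) (φ : S →+* S') :
    AChar fun w => φ (g w) := by
  refine ⟨by rw [h.one, map_one], fun u v hu hv => ?_⟩
  rw [← map_mul, h.mul u v hu hv, map_list_sum, List.map_map]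
  rfl

lemma char_Kr {ρ : ℝ} (hω : ∀ j, ω j ∈ Kr ρ) : AChar fun w => (⟨I2 ω w, I2_Kr hω w⟩ : Kr ρ) := by
  refine ⟨Subtype.ext (I2_char ω).one, fun u v hu hv => Subtype.ext ?_⟩
  have h1 := (I2_char ω).mul u v hu hv
  refine h1.trans ?_
  generalize sh u v = l
  induction l with
  | nil => rfl
  | cons w l ih =>
    rw [List.map_cons, List.sum_cons, List.map_cons, List.sum_cons, ih]
    rfl

/-- the values of the iterated integrals satisfy the shuffle relations -/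
lemma char_ou {ρ : ℝ} (hρ : 0 ≤ ρ) (hω : ∀ j, ω j ∈ Kr ρ) {α : ℂ} (hα : ρ < ‖α‖) :
    AChar fun w => ou (cx (I2 ω w)) α := (char_Kr hω).map (evr hρ hα)

lemma fin_sum [Fintype σ] {A S : Type} [Zero A] [AddCommMonoid S] (F : List (Option σ) →₀ A) (hF : ∀ w, ¬ adm w → F w = 0)
    (f : List (Option σ) → A → S) (hf : ∀ w, f w 0 = 0) :
    F.sum f = ∑ w : Wt σ (F.support.sup List.length), f w.1 (F w.1) := by
  classical
  have h1 : ∑ w : Wt σ (F.support.sup List.length), f w.1 (F w.1) =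
      ∑ w ∈ (Finset.univ : Finset (Wt σ (F.support.sup List.length))).map ⟨Subtype.val, Subtype.val_injective⟩, f w (F w) := by
    rw [Finset.sum_map]
    rfl
  rw [h1, Finsupp.sum]
  refine Finset.sum_subset (fun w hw => ?_) fun w _ hw => ?_
  · rw [Finset.mem_map]
    have ha : adm w := by
      by_contra hc
      exact (Finsupp.mem_support_iff.1 hw) (hF w hc)
    exact ⟨⟨w, Finset.le_sup hw, ha⟩, Finset.mem_univ _, rfl⟩
  · rw [Finsupp.notMem_support_iff.1 hw, hf]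

lemma zero_of_Wt [Fintype σ] {A : Type} [Zero A] (F : List (Option σ) →₀ A) (hF : ∀ w, ¬ adm w → F w = 0) {p : A → Prop} (hp : p 0)
    (h : ∀ w : Wt σ (F.support.sup List.length), p (F w.1)) (w : List (Option σ)) : p (F w) := by
  by_cases hw : w ∈ F.support
  · have ha : adm w := by
      by_contra hc
      exact (Finsupp.mem_support_iff.1 hw) (hF w hc)
    exact h ⟨w, Finset.le_sup hw, ha⟩
  · rw [Finsupp.notMem_support_iff.1 hw]
    exact hp

/-- the hypotheses on the curve and the forms -/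
structure Full [Fintype σ] (P : Polynomial (Polynomial ℤ)) (y : ℚ⟦X⟧) (g Δ : Polynomial ℤ) (ω : σ → ℚ⟦X⟧) : Prop where
  dat : Dat y g Δ ω
  hT : (TT g Δ).coeff 0 ≠ 0
  monic : P.Monic
  root : evy y P = 0
  pow : LinearIndependent (Polynomial ℚ) (fun c : Fin P.natDegree => y ^ (c : ℕ))
  ex : ∀ (c : σ → ℚ) (Q : Polynomial ℤ) (f : ℚ⟦X⟧), Q ≠ 0 → ps Q * f ∈ RR y →
    d⁄dX ℚ f = ∑ j, PowerSeries.C (c j) * ω j → c = 0

variable {P : Polynomial (Polynomial ℤ)}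

lemma Full.TTne [Fintype σ] (h : Full P y g Δ ω) : TT g Δ ≠ 0 := by
  intro h0
  have h1 := h.hT
  rw [h0] at h1
  exact h1 (Polynomial.coeff_zero 0)

lemma Full.gne [Fintype σ] (h : Full P y g Δ ω) : g ≠ 0 := by
  rintro rfl
  exact h.TTne (by rw [TT, zero_mul])

lemma Full.Δne [Fintype σ] (h : Full P y g Δ ω) : Δ ≠ 0 := by
  rintro rfl
  exact h.TTne (by rw [TT]; simp)

lemma Full.ind [Fintype σ] [DecidableEq σ] (h : Full P y g Δ ω) (L : ℕ) (G : Wt σ L → Pool.Agent.Y119.ML.FF) (hG : ∀ w, G w ∈ KY y)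
    (h0 : ∑ w, G w * io (I2 ω w.1) = 0) : ∀ w, G w = 0 :=
  indT_K h.dat h.Δne h.gne h.monic h.root h.ex L G hG h0

lemma Full.li [Fintype σ] [DecidableEq σ] (h : Full P y g Δ ω) (L : ℕ) :
    LinearIndependent (Polynomial ℚ) (fun w : Wt σ L => I2 ω w.1) := by
  rw [Fintype.linearIndependent_iff]
  intro F hF w
  have h1 := h.ind L (fun w => pio (F w)) (fun w => pio_mem' y _) (by
    rw [← map_zero io, ← hF, map_sum]
    refine Finset.sum_congr rfl fun w _ => ?_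
    rw [Algebra.smul_def, map_mul]
    rfl) w
  have h2 : ((F w : Polynomial ℚ) : ℚ⟦X⟧) = ((0 : Polynomial ℚ) : ℚ⟦X⟧) := by
    rw [Polynomial.coe_zero]
    apply io_inj
    rw [map_zero]
    exact h1
  exact Polynomial.coe_injective ℚ h2

/-- the convergence -/
theorem Full.conv [Fintype σ] (h : Full P y g Δ ω) : ∃ ρ : ℝ, 0 ≤ ρ ∧ y ∈ Kr ρ ∧ ∀ j, ω j ∈ Kr ρ := by
  obtain ⟨B, hB⟩ := h.dat.exists_ode h.monic h.root 1
  obtain ⟨C, hC1, hC⟩ := size_ord h.hT hB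
  have hn : 0 < P.natDegree := by
    rcases Nat.eq_zero_or_pos P.natDegree with h0 | h0
    · exfalso
      have h1 := Polynomial.eq_one_of_monic_natDegree_zero h.monic h0
      have h2 := h.root
      rw [h1, map_one] at h2
      exact one_ne_zero h2
    · exact h0
  have hCA : C ≤ 2 * C ^ 2 := by nlinarith
  have hA1 : 1 ≤ 2 * C ^ 2 := hC1.trans hCA
  have hYp : ∀ c : Fin P.natDegree, y ^ (c : ℕ) ∈ Kr (2 * C ^ 2) := by
    intro c
    have h0 : GB C (y ^ (c : ℕ)) := by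
      intro m
      have h1 := hC (c, ⟨[], by simp⟩) m
      rw [YY] at h1
      simpa [II] using h1
    exact cx_mem (by linarith) (h0.mono hC1 hCA)
  refine ⟨2 * C ^ 2, by linarith, ?_, fun j => ?_⟩
  · obtain ⟨F, hF⟩ := RR_expand h.monic h.root (y_mem y)
    rw [hF]
    refine Subring.sum_mem _ fun c _ => Subring.mul_mem _ ?_ (hYp c)
    show cx _ ∈ Cw _
    rw [ps, cx_poly]
    exact poly_mem _
  · have h0 : GB C (II ω [j]) := by
      intro m
      have h1 := hC (⟨0, hn⟩, ⟨[j], by simp⟩) m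
      rw [YY] at h1
      simpa using h1
    have h1 := h0.deriv hC1
    have h2 : d⁄dX ℚ (II ω [j]) = ω j := by
      show d⁄dX ℚ (prim (ω j * 1)) = _
      rw [deriv_prim, mul_one]
    rw [h2] at h1
    exact cx_mem (by linarith) h1

/-- polynomials as convergent series -/
noncomputable def cK (ρ : ℝ) : Polynomial ℚ →+* Kr ρ :=
  RingHom.codRestrict (Polynomial.coeToPowerSeries.ringHom (R := ℚ)) (Kr ρ) fun p => by
    show cx (p : ℚ⟦X⟧) ∈ Cw ρ
    rw [cx_poly]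
    exact poly_mem _

/-- evaluation of polynomials in two variables -/
noncomputable def fK (ρ : ℝ) (y : Kr ρ) : Polynomial (Polynomial ℚ) →+* Kr ρ := Polynomial.eval₂RingHom (cK ρ) y

lemma fK_mem {ρ : ℝ} (hy : y ∈ Kr ρ) (a : Polynomial (Polynomial ℚ)) : io ((fK ρ ⟨y, hy⟩ a : Kr ρ) : ℚ⟦X⟧) ∈ KY y := by
  have h1 : ((fK ρ ⟨y, hy⟩ a : Kr ρ) : ℚ⟦X⟧) = a.eval₂ (Polynomial.coeToPowerSeries.ringHom (R := ℚ)) y := by
    have := Polynomial.hom_eval₂ a (cK ρ) (Kr ρ).subtype ⟨y, hy⟩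
    exact this
  rw [h1, Polynomial.eval₂_eq_sum_range, map_sum]
  refine sum_mem fun k _ => ?_
  rw [map_mul, map_pow]
  exact mul_mem (pio_mem' y _) (pow_mem (io_y_mem y) _)

/-- functional relations are consequences of the shuffle relations and of the equation of the curve -/
theorem Full.rel [Fintype σ] [DecidableEq σ] (h : Full P y g Δ ω) {ρ : ℝ} (hy : y ∈ Kr ρ)
    {n L : ℕ} (R : MvPolynomial (Fin n × Wt σ L) (Polynomial (Polynomial ℚ)))
    (hR : R.eval₂ ((Kr ρ).subtype.comp (fK ρ ⟨y, hy⟩)) (fun i => YX n y ω L i) = 0) {ψ : Kr ρ →+* ℂ} {γ : List (Option σ) → ℂ}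
    (hγ : AChar γ) : R.eval₂ (ψ.comp (fK ρ ⟨y, hy⟩)) (fun i => ψ ⟨y, hy⟩ ^ (i.1 : ℕ) * γ i.2.1) = 0 := by
  classical
  obtain ⟨F, hF, hF'⟩ := linY (σ := σ) (Polynomial.X : Polynomial (Polynomial ℚ)) R
  have hX : fK ρ ⟨y, hy⟩ Polynomial.X = ⟨y, hy⟩ := Polynomial.eval₂_X _ _
  have h1 := hF' ℚ⟦X⟧ ((Kr ρ).subtype.comp (fK ρ ⟨y, hy⟩)) (I2 ω) (I2_char ω)
  have h2 := hF' ℂ (ψ.comp (fK ρ ⟨y, hy⟩)) γ hγ
  rw [RingHom.comp_apply, hX] at h1 h2
  have h3 : (F.sum fun w a => ((Kr ρ).subtype.comp (fK ρ ⟨y, hy⟩)) a * I2 ω w) = 0 := by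
    rw [← h1]
    exact hR
  rw [fin_sum F hF _ fun w => by rw [map_zero, zero_mul]] at h3
  have h4 := h.ind _ (fun w => io ((fK ρ ⟨y, hy⟩ (F w.1) : Kr ρ) : ℚ⟦X⟧)) (fun w => fK_mem hy _) (by
    rw [← map_zero io, ← h3, map_sum]
    refine Finset.sum_congr rfl fun w _ => ?_
    rw [← map_mul]
    rfl)
  have h5 : ∀ w, fK ρ ⟨y, hy⟩ (F w) = 0 := by
    refine zero_of_Wt F hF (p := fun a => fK ρ ⟨y, hy⟩ a = 0) (map_zero _) fun w => ?_
    apply Subtype.ext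
    apply io_inj
    rw [h4 w]
    show (0 : Pool.Agent.Y119.ML.FF) = io 0
    rw [map_zero]
  rw [h2]
  refine Finset.sum_eq_zero fun w _ => ?_
  show (ψ.comp (fK ρ ⟨y, hy⟩)) (F w) * γ w = 0
  rw [RingHom.comp_apply, h5 w, map_zero, zero_mul]

/-- the variety of the shuffle relations is irreducible -/
theorem Full.irr [Fintype σ] [DecidableEq σ] (h : Full P y g Δ ω) {ρ : ℝ} (hρ : 0 ≤ ρ) (hω : ∀ j, ω j ∈ Kr ρ) {n L : ℕ} (y0 : ℂ)
    (A B : MvPolynomial (Fin n × Wt σ L) ℂ)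
    (hAB : ∀ γ : List (Option σ) → ℂ, AChar γ → MvPolynomial.eval (fun i => y0 ^ (i.1 : ℕ) * γ i.2.1) A *
      MvPolynomial.eval (fun i => y0 ^ (i.1 : ℕ) * γ i.2.1) B = 0) :
    (∀ γ : List (Option σ) → ℂ, AChar γ → MvPolynomial.eval (fun i => y0 ^ (i.1 : ℕ) * γ i.2.1) A = 0) ∨
    ∀ γ : List (Option σ) → ℂ, AChar γ → MvPolynomial.eval (fun i => y0 ^ (i.1 : ℕ) * γ i.2.1) B = 0 := by
  classical
  -- the linearisations
  have key : ∀ A : MvPolynomial (Fin n × Wt σ L) ℂ, ∃ f ∈ Cw ρ, (∀ z : ℂ, ρ < ‖z‖ → ∃ γ : List (Option σ) → ℂ, AChar γ ∧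
      (γ = fun w => ou (cx (I2 ω w)) z) ∧ ou f z = MvPolynomial.eval (fun i => y0 ^ (i.1 : ℕ) * γ i.2.1) A) ∧
      (f = 0 → ∀ γ : List (Option σ) → ℂ, AChar γ → MvPolynomial.eval (fun i => y0 ^ (i.1 : ℕ) * γ i.2.1) A = 0) := by
    intro A
    obtain ⟨F, hF, hF'⟩ := linY (σ := σ) y0 A
    have hev : ∀ γ : List (Option σ) → ℂ, AChar γ → MvPolynomial.eval (fun i => y0 ^ (i.1 : ℕ) * γ i.2.1) A =
        ∑ w : Wt σ (F.support.sup List.length), F w.1 * γ w.1 := by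
      intro γ hγ
      have h1 := hF' ℂ (RingHom.id ℂ) γ hγ
      rw [fin_sum F hF _ fun w => by rw [map_zero, zero_mul]] at h1
      exact h1
    set f : PowerSeries ℂ := ∑ w : Wt σ (F.support.sup List.length), PowerSeries.C (F w.1) * cx (I2 ω w.1) with hf
    have hmem : ∀ w : Wt σ (F.support.sup List.length), PowerSeries.C (F w.1) * cx (I2 ω w.1) ∈ Cw ρ := fun w =>
      Subring.mul_mem _ (C_mem _) (I2_Kr hω w.1)
    refine ⟨f, Subring.sum_mem _ fun w _ => hmem w, fun z hz => ⟨_, char_ou hρ hω hz, rfl, ?_⟩, fun hf0 γ hγ => ?_⟩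
    · rw [hev _ (char_ou hρ hω hz), hf, ou_sum hρ _ (fun w _ => hmem w) hz]
      refine Finset.sum_congr rfl fun w _ => ?_
      rw [ou_mul hρ (C_mem _) (I2_Kr hω w.1) hz, ou_C]
    · rw [hev γ hγ]
      have h1 := li_cx (h.li (F.support.sup List.length)) (fun w => Polynomial.C (F w.1)) (by
        rw [← hf0, hf]
        refine Finset.sum_congr rfl fun w _ => ?_
        rw [Polynomial.coe_C])
      refine Finset.sum_eq_zero fun w _ => ?_
      have h2 := h1 w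
      rw [Polynomial.C_eq_zero] at h2
      rw [h2, zero_mul]
  obtain ⟨a, haC, ha, ha0⟩ := key A
  obtain ⟨b, hbC, hb, hb0⟩ := key B
  have hab : a * b = 0 := by
    refine ou_inj hρ (Subring.mul_mem _ haC hbC) (p := ((ρ + 1 : ℝ) : ℂ)) ?_ ?_
    · rw [Complex.norm_real, Real.norm_of_nonneg (by linarith)]
      linarith
    · have hop : IsOpen {z : ℂ | ρ < ‖z‖} := isOpen_lt continuous_const continuous_norm
      filter_upwards [hop.mem_nhds (show ((ρ + 1 : ℝ) : ℂ) ∈ {z : ℂ | ρ < ‖z‖} by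
        show ρ < ‖((ρ + 1 : ℝ) : ℂ)‖
        rw [Complex.norm_real, Real.norm_of_nonneg (by linarith)]
        linarith)] with z hz
      obtain ⟨γ, hγ, hγe, h1⟩ := ha z hz
      obtain ⟨γ', hγ', hγe', h2⟩ := hb z hz
      rw [ou_mul hρ haC hbC hz, h1, h2, hγe', ← hγe]
      exact hAB γ hγ
  rcases mul_eq_zero.1 hab with h1 | h1
  · exact Or.inl (ha0 h1)
  · exact Or.inr (hb0 h1)

end

end Pool.Agent.W5h35.IC
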