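import Pool.Agent.W5h35.IC.Vf
import Pool.Agent.W5h35.IC.Tan2
import Pool.Agent.Y916.Af.Trd

/-!
# Windows of algebraic points
-/

set_option autoImplicit false

open PowerSeries Module Pool.Agent.Y113 Pool.Agent.Y120.GF Pool.Agent.Y120.GH Filter Topology

namespace Pool.Agent.W5h35.IC

open Pool.Agent.Y916.Al (evc)
open Pool.Agent.Y916.Af (Vc GFs ptc winT2s nrh_of_gfs IrrD prod_irrD opt_irrD trdeg_le_of_closure mem_cl_of_alg)
open Pool.Agent.Y118.UL (Irr)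

attribute [-instance] HahnSeries.powerSeriesAlgebra

lemma evc_ou (α : ℂ) (f : ℚ⟦X⟧) : evc (1 / α) f = ou (cx f) α := by
  unfold evc ou inn
  refine tsum_congr fun m => ?_
  rw [coeff_cx]

lemma irr_of_irrD {ι : Type} {Y : Set (ι → ℂ)} (h : ∀ d, IrrD d Y) : Irr Y := fun P Q =>
  h (max P.totalDegree Q.totalDegree) P Q (le_max_left _ _) (le_max_right _ _)

section
variable {σ : Type} {y : ℚ⟦X⟧} {g Δ : Polynomial ℤ} {ω : σ → ℚ⟦X⟧} {P : Polynomial (Polynomial ℤ)}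

/-- the points of the variety -/
def Zv {n L r : ℕ} (e : Fin r ≃ Fin n × Wt σ L) (y0 : ℂ) : Set (Fin r → ℂ) :=
  {v | ∃ γ : List (Option σ) → ℂ, AChar γ ∧ ∀ i, v i = y0 ^ ((e i).1 : ℕ) * γ (e i).2.1}

lemma Full.irrZ [Fintype σ] [DecidableEq σ] (h : Full P y g Δ ω) {ρ : ℝ} (hρ : 0 ≤ ρ) (hω : ∀ j, ω j ∈ Kr ρ) {n L r : ℕ}
    (e : Fin r ≃ Fin n × Wt σ L) (y0 : ℂ) (d : ℕ) : IrrD d (Zv e y0) := by
  intro A B _ _ hAB
  have hr : ∀ (A : MvPolynomial (Fin r) ℂ) (γ : List (Option σ) → ℂ),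
      MvPolynomial.eval (fun i => y0 ^ ((e i).1 : ℕ) * γ (e i).2.1) A =
      MvPolynomial.eval (fun i : Fin n × Wt σ L => y0 ^ (i.1 : ℕ) * γ i.2.1) (MvPolynomial.rename e A) := by
    intro A γ
    rw [MvPolynomial.eval_rename]
    rfl
  have h1 := h.irr hρ hω y0 (MvPolynomial.rename e A) (MvPolynomial.rename e B) (fun γ hγ => by
    rw [← hr, ← hr]
    exact hAB _ ⟨γ, hγ, fun i => rfl⟩)
  refine h1.imp (fun h2 v hv => ?_) fun h2 v hv => ?_
  · obtain ⟨γ, hγ, hv⟩ := hv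
    have hv' : v = fun i => y0 ^ ((e i).1 : ℕ) * γ (e i).2.1 := funext hv
    rw [hv', hr]
    exact h2 γ hγ
  · obtain ⟨γ, hγ, hv⟩ := hv
    have hv' : v = fun i => y0 ^ ((e i).1 : ℕ) * γ (e i).2.1 := funext hv
    rw [hv', hr]
    exact h2 γ hγ

/-- the variety is contained in the variety of the functional relations -/
lemma Full.subV [Fintype σ] [DecidableEq σ] (h : Full P y g Δ ω) {ρ : ℝ} (hρ : 0 ≤ ρ) (hy : y ∈ Kr ρ) {n L r : ℕ}
    (e : Fin r ≃ Fin n × Wt σ L) {α : ℂ} (hα : ρ < ‖α‖) {v : Fin r → ℂ} (hv : v ∈ Zv e (ou (cx y) α)) :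
    v ∈ Vc (fun i => YX n y ω L (e i)) (1 / α) := by
  intro R hR
  obtain ⟨γ, hγ, hv⟩ := hv
  have hv' : v = fun i => (ou (cx y) α) ^ ((e i).1 : ℕ) * γ (e i).2.1 := funext hv
  have h1 := h.rel hy (n := n) (L := L) ((MvPolynomial.rename e R).map Polynomial.C) ?_ (ψ := evr hρ hα) hγ
  · rw [MvPolynomial.eval₂_map, MvPolynomial.eval₂_rename] at h1
    rw [hv', ← h1]
    have h2 : ((evr hρ hα).comp (fK ρ ⟨y, hy⟩)).comp Polynomial.C = (Polynomial.aeval (1 / α) : Polynomial ℚ →ₐ[ℚ] ℂ).toRingHom := by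
      refine RingHom.ext fun p => ?_
      rw [RingHom.comp_apply, RingHom.comp_apply]
      have h3 : fK ρ ⟨y, hy⟩ (Polynomial.C p) = cK ρ p := Polynomial.eval₂_C _ _
      rw [h3]
      show ou (cx (p : ℚ⟦X⟧)) α = Polynomial.aeval (1 / α) p
      rw [cx_poly, ou_poly, Polynomial.eval_map_algebraMap]
    rw [h2]
    rfl
  · rw [MvPolynomial.eval₂_map, MvPolynomial.eval₂_rename, ← hR, MvPolynomial.aeval_def]
    have h2 : ((Kr ρ).subtype.comp (fK ρ ⟨y, hy⟩)).comp Polynomial.C = algebraMap (Polynomial ℚ) ℚ⟦X⟧ := by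
      refine RingHom.ext fun p => ?_
      rw [RingHom.comp_apply, RingHom.comp_apply]
      have h3 : fK ρ ⟨y, hy⟩ (Polynomial.C p) = cK ρ p := Polynomial.eval₂_C _ _
      rw [h3]
      rfl
    rw [h2]
    rfl

/-- the values belong to the variety -/
lemma memZ {ρ : ℝ} (hρ : 0 ≤ ρ) (hy : y ∈ Kr ρ) (hω : ∀ j, ω j ∈ Kr ρ) {n L r : ℕ}
    (e : Fin r ≃ Fin n × Wt σ L) {α : ℂ} (hα : ρ < ‖α‖) :
    (fun i => evc (1 / α) (YX n y ω L (e i))) ∈ Zv e (ou (cx y) α) := by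
  refine ⟨_, char_ou hρ hω hα, fun i => ?_⟩
  show evc (1 / α) (YX n y ω L (e i)) = _
  rw [evc_ou, YX, map_mul, map_pow, ou_mul hρ (Subring.pow_mem (Cw ρ) (show cx y ∈ Cw ρ from hy) _) (I2_Kr hω _) hα,
    ou_pow hρ hy hα]

lemma trdeg_two_pi_I (Ω : Fin 0 → ℂ) : Algebra.trdeg ℚ (IntermediateField.adjoin ℚ (insert (2 * Real.pi * Complex.I : ℂ)
    (Set.range Ω))) ≤ 1 := by
  classical
  have h0 : (((({(2 * Real.pi * Complex.I : ℂ)} : Finset ℂ)).card : ℕ) : Cardinal) = 1 := by simp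
  rw [← h0]
  refine trdeg_le_of_closure _ ?_
  rintro x (rfl | ⟨i, rfl⟩)
  · refine mem_cl_of_alg ?_
    exact isAlgebraic_algebraMap (⟨(2 * Real.pi * Complex.I : ℂ), Algebra.subset_adjoin (by simp)⟩ :
      Algebra.adjoin ℚ ((({(2 * Real.pi * Complex.I : ℂ)} : Finset ℂ)) : Set ℂ))
  · exact i.elim0

/-- large windows are far from zero -/
lemma far {ρ : ℝ} {G B E H u : ℕ} {ξ : ℂ} (hB : ρ ≤ B) (hξ : ((H : ℝ) + 2) ^ (E + (G + B + 1)) ≤ ‖ξ‖) (hu : u ≤ H) :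
    ρ < ‖ξ - ((G * u : ℕ) : ℂ)‖ := by
  have h2 : (1 : ℝ) ≤ (H : ℝ) + 2 := by
    have : (0 : ℝ) ≤ H := Nat.cast_nonneg H
    linarith
  have h1 : ((H : ℝ) + 2) ^ (G + B + 1) ≤ ‖ξ‖ := (pow_le_pow_right₀ h2 (by omega)).trans hξ
  have h3 : G + B < 2 ^ (G + B) := Nat.lt_two_pow_self
  have h3' : ((G : ℝ) + B) < 2 ^ (G + B) := by exact_mod_cast h3
  have h4 : (2 : ℝ) ^ (G + B) ≤ ((H : ℝ) + 2) ^ (G + B) := pow_le_pow_left₀ (by norm_num) (by
    have : (0 : ℝ) ≤ H := Nat.cast_nonneg H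
    linarith) _
  have hH : (0 : ℝ) ≤ H := Nat.cast_nonneg H
  have h5 : ((G : ℝ) + B) * ((H : ℝ) + 2) < ‖ξ‖ := by
    refine lt_of_lt_of_le ?_ h1
    rw [pow_succ]
    exact mul_lt_mul_of_pos_right (lt_of_lt_of_le h3' h4) (by linarith)
  have h6 : ‖ξ‖ - ‖((G * u : ℕ) : ℂ)‖ ≤ ‖ξ - ((G * u : ℕ) : ℂ)‖ := norm_sub_norm_le _ _
  have h7 : ‖((G * u : ℕ) : ℂ)‖ = (G : ℝ) * u := by
    rw [Complex.norm_natCast]
    push_cast
    rfl
  have h8 : (G : ℝ) * u ≤ G * H := mul_le_mul_of_nonneg_left (by exact_mod_cast hu) (Nat.cast_nonneg G)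
  have hG : (0 : ℝ) ≤ G := Nat.cast_nonneg G
  have hBn : (0 : ℝ) ≤ B := Nat.cast_nonneg B
  have h9 : ((G : ℝ) + B) * ((H : ℝ) + 2) = G * H + 2 * G + B * H + 2 * B := by ring
  have h10 : 0 ≤ (B : ℝ) * H := mul_nonneg hBn hH
  rw [h7] at h6
  nlinarith

/-- the values at the points of the window -/
noncomputable def pnt (ω : σ → ℚ⟦X⟧) (L : ℕ) {k : ℕ} (α ℓ : Fin k → ℂ) (a : Fin k × Option (Wt σ L)) : ℂ :=
  a.2.elim (ℓ a.1) fun w => ou (cx (I2 ω w.1)) (α a.1)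

/-- **all polynomial relations of bounded degree between the values are consequences of the shuffle relations, for all
points of the window but at most `q + 2`** -/
theorem Full.windows [Fintype σ] [DecidableEq σ] (h : Full P y g Δ ω) (L : ℕ) :
    ∃ G0 : ℕ, 1 ≤ G0 ∧ ∀ G : ℕ, G0 ≤ G → ∀ q k m d δ A : ℕ, ∃ E : ℕ, ∀ (H : ℕ) (ξ : ℂ),
      ((H : ℝ) + 2) ^ E ≤ ‖ξ‖ → Pool.Agent.Y916.Al.Ht m A ξ → ∀ w : Fin q → ℂ, ∃ S : Finset ℕ, S.card ≤ q + 2 ∧
      ∀ u : Fin k → ℕ, Function.Injective u → (∀ j, 1 ≤ u j ∧ u j ≤ H ∧ u j ∉ S) →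
      ∀ ℓ : Fin k → ℂ, (∀ j, Complex.exp (ℓ j) = ξ - ((G * u j : ℕ) : ℂ)) →
      ∀ K : IntermediateField ℚ ℂ, FiniteDimensional ℚ K → finrank ℚ K ≤ d →
      ∀ Q : MvPolynomial (Fin q ⊕ Fin k × Option (Wt σ L)) K, Q.totalDegree ≤ δ →
      MvPolynomial.aeval (Sum.elim w (pnt ω L (fun j => ξ - ((G * u j : ℕ) : ℂ)) ℓ)) Q = 0 →
      ∀ (γ : Fin k → List (Option σ) → ℂ) (t : Fin k → ℂ), (∀ j, AChar (γ j)) →
      MvPolynomial.aeval (Sum.elim w fun a : Fin k × Option (Wt σ L) => a.2.elim (t a.1) fun v => γ a.1 v.1) Q = 0 := by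
  classical
  obtain ⟨ρ, hρ, hy, hω⟩ := h.conv
  obtain ⟨B, hB⟩ := exists_nat_ge ρ
  obtain ⟨r, e⟩ : ∃ r : ℕ, Nonempty (Fin r ≃ Fin P.natDegree × Wt σ L) := ⟨_, ⟨(Fintype.equivFin _).symm⟩⟩
  obtain ⟨e⟩ := e
  have hn : 0 < P.natDegree := by
    rcases Nat.eq_zero_or_pos P.natDegree with h0 | h0
    · exfalso
      have h1 := Polynomial.eq_one_of_monic_natDegree_zero h.monic h0
      have h2 := h.root
      rw [h1, map_one] at h2
      exact one_ne_zero h2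
    · exact h0
  obtain ⟨T₀, A₀, hG⟩ := h.dat.gfs h.monic h.root h.hT L (indT_YX h.dat h.Δne h.gne h.monic h.root h.pow h.ex L) e
  obtain ⟨G0, hG0, hW⟩ := winT2s (nrh_of_gfs hG) hG.hsize
  refine ⟨G0, hG0, fun G hGG q k m d δ A => ?_⟩
  obtain ⟨E, hE⟩ := hW G hGG 0 Fin.elim0 q k m d δ A
  refine ⟨E + (G + B + 1), fun H ξ hξ hHt w => ?_⟩
  have hH2 : (1 : ℝ) ≤ (H : ℝ) + 2 := by
    have : (0 : ℝ) ≤ H := Nat.cast_nonneg H
    linarith
  obtain ⟨S, hS, hS'⟩ := hE H ξ ((pow_le_pow_right₀ hH2 (by omega)).trans hξ) hHt w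
  refine ⟨S, ?_, fun u hu hub ℓ hℓ K hK hKd Q hQ hQ0 γ t hγ => ?_⟩
  · have h1 := hS.trans (add_le_add (add_le_add (trdeg_two_pi_I Fin.elim0) le_rfl) le_rfl)
    have h2 : (S.card : Cardinal) ≤ ((q + 2 : ℕ) : Cardinal) := by
      refine h1.trans (le_of_eq ?_)
      push_cast
      rw [add_comm (1 : Cardinal) (q : Cardinal), add_assoc]
      norm_num
    exact_mod_cast h2
  · set α : Fin k → ℂ := fun j => ξ - ((G * u j : ℕ) : ℂ) with hα
    have hαρ : ∀ j, ρ < ‖α j‖ := fun j => far hB hξ (hub j).2.1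
    set Y : Set (Fin k × Option (Fin r) → ℂ) :=
      {y' | ∀ j, (fun s => y' (j, s)) ∈ {v : Option (Fin r) → ℂ | (fun s => v (some s)) ∈ Zv e (ou (cx y) (α j))}} with hY
    have hirr : Irr Y := irr_of_irrD fun d => prod_irrD _ fun j => opt_irrD _ (h.irrZ hρ hω e _ d)
    -- the index of a word
    set ix : Wt σ L → Fin r := fun v => e.symm (⟨0, hn⟩, v) with hix
    have hex : ∀ v, e (ix v) = (⟨0, hn⟩, v) := fun v => e.apply_symm_apply _
    set Q' : MvPolynomial ((Fin 0 ⊕ Fin q) ⊕ Fin k × Option (Fin r)) K :=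
      MvPolynomial.rename (Sum.map Sum.inr fun a : Fin k × Option (Wt σ L) => (a.1, a.2.map ix)) Q with hQ'
    have hQ'd : Q'.totalDegree ≤ δ := (MvPolynomial.totalDegree_rename_le _ _).trans hQ
    have hval : ∀ (w : Fin q → ℂ) (z : Fin k × Option (Fin r) → ℂ) (z' : Fin k × Option (Wt σ L) → ℂ),
        (∀ a : Fin k × Option (Wt σ L), z (a.1, a.2.map ix) = z' a) →
        MvPolynomial.aeval (Sum.elim (Sum.elim (Fin.elim0 : Fin 0 → ℂ) w) z) Q' = MvPolynomial.aeval (Sum.elim w z') Q := by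
      intro w z z' hz
      have hfun : (Sum.elim (Sum.elim (Fin.elim0 : Fin 0 → ℂ) w) z ∘ Sum.map Sum.inr
          fun a : Fin k × Option (Wt σ L) => (a.1, a.2.map ix)) = Sum.elim w z' := by
        funext a
        rcases a with a | a
        · rfl
        · exact hz a
      rw [hQ', MvPolynomial.aeval_rename, hfun]
    have hmem : ptc (fun i => YX P.natDegree y ω L (e i)) α ℓ ∈ Y := by
      intro j
      show (fun i => evc (1 / α j) (YX P.natDegree y ω L (e i))) ∈ Zv e (ou (cx y) (α j))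
      exact memZ hρ hy hω e (hαρ j)
    have hfib : ∀ y' ∈ Y, ∀ j, (fun i => y' (j, some i)) ∈ Vc (fun i => YX P.natDegree y ω L (e i)) (1 / α j) := by
      intro y' hy' j
      have h3 : (fun i => y' (j, some i)) ∈ Zv e (ou (cx y) (α j)) := hy' j
      exact h.subV hρ hy e (hαρ j) h3
    have hzero : MvPolynomial.aeval (Sum.elim (Sum.elim (Fin.elim0 : Fin 0 → ℂ) w)
        (ptc (fun i => YX P.natDegree y ω L (e i)) α ℓ)) Q' = 0 := by
      rw [hval w _ (pnt ω L α ℓ)]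
      · exact hQ0
      · rintro ⟨j, v⟩
        rcases v with _ | v
        · rfl
        · show evc (1 / α j) (YX P.natDegree y ω L (e (ix v))) = ou (cx (I2 ω v.1)) (α j)
          rw [hex, evc_ou, YX]
          show ou (cx (y ^ 0 * I2 ω v.1)) (α j) = _
          rw [pow_zero, one_mul]
    have h1 := hS' u hu hub ℓ hℓ Y hirr hmem hfib K hK hKd Q' hQ'd hzero
    have h2 := h1 (fun a => a.2.elim (t a.1) fun i => (ou (cx y) (α a.1)) ^ ((e i).1 : ℕ) * γ a.1 (e i).2.1)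
      (fun j => ⟨γ j, hγ j, fun i => rfl⟩)
    rw [hval w _ (fun a : Fin k × Option (Wt σ L) => a.2.elim (t a.1) fun v => γ a.1 v.1)] at h2
    · exact h2
    · rintro ⟨j, v⟩
      rcases v with _ | v
      · rfl
      · show (ou (cx y) (α j)) ^ ((e (ix v)).1 : ℕ) * γ j (e (ix v)).2.1 = γ j v.1
        rw [hex]
        show (ou (cx y) (α j)) ^ 0 * γ j v.1 = γ j v.1
        rw [pow_zero, one_mul]

end

end Pool.Agent.W5h35.IC
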